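import Pool.Agent.P.MP_390d44_co.Fb.Main

/-! Bands and gaps: definitions and the list of steps. -/

namespace Pool.Agent.P.MP_390d44_co.Fb

open Finset Pool.Agent.P.MP_390d44_co

/-- planes of `X` through `b`. -/
noncomputable def pth (X : Finset Sub) (b : Sub) : Finset Sub := (planes X).filter (b ≤ ·)

/-- lines from `b` to the points of `Y`. -/
noncomputable def ray (b : Sub) (Y : Finset Sub) : Finset Sub := Y.image (b ⊔ ·)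

/-- `B` is the set of points off a plane or off two skew lines. -/
def Cov (X B : Finset Sub) : Prop := (∃ c, rk c = 3 ∧ B = off X c) ∨
  ∃ L M, rk L = 2 ∧ rk M = 2 ∧ L ⊓ M = ⊥ ∧ B = off (off X L) M

/-- all but two points of `Y` are alone on their line through `b`. -/
def Lone (b : Sub) (Y : Finset Sub) : Prop :=
  ∃ S ⊆ Y, Y.card ≤ S.card + 2 ∧ ∀ x ∈ S, ∀ y ∈ Y, y ≤ b ⊔ x → y = x

/-- the properties of a cover that are used. -/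
def Nice (X B : Finset Sub) : Prop := (planes (X \ B)).card ≤ (X \ B).card ∧ ∀ b ∈ B,
  Lone b (X \ B) ∧ (lines (X \ B)).card ≤ (pth X b).card + (X \ B).card + 1

/-- the top of band `k`. -/
def UU (n l k : ℕ) : ℤ := k * l - ((k + 1).choose 2 : ℕ) * n + ((k + 2).choose 3 : ℕ)

lemma UU_succ (n l k : ℕ) :
    UU n l (k + 1) = UU n l k + l - (k + 1) * n + ((k + 2).choose 2 : ℕ) := by
  simp only [UU]
  rw [show k + 1 + 2 = k + 2 + 1 from rfl, ch3 (k + 2), show k + 1 + 1 = k + 2 from rfl]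
  have h : (k + 2).choose 2 = (k + 1).choose 2 + (k + 1) := ch2 (k + 1)
  rw [h]
  push_cast; ring

lemma UU_eq {m k l D : ℕ} (h : l + D = (m + k).choose 2) :
    UU (m + k) l k = ((m + k).choose 3 : ℕ) - (m.choose 3 : ℕ) - k * D := by
  have h1 : (l : ℤ) + D = ((m + k).choose 2 : ℕ) := by exact_mod_cast h
  have a := c2 (m + k); have b := c3 (m + k); have c := c3 m
  have d := c2 (k + 1); have e := c3 (k + 2)
  simp only [UU]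
  push_cast at a b d e ⊢
  have : (6 : ℤ) ≠ 0 := by norm_num
  apply mul_left_cancel₀ this
  linear_combination 6 * k * h1 + 3 * k * a - 3 * (m + k) * d + e - b + c

/-- points on a conic of the plane `s` whose chords meet the plane `c` in `Q`. -/
structure Con (B Q : Finset Sub) (c s : Sub) : Prop where
  rc : rk c = 3
  rs : rk s = 3
  ne : c ≠ s
  pB : IsPts B
  pQ : IsPts Q
  inB : ∀ b ∈ B, b ≤ s ∧ ¬ b ≤ c
  inQ : ∀ q ∈ Q, q ≤ c ∧ q ≤ s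
  chord : ∀ b ∈ B, ∀ b' ∈ B, b ≠ b' → ∃ q ∈ Q, q ≤ b ⊔ b'
  arc : ∀ b ∈ B, ∀ b' ∈ B, ∀ x ∈ B, b ≠ b' → x ≤ b ⊔ b' → x = b ∨ x = b'

/-- a planar set that meets `s` in `Q` and is generic as seen from `Q`. -/
structure Mk (Q : Finset Sub) (c s : Sub) (Y : Finset Sub) : Prop where
  ip : IsPts Y
  inc : ∀ y ∈ Y, y ≤ c
  tr : pts Y s = Q
  gn : ∀ q ∈ Q, ∀ y ∈ off Y s, ∀ y' ∈ off Y s, y' ≤ q ⊔ y → y' = y

/-- marked planar sets with `m` points and deficiency `D`. -/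
def MP (Q : Finset Sub) (c s : Sub) (m D : ℕ) : Prop :=
  ∃ Y, Mk Q c s Y ∧ Y.card = m ∧ (lines Y).card + D = m.choose 2

/-- the correction term of the glued configuration. -/
def phi (K t : ℕ) : ℤ := 2 - K + (K.choose 2 : ℕ) * (t + 2 * K) - (K.choose 3 : ℕ)

/-! ### outer part -/

-- deps:
def S_BON : Prop := ∀ (B T : Finset Sub) (F : Sub → Finset Sub) (y z : ℕ),
  (∀ i ∈ B, F i ⊆ T ∧ y ≤ (F i).card) → (∀ i ∈ B, ∀ j ∈ B, i ≠ j → (F i ∩ F j).card ≤ z) →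
  B.card * y ≤ T.card + B.card.choose 2 * z

-- deps: BON
def S_UNI : Prop := ∀ (X B : Finset Sub) (y : ℕ), IsPts X → B ⊆ X →
  (∀ b ∈ B, y ≤ (pth X b).card) → B.card * y ≤ (planes X).card + B.card.choose 2 * X.card

-- deps:
def S_ADD : Prop := ∀ X B : Finset Sub, IsPts X → B ⊆ X →
  (lines X).card ≤ (lines (X \ B)).card + B.card * (X \ B).card + B.card.choose 2 ∧
  (planes X).card ≤ (planes (X \ B)).card + B.card * (lines (X \ B)).card +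
    B.card.choose 2 * (X \ B).card + B.card.choose 3

-- deps: BON
def S_NEWL : Prop := ∀ X B : Finset Sub, IsPts X → B ⊆ X → (∀ b ∈ B, Lone b (X \ B)) →
  (lines (X \ B)).card + B.card * (X \ B).card ≤ (lines X).card + 2 * B.card + B.card.choose 2

-- deps:
def S_CPL : Prop := ∀ (X : Finset Sub) (c : Sub), IsPts X → rk c = 3 → Nice X (off X c)

-- deps:
def S_CLA : Prop := ∀ (Y : Finset Sub) (L M : Sub), IsPts Y → rk L = 2 → rk M = 2 → L ⊓ M = ⊥ →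
  (∀ y ∈ Y, y ≤ L ∨ y ≤ M) → (planes Y).card ≤ Y.card ∧
  (lines Y).card ≤ (pts Y L).card * (pts Y M).card + 2 ∧
  (pts Y L).card + (pts Y M).card = Y.card ∧ ((pts Y L).card = 0 ∨ (pts Y M).card = 0 →
    (lines Y).card ≤ 1) ∧ ∀ b, rk b = 1 → ¬ b ≤ L → ¬ b ≤ M → Lone b Y

-- deps: CLA
def S_CLL : Prop := ∀ (X : Finset Sub) (L M : Sub), IsPts X → rk L = 2 → rk M = 2 → L ⊓ M = ⊥ →
  Nice X (off (off X L) M)

-- deps: UNI ADD NEWL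
def S_BOUT : Prop := ∀ X B : Finset Sub, IsPts X → B ⊆ X → Nice X B →
  UU X.card (lines X).card B.card - B.card ^ 2 * X.card ≤ (planes X).card ∧
  ((planes X).card : ℤ) ≤ UU X.card (lines X).card B.card + X.card + 2 * B.card ^ 3

-- deps:
def S_PRJ1 : Prop := ∀ (X Y : Finset Sub) (b : Sub) (κ : ℕ), IsPts X → b ∈ X → Y ⊆ X → b ∉ Y →
  2 ≤ (ray b Y).card → (∀ c, rk c = 3 → b ≤ c → κ ≤ (ray b (off Y c)).card) →
  (ray b Y).card * κ ≤ 4500000000 * (pth X b).card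

-- deps:
def S_PRJ2 : Prop := ∀ (X : Finset Sub) (b L : Sub) (z : ℕ), IsPts X → b ∈ X → rk L = 2 →
  ¬ b ≤ L → z ≤ (pts X L).card → z ≤ (ray b (off X (b ⊔ L))).card →
  (pts X L).card * z ≤ 2 * (pth X b).card

-- deps:
def S_POOR : Prop := ∀ Y : Finset Sub, IsPts Y → 10 ≤ Y.card →
  (∀ g ∈ lines Y, 600 * (pts Y g).card ≤ Y.card) → ∃ G ⊆ Y, Y.card ≤ 3 * G.card ∧
  ∀ b ∈ G, ∃ Z ⊆ Y, b ∉ Z ∧ 7 * Y.card ≤ 10 * Z.card ∧ ∀ W ⊆ Z, W.card ≤ 60000 * (ray b W).card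

-- deps: POOR PRJ1
def S_GA : Prop := ∀ (X : Finset Sub) (k : ℕ), IsPts X → 2 ≤ X.card →
  (∀ g ∈ lines X, 1200 * (pts X g).card ≤ X.card) → (∀ c, rk c = 3 → k ≤ (off X c).card) →
  ∃ G ⊆ X, k ≤ 3 * G.card ∧ ∀ b ∈ G, (lines X).card ≤ 10 ^ 20 * (pth X b).card

-- deps: POOR
def S_RHO : Prop := ∀ (X : Finset Sub) (L : Sub) (k : ℕ), IsPts X → rk L = 2 →
  (∀ B, Cov X B → k ≤ B.card) → ∃ G ⊆ off X L, k ≤ 3 * G.card ∧
  ∀ b ∈ G, (off X L).card ≤ 100000 * (ray b (off X (b ⊔ L))).card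

-- deps: RHO PRJ2
def S_GB : Prop := ∀ (X : Finset Sub) (L : Sub) (k : ℕ), IsPts X → L ∈ lines X →
  X.card < 1200 * (pts X L).card → (∀ B, Cov X B → k ≤ B.card) →
  ∃ G ⊆ X, k ≤ 3 * G.card ∧ ∀ b ∈ G, (lines X).card ≤ 10 ^ 20 * (pth X b).card

-- deps: UNI GA GB
def S_LUND : Prop := ∀ X : Finset Sub, IsPts X →
  ∃ B, Cov X B ∧ B.card * (lines X).card ≤ 10 ^ 50 * (planes X).card

-- deps: LUND BOUT CPL CLL
def S_GAP : Prop := ∀ n l p j : ℕ, R3 n l p → 1 ≤ n → 10 ^ 51 * (j + 1) * n ≤ l →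
  (p : ℤ) ≤ UU n l j + n + 2 * j ^ 3 ∨ UU n l (j + 1) - (j + 1) ^ 2 * n ≤ p

/-! ### inner part -/

-- deps:
def S_CON : Prop := ∀ K t : ℕ, 2 * K ≤ t → ∃ B Q c s, Con B Q c s ∧ B.card = K ∧ Q.card = t

-- deps:
def S_MPO : Prop := ∀ (Q : Finset Sub) (c s : Sub), rk c = 3 → rk s = 3 → c ≠ s → IsPts Q →
  (∀ q ∈ Q, q ≤ c ∧ q ≤ s) → 2 ≤ Q.card → MP Q c s Q.card (Q.card.choose 2 - 1) ∧
  ∀ m D, MP Q c s m D → MP Q c s (m + 1) D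

-- deps:
def S_MPL : Prop := ∀ (Q : Finset Sub) (c s : Sub), rk c = 3 → rk s = 3 → c ≠ s →
  2 ≤ Q.card → ∀ m D t, 2 ≤ t → MP Q c s m D → MP Q c s (m + t) (D + (t.choose 2 - 1))

-- deps:
def S_PLB : Prop := ∀ P : ℕ → ℕ → Prop, (∀ m D, P m D → P (m + 1) D) →
  (∀ m D t, 2 ≤ t → P m D → P (m + t) (D + (t.choose 2 - 1))) → ∀ r x a m D : ℕ, 4 ≤ r →
  36 * Nat.sqrt (2 * r) + 400 ≤ x ^ 2 → Nat.sqrt (2 * r) + x ≤ a → P m D → P (m + a) (D + r)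

-- deps:
def S_FIB : Prop := ∀ (B : Finset Sub) (f : Sub → Sub),
  (∀ a ∈ B, ∀ b ∈ B, ∀ x ∈ B, a ≠ b → f a = f b → f x = f a → x = a ∨ x = b) →
  2 * (B.image f).card + (B.offDiag.filter fun q => f q.1 = f q.2).card = 2 * B.card

-- deps: FIB
def S_GLL : Prop := ∀ (B Q Y : Finset Sub) (c s : Sub), Con B Q c s → Mk Q c s Y →
  (lines (B ∪ Y)).card + B.card.choose 2 = (lines Y).card + B.card * Y.card

-- deps: FIB
def S_GLP : Prop := ∀ (B Q Y : Finset Sub) (c s : Sub), Con B Q c s → Mk Q c s Y → 1 ≤ B.card →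
  2 ≤ Q.card → Q.card < Y.card →
  (planes (B ∪ Y)).card + B.card.choose 2 * (off Y s).card + B.card = 2 + B.card * (lines Y).card

-- deps: CON MPO MPL PLB GLL GLP
def S_GLUE : Prop := ∀ K t r x m : ℕ, 1 ≤ K → 2 * K ≤ t → 4 ≤ r →
  36 * Nat.sqrt (2 * r) + 400 ≤ x ^ 2 → t + Nat.sqrt (2 * r) + x ≤ m →
  St3 (m + K) (t.choose 2 - 1 + r + K * (K - 1))
    (m * ((t.choose 2 - 1 + r : ℕ) : ℤ) - (m.choose 3 : ℕ) + phi K t)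

-- deps:
def S_LB : Prop := ∀ (n D t : ℕ) (E : ℤ), 2 ≤ t → St3 n D E →
  St3 (n + t) (D + (t.choose 2 - 1)) (E + t * ((t.choose 2 : ℕ) - 1) - (t.choose 3 : ℕ))

-- deps: LB PLB
def S_MED : Prop := ∀ (n D r x a : ℕ) (E : ℤ), 4 ≤ r → 36 * Nat.sqrt (2 * r) + 400 ≤ x ^ 2 →
  Nat.sqrt (2 * r) + x ≤ a → St3 n D E → ∃ E', E ≤ E' ∧ E' ≤ E + a ^ 3 ∧ St3 (n + a) (D + r) E'

-- deps:
def S_PKB : Prop := ∀ (m K : ℕ) (A : ℤ), 1 ≤ K → 4 * m + 35 ≤ A →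
  A ≤ m * (K ^ 2 - K) - 2 * K ^ 3 → ∃ J r : ℕ, 1 ≤ J ∧ J ≤ K ∧ 4 ≤ r ∧ r ≤ 2 * K + 4 ∧
    36 ≤ A - m * (J * (J - 1) + r) + phi J (2 * K + 2) ∧
    A - m * (J * (J - 1) + r) + phi J (2 * K + 2) ≤ 36 + m

-- deps:
def S_NUM : Prop := ∀ n l D k K u : ℕ, l + D = n.choose 2 → 1 ≤ n → K + 101 * u ≤ k →
  2 * n ≤ u ^ 3 → 256 * K + 6000 ≤ u ^ 2 → (n : ℝ) * (3 * k + 6 * Real.sqrt n) ≤ l →
  (∃ x, 36 * Nat.sqrt (2 * D) + 400 ≤ x ^ 2 ∧ 2 * K + 2 + Nat.sqrt (2 * D) + x + k ≤ n) ∧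
  (∀ r, r ≤ 2 * K + 4 → 2 * Nat.sqrt (2 * r) + 20 ≤ u / 2) ∧ 36 + n + (u / 2) ^ 3 ≤ u ^ 3

-- deps: GLUE MED PKB NUM
def S_INB : Prop := ∀ n l p D k K u : ℕ, l + D = n.choose 2 → 1 ≤ K → K + 101 * u ≤ k →
  2 * n ≤ u ^ 3 → 256 * K + 6000 ≤ u ^ 2 → 3 * (K + 2) ^ 2 ≤ D →
  (n : ℝ) * (3 * k + 6 * Real.sqrt n) ≤ l →
  UU n l k - (n - k) * (K ^ 2 - K) + 2 * K ^ 3 ≤ p → (p : ℤ) ≤ UU n l k - 5 * n → R3 n l p

-- deps:
def S_CNUM : Prop := ∀ n l p u : ℕ, l ≤ n.choose 2 → 1 ≤ n → 10 ^ 20 * n ^ 3 ≤ l ^ 2 →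
  2 * n ≤ u ^ 3 → (l : ℝ) * (Real.sqrt (l / n) + 102 * u) ≤ p → p ^ 3 < 10 ^ 9 * l ^ 4 →
  ∃ K v k : ℕ, 1 ≤ K ∧ 2 * n ≤ v ^ 3 ∧ 256 * K + 6000 ≤ v ^ 2 ∧ 3 * (K + 2) ^ 2 ≤ 2 * n ∧
    (n : ℝ) * (3 * k + 6 * Real.sqrt n) ≤ l ∧ (K + 101 * v) * l ≤ p ∧
    (p : ℤ) ≤ UU n l k - 5 * n ∧ (l : ℤ) + 5 * n + 2 * K ^ 3 ≤ (n - k) * (K ^ 2 - K)

-- deps: INB CNUM
def S_CONT : Prop := ∀ n l p D u : ℕ, l + D = n.choose 2 → 1 ≤ n → 10 ^ 20 * n ^ 3 ≤ l ^ 2 →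
  2 * n ≤ D → 2 * n ≤ u ^ 3 → (l : ℝ) * (Real.sqrt (l / n) + 102 * u) ≤ p →
  (p : ℝ) + 2000 * (D + 1) ≤ FF n D → R3 n l p

end Pool.Agent.P.MP_390d44_co.Fb
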