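import Pool.Agent.P.MP_390d44_co.Aff

/-! Joint counts of lines and planes: definitions and the list of steps. -/

namespace Pool.Agent.P.MP_390d44_co.Fb

open Finset Pool.Agent.P.MP_390d44_co

/-- `n` points, `C(n,2) - D` lines, `C(n,3) - n D + E` planes. -/
def St3 (n D : ℕ) (E : ℤ) : Prop :=
  ∃ X : Finset Sub, IsPts X ∧ X.card = n ∧ (lines X).card + D = n.choose 2 ∧
    ((planes X).card : ℤ) + n * D = n.choose 3 + E

/-- `m` points of a plane with `C(m,2) - D` lines. -/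
def PL (m D : ℕ) : Prop :=
  ∃ (X : Finset Sub) (c : Sub), rk c = 3 ∧ IsPts X ∧ (∀ x ∈ X, x ≤ c) ∧ X.card = m ∧
    (lines X).card + D = m.choose 2

/-- projective realisability. -/
def R3 (n l p : ℕ) : Prop :=
  ∃ X : Finset Sub, IsPts X ∧ X.card = n ∧ (lines X).card = l ∧ (planes X).card = p

def dLines (X : Finset E3) : Set (AffineSubspace ℝ E3) :=
  {L | Module.finrank ℝ L.direction = 1 ∧ ∃ a ∈ X, ∃ b ∈ X, a ≠ b ∧ a ∈ L ∧ b ∈ L}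

noncomputable def FF (n D : ℕ) : ℝ :=
  (n.choose 3 : ℝ) - n * D + 2 * D * Real.sqrt (2 * D) / 3

-- deps:
def S_GEN : Prop := ∀ (n D : ℕ) (E : ℤ), St3 n D E → St3 (n + 1) D E

-- deps:
def S_BLK : Prop := ∀ (n D M : ℕ) (E : ℤ), 3 ≤ M → St3 n D E →
  St3 (n + M) D (E - ((M.choose 3 : ℤ) - 1))

-- deps: GEN BLK
def S_REP : Prop := ∀ u T : ℕ, 36 ≤ T → T ≤ u ^ 3 → ∀ (n D : ℕ) (E : ℤ), St3 n D E →
  St3 (n + 100 * u) D (E - T)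

-- deps:
def S_PLO : Prop := PL 0 0 ∧ ∀ m D : ℕ, PL m D → PL (m + 1) D

-- deps:
def S_ONL : Prop := ∀ (X : Finset Sub) (x g : Sub), IsPts X → rk x = 1 → x ∉ X → g ∈ lines X →
  x ≤ g → (∀ l ∈ lines X, x ≤ l → l = g) →
  (lines (insert x X)).card + (pts X g).card = (lines X).card + X.card

-- deps: ONL
def S_PLL : Prop := ∀ m D t : ℕ, 2 ≤ t → PL m D → PL (m + t) (D + (t.choose 2 - 1))

-- deps: PLO PLL
def S_PLA : Prop := ∀ D : ℕ, D ≠ 1 → D ≠ 3 → ∃ w : ℕ, 3 ≤ w ∧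
  w ^ 2 ≤ 36 * Nat.sqrt (2 * D) + 400 ∧ ∀ m : ℕ, Nat.sqrt (2 * D) + w ≤ m + 1 → PL m D

-- deps:
def S_BASE : Prop := ∀ m D : ℕ, 2 ≤ m → PL m D →
  St3 (m + 1) D (1 + ((m + 1 : ℕ) : ℤ) * D - ((m + 1).choose 3 : ℕ))

-- deps:
def S_KEY : Prop := ∀ D m w : ℕ, w ^ 2 ≤ 36 * Nat.sqrt (2 * D) + 400 →
  Real.sqrt (2 * D) ≤ m → (m : ℝ) ≤ Real.sqrt (2 * D) + w →
  2 * D * Real.sqrt (2 * D) / 3 - 1600 * (D + 1) ≤ (m : ℝ) * D - (m.choose 3 : ℕ)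

-- deps: KEY
def S_PICK : Prop := ∀ n l p D w : ℕ, l + D = n.choose 2 → 3 ≤ w →
  w ^ 2 ≤ 36 * Nat.sqrt (2 * D) + 400 → 10 ^ 9 * l ^ 4 ≤ p ^ 3 →
  (p : ℝ) + 2000 * (D + 1) ≤ FF n D →
  ∃ m T u : ℕ, Nat.sqrt (2 * D) + w ≤ m ∧ m + 100 * u ≤ n ∧ 36 ≤ T ∧ T ≤ u ^ 3 ∧
    p + T + m.choose 3 + n * D = 1 + n.choose 3 + m * D

-- deps: GEN REP PLA BASE PICK
def S_INN : Prop := ∀ n l p D : ℕ, l + D = n.choose 2 → D ≠ 1 → D ≠ 3 →
  10 ^ 9 * l ^ 4 ≤ p ^ 3 → (p : ℝ) + 2000 * (D + 1) ≤ FF n D → R3 n l p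

-- deps:
def S_DEL : Prop := ∀ (X : Finset Sub) (x : Sub), IsPts X → rk x = 1 → x ∉ X →
  ∃ o q : ℕ, o ≤ X.card ∧ q ≤ o.choose 2 ∧ q ≤ (lines X).card ∧
    (lines X).card + o ≤ (lines (insert x X)).card ∧
    (planes (insert x X)).card ≤ (planes X).card + q

-- deps: DEL
def S_KK : Prop := ∀ X : Finset Sub, IsPts X →
  36 * (planes X).card ^ 2 ≤ (2 * (lines X).card) ^ 3

-- deps: DEL
def S_CTH : Prop := ∀ X : Finset Sub, IsPts X → (planes X).card ≤ X.card.choose 3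

-- deps:
def S_DD : Prop := ∀ X : Finset Sub, IsPts X →
  ∃ D : ℕ, (lines X).card + D = X.card.choose 2 ∧ D ≠ 1 ∧ D ≠ 3

-- deps:
def S_LL : Prop := ∀ (X : Finset Sub) (L : Sub), IsPts X → L ∈ lines X →
  1 + 2 * (skew (off X L) L).card + (pts X L).card * (off X L).card
    ≤ (lines X).card + (off X L).card.choose 2

-- deps: LL CTH
def S_LONG : Prop := ∀ (X : Finset Sub) (L : Sub) (D : ℕ), IsPts X → L ∈ lines X →
  2 * (off X L).card ≤ (pts X L).card → (lines X).card + D = X.card.choose 2 →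
  (planes X).card + (pts X L).card.choose 3 + (off X L).card * D ≤ X.card.choose 3

-- deps: LONG
def S_SP : Prop := ∀ n l p D : ℕ, R3 n l p → l + D = n.choose 2 → 2 * 10 ^ 10 * l ≤ n ^ 2 →
  (p : ℝ) ≤ FF n D + 2 * D

-- deps: LONG DD
def S_MXU : Prop := ∀ n k l p : ℕ, 1 ≤ k → 135 * 10 ^ 8 * k ≤ n → R3 n l p →
  l ≤ 1 + k * (n - k) + k.choose 2 → p ≤ k + (n - k) * k.choose 2 + k.choose 3

-- deps:
def S_COL : Prop := ∀ a : ℕ, 2 ≤ a → R3 a 1 0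

-- deps: GEN COL
def S_MXL : Prop := ∀ a k : ℕ, 2 ≤ a →
  R3 (a + k) (1 + k * a + k.choose 2) (k + a * k.choose 2 + k.choose 3)

-- deps:
def S_AFF : Prop := ∀ n l p : ℕ,
  (∃ X : Finset E3, X.card = n ∧ (dLines X).ncard = l ∧ (dPlanes X).ncard = p) ↔ R3 n l p

end Pool.Agent.P.MP_390d44_co.Fb
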