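import Pool.Agent.P.MP_390d44_co.Fb.Iface

/-! Step BASE. -/

namespace Pool.Agent.P.MP_390d44_co.Fb

open Finset Pool.Agent.P.MP_390d44_co

theorem p_BASE :
    S_BASE := by
  rintro m D hm ⟨X, c, hc, hX, hXc, rfl, hD⟩
  obtain ⟨a, ha, b, hb, hab⟩ := one_lt_card.1 hm
  have hg := sup_mem_lines hX ha hb hab
  obtain ⟨x, x1, x2, x3⟩ := generic (W := c) (by omega) (X ∪ lines X) fun U hU => by
    refine not_le_of_rk ?_
    rcases mem_union.1 hU with h | h
    · rw [hX U h]; omega
    · rw [rk_line h]; omega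
  have h : Av x X := ⟨x1, fun e => x3 x (mem_union_left _ e) le_rfl,
    fun l hl => x3 l (mem_union_right _ hl)⟩
  have h1 := planes_le_one (X := insert x X) hc fun y hy => by
    rcases mem_insert.1 hy with rfl | hy
    · exact x2
    · exact hXc y hy
  have h2 := card_pos.2 ⟨_, ins_plane hX h hg⟩
  refine ⟨insert x X, hX.ins x1, card_insert_of_notMem h.nm, ?_, ?_⟩
  · rw [card_lines_ins hX h, ch2]; omega
  · rw [le_antisymm h1 h2]; push_cast; ring

end Pool.Agent.P.MP_390d44_co.Fb
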