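import Pool.Agent.P.MP_390d44_co.Fb.Iface

/-! Step BLK. -/

namespace Pool.Agent.P.MP_390d44_co.Fb

open Finset Pool.Agent.P.MP_390d44_co

namespace BLKc

lemma exists_plane {X : Finset Sub} (hX : IsPts X) : ∃ c : Sub, rk c = 3 ∧ ∀ x ∈ X, ¬ x ≤ c := by
  obtain ⟨f, -, hf⟩ := choose_fn ⊥ (insert ⊤ X) fun W hW => by
    rcases mem_insert.1 hW with rfl | hW
    · exact not_le_of_rk (by rw [rk_bot, rk_top]; omega)
    · exact not_le_of_rk (by rw [rk_bot, hX W hW]; omega)
  have h2 := rk_inf_ker ⊤ f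
  have h3 := rk_lt (le_top : LinearMap.ker f ≤ ⊤) (hf _ (mem_insert_self _ _))
  rw [top_inf_eq, rk_top] at h2
  rw [rk_top] at h3
  exact ⟨_, by omega, fun x hx => hf x (mem_insert_of_mem hx)⟩

lemma main {n D : ℕ} {E : ℤ} (h : St3 n D E) : ∃ c : Sub, rk c = 3 ∧ ∀ j : ℕ, ∃ X : Finset Sub,
    IsPts X ∧ X.card = n + j ∧ (lines X).card + D = (n + j).choose 2 ∧ (pts X c).card = j ∧
    (lns X c).card = j.choose 2 ∧ (3 ≤ j → c ∈ planes X) ∧
    ((planes X).card : ℤ) + (n + j : ℕ) * D =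
      (n + j).choose 3 + (E - ((j.choose 3 : ℤ) - if 3 ≤ j then 1 else 0)) := by
  obtain ⟨X, hX, h1, h2, h3⟩ := h
  obtain ⟨c, hc, hoff⟩ := exists_plane hX
  refine ⟨c, hc, fun j => ?_⟩
  induction j with
  | zero =>
    have e : pts X c = ∅ := filter_eq_empty_iff.2 hoff
    refine ⟨X, hX, h1, h2, by rw [e]; rfl, ?_, by omega, by simpa using h3⟩
    rw [Nat.choose_zero_succ, card_eq_zero]
    refine eq_empty_of_forall_notMem fun l hl => ?_
    obtain ⟨a, ha, a1, -⟩ := exists_ne hX (mem_lns.1 hl).1 ⊥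
    exact hoff a ha (a1.trans (mem_lns.1 hl).2)
  | succ j ih =>
    obtain ⟨Y, hY, a1, a2, a3, a4, a5, a6⟩ := ih
    obtain ⟨x, xc, hx, hp⟩ := gen3 hY hc.ge
    have b1 := card_lines_ins hY hx
    have b2 := card_lns_ins hY hx xc
    have b3 := card_planes_ins hY hx
    have b4 : ∑ p ∈ (planes Y).filter (x ≤ ·), (lns Y p).card =
        if 3 ≤ j then j.choose 2 else 0 := by
      have e : ∀ p ∈ (planes Y).filter (x ≤ ·), p = c := fun p h =>
        (eq_of_rk (hp p (mem_filter.1 h).1 (mem_filter.1 h).2)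
          (by rw [rk_plane (mem_filter.1 h).1, hc])).symm
      split_ifs with h
      · rw [eq_singleton_iff_unique_mem.2 ⟨mem_filter.2 ⟨a5 h, xc⟩, e⟩, sum_singleton, a4]
      · refine sum_eq_zero fun p hp' => absurd ?_ h
        rw [← a3, ← e p hp']
        exact three_le_pts hY (mem_filter.1 hp').1
    refine ⟨insert x Y, hY.ins hx.pt, by rw [card_insert_of_notMem hx.nm, a1, add_assoc], ?_, ?_,
      by rw [b2, a3, a4, ch2], fun h => ?_, ?_⟩
    · rw [← add_assoc, ch2, b1, a1]; omega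
    · rw [pts_ins_of_le xc, card_insert_of_notMem fun e => hx.nm (mem_pts.1 e).1, a3]
    · obtain ⟨g, hg⟩ : (lns Y c).Nonempty := by
        rw [← card_pos, a4]; exact Nat.choose_pos (by omega)
      have g1 := (mem_lns.1 hg).1
      rw [← plane_eq hc hx.pt (rk_line g1) (hx.nl g g1) xc (mem_lns.1 hg).2]
      exact ins_plane hY hx g1
    · rw [b4] at b3
      rw [← add_assoc, ch3, ch3, ← a2]
      have b5 : ((planes (insert x Y)).card : ℤ) + (if 3 ≤ j then j.choose 2 else 0 : ℕ) =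
        (planes Y).card + (lines Y).card := by exact_mod_cast b3
      push_cast at a6 b5 ⊢
      rcases Nat.lt_or_ge j 3 with h | h
      · rw [if_neg (by omega)] at a6 b5
        interval_cases j <;> simp at a6 b5 ⊢ <;> linarith
      · rw [if_pos h] at a6 b5
        rw [if_pos (by omega)]
        linarith

end BLKc

theorem p_BLK :
    S_BLK := by
  intro n D M E hM h
  obtain ⟨c, -, h⟩ := BLKc.main h
  obtain ⟨X, hX, a1, a2, -, -, -, a6⟩ := h M
  rw [if_pos hM] at a6
  exact ⟨X, hX, a1, a2, a6⟩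

end Pool.Agent.P.MP_390d44_co.Fb
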