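import Pool.Agent.P.MP_390d44_co.Fb.Iface

/-! Step COL. -/

namespace Pool.Agent.P.MP_390d44_co.Fb

open Finset Pool.Agent.P.MP_390d44_co

namespace COLc

theorem on {W : Sub} (hW : 2 ≤ rk W) (a : ℕ) :
    ∃ X : Finset Sub, IsPts X ∧ X.card = a ∧ ∀ x ∈ X, x ≤ W := by
  induction a with
  | zero => exact ⟨∅, by simp [IsPts], rfl, by simp⟩
  | succ a ih =>
    obtain ⟨X, h1, h2, h3⟩ := ih
    obtain ⟨x, e1, e2, e3⟩ := generic (W := W) (by omega) X
      fun U hU => not_le_of_rk (by rw [h1 U hU]; omega)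
    exact ⟨insert x X, h1.ins e1, by rw [card_insert_of_notMem fun h => e3 x h le_rfl, h2],
      forall_mem_insert _ _ _ |>.2 ⟨e2, h3⟩⟩

end COLc

theorem p_COL :
    S_COL := by
  intro a ha
  obtain ⟨Y, y1, y2, -⟩ := COLc.on (W := ⊤) (by rw [rk_top]; omega) 2
  obtain ⟨x, hx, y, hy, e⟩ := one_lt_card.1 (y2 ▸ one_lt_two : 1 < Y.card)
  have hL := rk_pp (y1 x hx) (y1 y hy) e
  obtain ⟨X, h1, h2, h3⟩ := COLc.on hL.ge a
  refine ⟨X, h1, h2, card_eq_one.2 ⟨x ⊔ y, eq_singleton_iff_unique_mem.2 ⟨?_, fun l hl => ?_⟩⟩,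
    card_eq_zero.2 (eq_empty_of_forall_notMem fun p hp => ?_)⟩
  · exact mem_lines_of_card h1 hL (by rw [pts, filter_true_of_mem h3, h2]; exact ha)
  · exact eq_of_rk (line_le_of_pts hl fun z hz _ => h3 z hz) (by rw [hL, rk_line hl])
  · obtain ⟨z, hz, -, h⟩ := exists_off hp hL.le
    exact h (h3 z hz)

end Pool.Agent.P.MP_390d44_co.Fb
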