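import Pool.Agent.P.MP_390d44_co.Fb.Iface

/-! Step CTH. -/

namespace Pool.Agent.P.MP_390d44_co.Fb

open Finset Pool.Agent.P.MP_390d44_co

theorem p_CTH (hDEL : S_DEL) :
    S_CTH := by
  intro X
  induction X using Finset.induction_on with
  | empty => intro _; simp [planes, lines]
  | insert x X hx ih =>
    intro h
    have hX : IsPts X := h.mono (subset_insert _ _)
    obtain ⟨o, q, h1, h2, -, -, h5⟩ := hDEL X x hX (h x (mem_insert_self _ _)) hx
    have h6 := ih hX
    have h7 : o.choose 2 ≤ X.card.choose 2 := Nat.choose_le_choose 2 h1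
    have h8 : (X.card + 1).choose 3 = X.card.choose 2 + X.card.choose 3 :=
      Nat.choose_succ_succ' X.card 2
    rw [card_insert_of_notMem hx, h8]
    omega

end Pool.Agent.P.MP_390d44_co.Fb
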