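import Pool.Agent.P.MP_390d44_co.Fb.Iface

/-! Step DD. -/

namespace Pool.Agent.P.MP_390d44_co.Fb

open Finset Pool.Agent.P.MP_390d44_co

namespace DDc

lemma term (t : ℕ) (ht : 2 ≤ t) : t.choose 2 - 1 ≠ 1 ∧ t.choose 2 - 1 ≠ 3 := by
  by_cases h4 : 4 ≤ t
  · have h := Nat.choose_le_choose 2 h4
    have e : Nat.choose 4 2 = 6 := by decide
    omega
  · have h : t = 2 ∨ t = 3 := by omega
    rcases h with rfl | rfl
    · decide
    · decide

end DDc

theorem p_DD :
    S_DD := by
  intro X hX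
  refine ⟨∑ l ∈ lines X, ((pts X l).card.choose 2 - 1), ?_, ?_⟩
  · rw [← pairs_choose hX, card_eq_sum_ones, ← sum_add_distrib]
    refine sum_congr rfl fun l hl => ?_
    have := one_le_choose hX hl
    omega
  · refine Finset.sum_induction (fun l => (pts X l).card.choose 2 - 1)
      (fun x => x ≠ 1 ∧ x ≠ 3) (fun a b ha hb => ?_) (by decide)
      (fun l hl => DDc.term _ (two_le_pts hX hl))
    obtain ⟨h1, h2⟩ := ha
    obtain ⟨h3, h4⟩ := hb
    constructor <;> omega

end Pool.Agent.P.MP_390d44_co.Fb
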