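import Pool.Agent.P.MP_390d44_co.Fb.Iface

/-! Step DEL. -/

namespace Pool.Agent.P.MP_390d44_co.Fb

open Finset Pool.Agent.P.MP_390d44_co

namespace DELc

variable {X : Finset Sub} {x : Sub}

lemma pl (hX : IsPts X) (hx : rk x = 1) (hn : x ∉ X) : planes (insert x X) ⊆
    planes X ∪ (lines (X.filter fun u => x ⊔ u ∉ lines X)).image (x ⊔ ·) := fun p hp => by
  refine mem_union.2 (or_iff_not_imp_left.2 fun h => ?_)
  have e : x ≤ p := by_contra fun e => h (plane_restrict hX (hX.ins hx) hp (ins_of_not_le e))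
  have r := rk_plane hp
  obtain ⟨a, ha, a1, a2⟩ := exists_off (l := x) hp (by omega)
  have ha := (mem_insert.1 ha).resolve_left fun e => a2 e.le
  have xa : x ≠ a := fun e => hn (e ▸ ha)
  obtain ⟨b, hb, b1, b2⟩ := exists_off hp (rk_pp hx (hX a ha) xa).le
  have hb := (mem_insert.1 hb).resolve_left fun e => b2 (e ▸ le_sup_left)
  have ab : a ≠ b := fun e => b2 (e ▸ le_sup_right)
  have r2 := rk_pp (hX a ha) (hX b hb) ab
  refine mem_image.2 ⟨a ⊔ b, sup_mem_lines (hX.mono (filter_subset _ _))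
    (mem_filter.2 ⟨ha, fun k => h ((mem_planes hX).2 ⟨r, b, hb, _, k, b2, b1, sup_le e a1⟩)⟩)
    (mem_filter.2 ⟨hb, fun k => h ((mem_planes hX).2 ⟨r, a, ha, _, k, fun t => b2 ?_, a1,
      sup_le e b1⟩)⟩) ab, plane_eq r hx r2 (fun t => b2 ?_) e (sup_le a1 b1)⟩
  · rw [line_eq (rk_line k) hx (hX a ha) xa le_sup_left t]
    exact le_sup_right
  · rw [line_eq r2 hx (hX a ha) xa t le_sup_left]
    exact le_sup_right

end DELc

theorem p_DEL :
    S_DEL := by
  intro X x hX hx hn
  have s := filter_subset (fun u => x ⊔ u ∉ lines X) X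
  have ne : ∀ u ∈ X, x ≠ u := fun u hu e => hn (e ▸ hu)
  refine ⟨_, _, card_le_card s, ?_, card_le_card (lines_mono s), ?_,
    (card_le_card (DELc.pl hX hx hn)).trans ((card_union_le _ _).trans
      (Nat.add_le_add_left card_image_le _))⟩
  · rw [← pairs_choose (hX.mono s)]
    simpa using card_nsmul_le_sum _ (fun l => (pts _ l).card.choose 2) 1
      fun l hl => one_le_choose (hX.mono s) hl
  · rw [← card_image_of_injOn (s := X.filter fun u => x ⊔ u ∉ lines X) (f := (x ⊔ ·)),
      ← card_union_of_disjoint]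
    · refine card_le_card (union_subset (lines_mono (subset_insert _ _)) fun l hl => ?_)
      obtain ⟨u, hu, rfl⟩ := mem_image.1 hl
      exact sup_mem_lines (hX.ins hx) (mem_insert_self _ _) (mem_insert_of_mem (s hu))
        (ne u (s hu))
    · refine disjoint_left.2 fun l h1 h2 => ?_
      obtain ⟨u, hu, rfl⟩ := mem_image.1 h2
      exact (mem_filter.1 hu).2 h1
    · intro u hu v hv e
      have e : x ⊔ u = x ⊔ v := e
      obtain ⟨u1, u2⟩ := mem_filter.1 (mem_coe.1 hu)
      have v1 := s (mem_coe.1 hv)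
      refine by_contra fun k => u2 ?_
      rw [← line_eq (rk_pp hx (hX u u1) (ne u u1)) (hX u u1) (hX v v1) k le_sup_right
        (e ▸ le_sup_right)]
      exact sup_mem_lines hX u1 v1 k

end Pool.Agent.P.MP_390d44_co.Fb
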