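import Pool.Agent.P.MP_390d44_co.Fb.Iface

/-! Step KEY. -/

namespace Pool.Agent.P.MP_390d44_co.Fb

open Finset Pool.Agent.P.MP_390d44_co

namespace KEYc

end KEYc

theorem p_KEY :
    S_KEY := by
  intro D m w hw h1 h2
  have hD : (0 : ℝ) ≤ 2 * D := by positivity
  have hq : ((Nat.sqrt (2 * D) : ℕ) : ℝ) ≤ Real.sqrt (2 * D) := by
    have := Real.nat_sqrt_le_real_sqrt (a := 2 * D)
    push_cast at this
    exact this
  have hw' : (w : ℝ) ^ 2 ≤ 36 * ((Nat.sqrt (2 * D) : ℕ) : ℝ) + 400 := by exact_mod_cast hw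
  have hc : ((m.choose 3 : ℕ) : ℝ) ≤ (m : ℝ) ^ 3 / 6 := by
    have := Nat.choose_le_pow_div (α := ℝ) 3 m
    simpa [Nat.factorial] using this
  have hs0 := Real.sqrt_nonneg (2 * (D : ℝ))
  have hs := Real.sq_sqrt hD
  generalize Real.sqrt (2 * (D : ℝ)) = s at *
  obtain ⟨d, hd⟩ : ∃ d : ℝ, (m : ℝ) = s + d := ⟨m - s, by ring⟩
  have hd0 : 0 ≤ d := by linarith
  have hd1 : d ≤ w := by linarith
  have hd2 : d ^ 2 ≤ 36 * s + 400 := (pow_le_pow_left₀ hd0 hd1 2).trans (by linarith)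
  have hd3 : d ≤ s + 20 := abs_le_of_sq_le_sq' (by nlinarith) (by linarith) |>.2
  have h3 : d ^ 2 * (s / 2 + d / 6) ≤ (36 * s + 400) * (2 * s / 3 + 10 / 3) :=
    mul_le_mul hd2 (by linarith) (by positivity) (by positivity)
  have hDs : (D : ℝ) = s ^ 2 / 2 := by linarith
  rw [hd] at hc
  rw [hd, hDs]
  nlinarith [sq_nonneg (s - 1)]

end Pool.Agent.P.MP_390d44_co.Fb
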