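import Pool.Agent.P.MP_390d44_co.Fb.Iface

/-! Step KK. -/

namespace Pool.Agent.P.MP_390d44_co.Fb

open Finset Pool.Agent.P.MP_390d44_co

namespace KKc

lemma step (a b o q : ℝ) (ha : 0 ≤ a) (hb : 0 ≤ b) (ho : 0 ≤ o) (h1 : a ^ 2 + 2 * o ≤ b ^ 2)
    (h2 : 2 * q ≤ o ^ 2) (h3 : 2 * q ≤ a ^ 2) : a ^ 3 + 6 * q ≤ b ^ 3 := by
  have h4 : 2 * q ≤ o * a := by
    rcases le_total o a with h | h
    · nlinarith [mul_le_mul_of_nonneg_left h ho]
    · nlinarith [mul_le_mul_of_nonneg_left h ha]
  have h5 : 0 ≤ (b - a) ^ 2 * (b + a / 2) := by positivity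
  nlinarith [mul_le_mul_of_nonneg_left h1 ha]

lemma real_form (hDEL : S_DEL) (X : Finset Sub) : IsPts X →
    6 * ((planes X).card : ℝ) ≤ Real.sqrt (2 * (lines X).card) ^ 3 := by
  classical
  induction X using Finset.induction_on with
  | empty =>
    intro _
    have : planes (∅ : Finset Sub) = ∅ := by
      ext p; simp [mem_planes']
    rw [this, card_empty, Nat.cast_zero, mul_zero]
    positivity
  | insert x X hx ih =>
    intro hX
    have hX' : IsPts X := hX.mono (subset_insert _ _)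
    obtain ⟨o, q, -, h2, h3, h4, h5⟩ := hDEL X x hX' (hX x (mem_insert_self _ _)) hx
    have ih' := ih hX'
    have e1 : Real.sqrt (2 * (lines X).card) ^ 2 = 2 * (lines X).card :=
      Real.sq_sqrt (by positivity)
    have e2 : Real.sqrt (2 * (lines (insert x X)).card) ^ 2 = 2 * (lines (insert x X)).card :=
      Real.sq_sqrt (by positivity)
    have h2' : 2 * q ≤ o ^ 2 := by
      have h6 : o.choose 2 * 2 ≤ o * (o - 1) := by
        rw [Nat.choose_two_right]; exact Nat.div_mul_le_self _ _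
      have h7 : o * (o - 1) ≤ o * o := Nat.mul_le_mul_left _ (Nat.sub_le _ _)
      nlinarith
    have h3' : (q : ℝ) ≤ (lines X).card := by exact_mod_cast h3
    have h4' : ((lines X).card : ℝ) + o ≤ (lines (insert x X)).card := by exact_mod_cast h4
    have h5' : ((planes (insert x X)).card : ℝ) ≤ (planes X).card + q := by exact_mod_cast h5
    have := step (Real.sqrt (2 * (lines X).card)) (Real.sqrt (2 * (lines (insert x X)).card))
      o q (Real.sqrt_nonneg _) (Real.sqrt_nonneg _) (Nat.cast_nonneg _) (by linarith)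
      (by exact_mod_cast h2') (by linarith)
    linarith

end KKc

theorem p_KK (hDEL : S_DEL) :
    S_KK := by
  intro X hX
  have h := KKc.real_form hDEL X hX
  have e1 : Real.sqrt (2 * (lines X).card) ^ 2 = 2 * (lines X).card :=
    Real.sq_sqrt (by positivity)
  have h2 : (6 * ((planes X).card : ℝ)) ^ 2 ≤ (Real.sqrt (2 * (lines X).card) ^ 3) ^ 2 :=
    pow_le_pow_left₀ (by positivity) h 2
  rw [← pow_mul, show 3 * 2 = 2 * 3 from rfl, pow_mul, e1] at h2
  have h3 : 36 * ((planes X).card : ℝ) ^ 2 ≤ (2 * (lines X).card) ^ 3 := by linarith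
  exact_mod_cast h3

end Pool.Agent.P.MP_390d44_co.Fb
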