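import Pool.Agent.P.MP_390d44_co.Fb.Iface

/-! Step LL. -/

namespace Pool.Agent.P.MP_390d44_co.Fb

open Finset Pool.Agent.P.MP_390d44_co

namespace LLc

lemma img {X Z : Finset Sub} {L : Sub} (hX : IsPts X) (hL : rk L = 2) (hZ : Z ⊆ X)
    (hoff : ∀ z ∈ Z, ¬ z ≤ L) :
    (pts X L).card * Z.card ≤ (image₂ (· ⊔ ·) (pts X L) Z).card + Z.card.choose 2 := by
  have r := fun s (hs : s ∈ Z) y (hy : y ∈ pts X L) => rk_pp (hX y (mem_pts.1 hy).1) (hX s (hZ hs))
    fun e => hoff s hs (e ▸ (mem_pts.1 hy).2)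
  have inj : ∀ s ∈ Z, ∀ y ∈ pts X L, ∀ y' ∈ pts X L, y ⊔ s = y' ⊔ s → y = y' := by
    intro s hs y hy y' hy' e
    by_contra hne
    exact hoff s hs (le_sup_right.trans (lines_eq (r s hs y hy) hL (hX y (mem_pts.1 hy).1)
      (hX y' (mem_pts.1 hy').1) hne le_sup_left (e ▸ le_sup_left) (mem_pts.1 hy).2
      (mem_pts.1 hy').2).le)
  exact img_bound (· ⊔ ·) (pts X L) Z inj fun s hs s' hs' hne y1 h1 y2 h2 y1' _ y2' _ e1 e2 =>
    inj s hs y1 h1 y2 h2 (lines_eq (r s hs y1 h1) (r s hs y2 h2) (hX s (hZ hs)) (hX s' (hZ hs'))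
      hne le_sup_right (e1 ▸ le_sup_right) le_sup_right (e2 ▸ le_sup_right))

end LLc

theorem p_LL :
    S_LL := by
  intro X L hX hL
  have r := rk_line hL
  have hoff : ∀ z ∈ off X L, ¬ z ≤ L := fun z hz => (mem_off.1 hz).2
  have hs : off X L ⊆ X := off_sub
  generalize off X L = Z at hoff hs ⊢
  have hZ := hX.mono hs
  have key : ∀ c ∈ cls Z L, ∀ w ∈ image₂ (· ⊔ ·) (pts X L) (pts Z c),
      w ∈ lines X ∧ w ⊔ L = c ∧ w ≠ L ∧ w ∉ skew Z L := fun c hc w hw => by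
    obtain ⟨y, hy, z, hz, rfl⟩ := mem_image₂.1 hw
    obtain ⟨y1, y2⟩ := mem_pts.1 hy
    obtain ⟨z1, z2⟩ := mem_pts.1 hz
    obtain ⟨c1, c2⟩ := rk_cls hZ r hoff hc
    refine ⟨sup_mem_lines hX y1 (hs z1) fun e => hoff z z1 (e ▸ y2), ?_,
      fun e => hoff z z1 (e ▸ le_sup_right),
      fun e => not_le_skew (hX y y1) y2 (mem_skew.1 e).2 le_sup_left⟩
    rw [sup_comm y, sup_assoc, sup_eq_right.2 y2, cls_eq hZ r hoff c1 c2 z1 z2]
  have h1 : insert L (skew Z L ∪ (cls Z L).biUnion fun c => image₂ (· ⊔ ·) (pts X L) (pts Z c)) ⊆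
      lines X := insert_subset hL (union_subset (fun l hl => lines_mono hs (mem_skew.1 hl).1)
    (biUnion_subset.2 fun c hc w hw => (key c hc w hw).1))
  have h2 := card_le_card h1
  rw [card_insert_of_notMem, card_union_of_disjoint, card_biUnion] at h2
  · have h3 := sum_le_sum fun c (_ : c ∈ cls Z L) =>
      LLc.img hX r (Z := pts Z c) (pts_sub.trans hs) fun z hz => hoff z (pts_sub hz)
    rw [← mul_sum, sum_cls hZ r hoff, sum_add_distrib] at h3
    have h4 := pairs_split hZ r hoff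
    have h5 := card_nsmul_le_sum (skew Z L) _ 1 fun l hl => one_le_choose hZ (mem_skew.1 hl).1
    rw [smul_eq_mul] at h5
    omega
  · exact fun c hc c' hc' e => disjoint_left.2 fun w h h' =>
      e ((key c hc w h).2.1.symm.trans (key c' hc' w h').2.1)
  · refine disjoint_right.2 fun w hw => ?_
    obtain ⟨c, hc, hw⟩ := mem_biUnion.1 hw
    exact (key c hc w hw).2.2.2
  · intro h
    rcases mem_union.1 h with h | h
    · exact ne_bot_of_rk (by omega) ((inf_idem L).symm.trans (mem_skew.1 h).2)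
    · obtain ⟨c, hc, hw⟩ := mem_biUnion.1 h
      exact (key c hc L hw).2.2.1 rfl

end Pool.Agent.P.MP_390d44_co.Fb
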