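import Pool.Agent.P.MP_390d44_co.Fb.Iface

/-! Step LONG. -/

namespace Pool.Agent.P.MP_390d44_co.Fb

open Finset Pool.Agent.P.MP_390d44_co

namespace LONGc

lemma v2 (a k : ℕ) : (a + k).choose 2 = a.choose 2 + a * k + k.choose 2 := by
  induction k with
  | zero => simp
  | succ k ih => rw [← add_assoc, ch2, ch2, ih]; ring

lemma v3 (a k : ℕ) :
    (a + k).choose 3 = a.choose 3 + a.choose 2 * k + a * k.choose 2 + k.choose 3 := by
  induction k with
  | zero => simp
  | succ k ih => rw [← add_assoc, ch3, ch3, ch2, ih, v2]; ring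

lemma ar {p k a s l D A2 K2 K3 : ℕ} (h1 : p ≤ k + a * s + K3) (h2 : 1 + 2 * s + a * k ≤ l + K2)
    (h3 : s ≤ K2) (h4 : l + D = A2 + a * k + K2) (h5 : 2 * k ≤ a) :
    p + k * D ≤ A2 * k + a * K2 + K3 := by
  obtain ⟨e, rfl⟩ := Nat.exists_eq_add_of_le h5
  obtain ⟨f, rfl⟩ := Nat.exists_eq_add_of_le h3
  have h6 : D + 1 ≤ A2 + 2 * f := by omega
  nlinarith [Nat.mul_le_mul_left k h6, Nat.zero_le (e * f)]

end LONGc

theorem p_LONG (hLL : S_LL) (hCTH : S_CTH) :
    S_LONG := by
  intro X L D hX hL h2 hD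
  have hZ := hX.mono (off_sub (X := X) (L := L))
  have F0 := long_formula hX hL
  have F1 := hLL X L hX hL
  have F2 := hCTH _ hZ
  have F3 := pairs_split hZ (rk_line hL) fun z hz => (mem_off.1 hz).2
  have F4 : (skew (off X L) L).card ≤ ∑ l ∈ skew (off X L) L, (pts (off X L) l).card.choose 2 := by
    simpa using card_nsmul_le_sum (skew (off X L) L) (fun l => (pts (off X L) l).card.choose 2) 1
      fun l hl => one_le_choose hZ (mem_skew.1 hl).1
  have F5 : (cls (off X L) L).card ≤ (off X L).card := card_image_le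
  have F6 : (pz (off X L) L).card ≤ (planes (off X L)).card := card_le_card (filter_subset _ _)
  rw [← card_pts_off X L, LONGc.v2] at hD
  rw [← card_pts_off X L, LONGc.v3]
  have := LONGc.ar (p := (planes X).card) (K3 := (off X L).card.choose 3) (by omega) F1
    (by omega) hD h2
  omega

end Pool.Agent.P.MP_390d44_co.Fb
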