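import Pool.Agent.P.MP_390d44_co.Fb.Iface

/-! Step MXL. -/

namespace Pool.Agent.P.MP_390d44_co.Fb

open Finset Pool.Agent.P.MP_390d44_co

namespace MXLc

lemma v2 (a k : ℕ) : (a + k).choose 2 = a.choose 2 + k * a + k.choose 2 := by
  induction k with
  | zero => simp
  | succ k ih => rw [← add_assoc, ch2, ch2, ih]; ring

lemma v3 (a k : ℕ) :
    (a + k).choose 3 = a.choose 3 + k * a.choose 2 + a * k.choose 2 + k.choose 3 := by
  induction k with
  | zero => simp
  | succ k ih => rw [← add_assoc, ch3, ch3, ch2, ih, v2]; ring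

end MXLc

theorem p_MXL (hGEN : S_GEN) (hCOL : S_COL) :
    S_MXL := by
  intro a k ha
  obtain ⟨D, hD⟩ : ∃ D, a.choose 2 = 1 + D := Nat.exists_eq_add_of_le (Nat.choose_pos ha)
  have h : ∀ k, St3 (a + k) D ((a : ℤ) * D - a.choose 3) := fun k => by
    induction k with
    | zero =>
      obtain ⟨X, h1, h2, h3, h4⟩ := hCOL a ha
      exact ⟨X, h1, h2, by rw [h3, add_zero, hD], by rw [h4, add_zero]; push_cast; ring⟩
    | succ k ih => exact hGEN _ _ _ ih
  obtain ⟨X, h1, h2, h3, h4⟩ := h k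
  rw [MXLc.v2, hD] at h3
  rw [MXLc.v3, hD] at h4
  refine ⟨X, h1, h2, by omega, ?_⟩
  zify
  push_cast at h4
  linear_combination h4

end Pool.Agent.P.MP_390d44_co.Fb
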