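import Pool.Agent.P.MP_390d44_co.Fb.Iface

/-! Step MXU. -/

namespace Pool.Agent.P.MP_390d44_co.Fb

open Finset Pool.Agent.P.MP_390d44_co

namespace MXUc

lemma poly (a j : ℤ) (ha : 2 ≤ a) (hj : 0 ≤ j) :
    0 ≤ (j - a) * ((j - a) ^ 2 + (3 * a - 3) * (j - a) + 8 - 3 * a) := by
  rcases lt_trichotomy j a with h | h | h
  · have h1 : 0 ≤ (a - j - 1) * j := mul_nonneg (by omega) hj
    have h2 : 0 ≤ (a - 2) * (a - j) := mul_nonneg (by omega) (by omega)
    have h3 : (j - a) ^ 2 + (3 * a - 3) * (j - a) + 8 - 3 * a ≤ 0 := by nlinarith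
    exact mul_nonneg_of_nonpos_of_nonpos (by omega) h3
  · rw [h]; simp
  · have h1 : 0 ≤ (3 * a - 3) * (j - a - 1) := mul_nonneg (by omega) (by omega)
    have h3 : 0 ≤ (j - a) ^ 2 + (3 * a - 3) * (j - a) + 8 - 3 * a := by nlinarith [sq_nonneg (j - a)]
    exact mul_nonneg (by omega) h3

lemma fin_step (a k a1 k1 l p D : ℕ) (ha : 2 ≤ a) (hn : a1 + k1 = a + k)
    (hl : l ≤ 1 + k * a + k.choose 2) (hD : l + D = (a + k).choose 2)
    (hp : p + a1.choose 3 + k1 * D ≤ (a + k).choose 3) :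
    p ≤ k + a * k.choose 2 + k.choose 3 := by
  have e1 := c2 k
  have e2 := c2 (a + k)
  have e3 := c3 k
  have e4 := c3 (a + k)
  have e5 := c3 a1
  have hp' : (p : ℤ) + (a1.choose 3 : ℕ) + k1 * D ≤ ((a + k).choose 3 : ℕ) := by exact_mod_cast hp
  have hl' : (l : ℤ) ≤ 1 + k * a + (k.choose 2 : ℕ) := by exact_mod_cast hl
  have hD' : (l : ℤ) + D = ((a + k).choose 2 : ℕ) := by exact_mod_cast hD
  have hn' : (a1 : ℤ) + k1 = a + k := by exact_mod_cast hn
  push_cast at e2 e4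
  have h1 : (a : ℤ) * (a - 1) - 2 ≤ 2 * D := by nlinarith
  have h2 : (k1 : ℤ) * ((a : ℤ) * (a - 1) - 2) ≤ k1 * (2 * D) :=
    mul_le_mul_of_nonneg_left h1 (Int.natCast_nonneg _)
  have h3 := poly a a1 (by exact_mod_cast ha) (Int.natCast_nonneg _)
  have hk1 : (k1 : ℤ) = a + k - a1 := by linarith
  have h4 : (a : ℤ) * (2 * (k.choose 2 : ℕ)) = a * (k * (k - 1)) := by rw [e1]
  have h5 : 6 * (p : ℤ) ≤ 6 * (k + a * (k.choose 2 : ℕ) + (k.choose 3 : ℕ)) := by
    rw [hk1] at h2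
    rw [hk1] at hp'
    nlinarith
  have h6 : (p : ℤ) ≤ k + a * (k.choose 2 : ℕ) + (k.choose 3 : ℕ) := by linarith
  exact_mod_cast h6

end MXUc

theorem p_MXU (hLONG : S_LONG) (hDD : S_DD) :
    S_MXU := by
  intro n k l p hk hn hR hl
  obtain ⟨X, hX, hc, hlX, hpX⟩ := hR
  obtain ⟨a, rfl⟩ : ∃ a, n = a + k := ⟨n - k, by omega⟩
  rw [Nat.add_sub_cancel] at hl ⊢
  have h2 : 2 ≤ X.card := by omega
  obtain ⟨u, hu, v, hv, huv⟩ := one_lt_card.1 h2
  obtain ⟨L, hL, hmax⟩ := exists_max_image (lines X) (fun g => (pts X g).card)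
    ⟨_, sup_mem_lines hX hu hv huv⟩
  have hs : (pts X L).card + (off X L).card = X.card := card_pts_off X L
  have hb : X.card * (off X L).card ≤ 4500000000 * (lines X).card :=
    erdos_beck hX h2 fun g hg => by have := hmax g hg; omega
  have hlk : l ≤ k * (a + k) := by
    have := two_choose k
    have h1 : k * 1 ≤ k * k := Nat.mul_le_mul_left _ hk
    rw [mul_add]
    omega
  have hk1 : (off X L).card ≤ 4500000000 * k := by
    rw [hc, hlX] at hb
    have h1 : (a + k) * (off X L).card ≤ (a + k) * (4500000000 * k) :=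
      hb.trans ((Nat.mul_le_mul_left _ hlk).trans (le_of_eq (by ring)))
    exact Nat.le_of_mul_le_mul_left h1 (by omega)
  obtain ⟨D, hD, -⟩ := hDD X hX
  have hlong := hLONG X L D hX hL (by omega) hD
  rw [hc, hpX] at hlong
  rw [hc, hlX] at hD
  exact MXUc.fin_step a k _ _ l p D (by omega) (hs.trans hc) hl hD hlong

end Pool.Agent.P.MP_390d44_co.Fb
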