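import Pool.Agent.P.MP_390d44_co.Fb.Iface

/-! Step ONL. -/

namespace Pool.Agent.P.MP_390d44_co.Fb

open Finset Pool.Agent.P.MP_390d44_co

namespace ONLc

end ONLc

theorem p_ONL :
    S_ONL := by
  intro X x g hX hx hn hg hxg hu
  have ne : ∀ a ∈ X, x ≠ a := fun a ha e => hn (e ▸ ha)
  have nl : ∀ a ∈ off X g, x ⊔ a ∉ lines X := fun a ha h =>
    (mem_off.1 ha).2 (hu _ h le_sup_left ▸ le_sup_right)
  have e : lines (insert x X) = lines X ∪ (off X g).image (x ⊔ ·) := by
    ext l
    simp only [mem_union, mem_image]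
    constructor
    · intro hl
      by_cases e : x ≤ l
      · obtain ⟨a, ha, a1, a2⟩ := exists_ne (hX.ins hx) hl x
        have ha := (mem_insert.1 ha).resolve_left a2
        by_cases h : a ≤ g
        · exact Or.inl (lines_eq (rk_line hg) (rk_line hl) hx (hX a ha) a2.symm hxg h e a1 ▸ hg)
        · exact Or.inr ⟨a, mem_off.2 ⟨ha, h⟩, line_eq (rk_line hl) hx (hX a ha) a2.symm e a1⟩
      · exact Or.inl (line_restrict hX (hX.ins hx) hl (ins_of_not_le e))
    · rintro (hl | ⟨a, ha, rfl⟩)
      · exact lines_mono (subset_insert _ _) hl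
      · exact sup_mem_lines (hX.ins hx) (mem_insert_self _ _) (mem_insert_of_mem (off_sub ha))
          (ne a (off_sub ha))
  have inj : Set.InjOn (x ⊔ ·) (off X g) := fun a ha b hb e => by_contra fun h => by
    have e : x ⊔ a = x ⊔ b := e
    have ha' : a ∈ X := off_sub ha
    have hb' : b ∈ X := off_sub hb
    exact nl a ha ((mem_lines hX).2 ⟨rk_pp hx (hX a ha') (ne a ha'), a, ha', b, hb', h,
      le_sup_right, e ▸ le_sup_right⟩)
  rw [e, card_union_of_disjoint, card_image_of_injOn inj, ← card_pts_off X g]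
  · omega
  · exact disjoint_left.2 fun l h1 h2 => by
      obtain ⟨a, ha, rfl⟩ := mem_image.1 h2
      exact nl a ha h1

end Pool.Agent.P.MP_390d44_co.Fb
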