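import Pool.Agent.P.MP_390d44_co.Fb.Iface

/-! Step PICK. -/

namespace Pool.Agent.P.MP_390d44_co.Fb

open Finset Pool.Agent.P.MP_390d44_co

namespace PICKc

lemma ch (m i : ℕ) : (m + i).choose 3 ≤ m.choose 3 + i * (m + i).choose 2 := by
  induction i with
  | zero => simp
  | succ i ih =>
    have h1 : (m + (i + 1)).choose 3 = (m + i).choose 2 + (m + i).choose 3 :=
      Nat.choose_succ_succ (m + i) 2
    have h2 : (m + i).choose 2 ≤ (m + (i + 1)).choose 2 := Nat.choose_le_choose 2 (by omega)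
    have h3 := Nat.mul_le_mul_left i h2
    rw [h1, add_mul, one_mul]
    omega

lemma fin {i l p T : ℕ} (h : 10 ^ 9 * l ^ 4 ≤ p ^ 3) (h1 : p + 35 ≤ i * l) (h2 : T ≤ 35 + l) :
    T ≤ (i / 100) ^ 3 := by
  have hl : 0 < l := Nat.pos_of_ne_zero fun h0 => by simp [h0] at h1
  have h3 : 10 ^ 9 * l ≤ i ^ 3 := by
    refine Nat.le_of_mul_le_mul_right (c := l ^ 3) ?_ (pow_pos hl 3)
    calc 10 ^ 9 * l * l ^ 3 = 10 ^ 9 * l ^ 4 := by ring
      _ ≤ p ^ 3 := h
      _ ≤ (i * l) ^ 3 := Nat.pow_le_pow_left (by omega) 3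
      _ = _ := mul_pow _ _ _
  have h4 : 100 ≤ i := by
    by_contra h4
    have := Nat.pow_le_pow_left (show i ≤ 100 by omega) 3
    omega
  have h5 := Nat.pow_le_pow_left (show i ≤ 200 * (i / 100) by omega) 3
  rw [mul_pow] at h5
  omega

end PICKc

theorem p_PICK (hKEY : S_KEY) :
    S_PICK := by
  intro n l p D w h1 h2 h3 h4 h5
  have key : ∀ m : ℕ, Real.sqrt (2 * D) ≤ m → (m : ℝ) ≤ Real.sqrt (2 * D) + w →
      p + 36 + m.choose 3 + n * D ≤ 1 + n.choose 3 + m * D := fun m a b => by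
    have c := hKEY D m w h3 a b
    have d : (0 : ℝ) ≤ D := Nat.cast_nonneg D
    rw [FF] at h5
    have e : (p : ℝ) + 36 + m.choose 3 + n * D ≤ 1 + n.choose 3 + m * D := by linarith
    exact_mod_cast e
  have e1 : (Nat.sqrt (2 * D) : ℝ) ≤ Real.sqrt (2 * D) := by
    exact_mod_cast Real.nat_sqrt_le_real_sqrt (a := 2 * D)
  have e2 : Real.sqrt (2 * D) < Nat.sqrt (2 * D) + 1 := by
    exact_mod_cast Real.real_sqrt_lt_nat_sqrt_succ (a := 2 * D)
  have e3 : (3 : ℝ) ≤ w := by exact_mod_cast h2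
  have e4 : Real.sqrt (2 * D) ≤ n := by
    refine Real.sqrt_le_iff.2 ⟨Nat.cast_nonneg n, ?_⟩
    have a : n * (n - 1) ≤ n ^ 2 := by rw [sq]; exact Nat.mul_le_mul_left n (Nat.sub_le n 1)
    have b : 2 * D ≤ n ^ 2 := by rw [Nat.choose_two_right] at h1; omega
    exact_mod_cast b
  have e5 : Nat.sqrt (2 * D) + w ≤ n := by
    by_contra h
    have a : (n : ℝ) ≤ Nat.sqrt (2 * D) + w := by exact_mod_cast (not_le.1 h).le
    have := key n e4 (by linarith)
    omega
  have e6 := key (Nat.sqrt (2 * D) + w) (by push_cast; linarith) (by push_cast; linarith)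
  let Q : ℕ → Prop := fun m => p + 36 + m.choose 3 + n * D ≤ 1 + n.choose 3 + m * D
  have f1 : Q (Nat.findGreatest Q n) := Nat.findGreatest_spec e5 e6
  have f2 : Nat.sqrt (2 * D) + w ≤ Nat.findGreatest Q n := Nat.le_findGreatest e5 e6
  have f3 : Nat.findGreatest Q n ≤ n := Nat.findGreatest_le n
  have f4 : ∀ k, Nat.findGreatest Q n < k → k ≤ n → ¬ Q k := fun k => Nat.findGreatest_is_greatest
  generalize Nat.findGreatest Q n = m at f1 f2 f3 f4
  simp only [Q] at f1 f4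
  have f5 : m ≠ n := by rintro rfl; omega
  have f6 := f4 (m + 1) (by omega) (by omega)
  rw [Nat.choose_succ_succ m 2, add_mul, one_mul] at f6
  have f7 : m.choose 2 ≤ n.choose 2 := Nat.choose_le_choose 2 f3
  obtain ⟨i, rfl⟩ := Nat.exists_eq_add_of_le f3
  have f8 := PICKc.ch m i
  rw [← h1, mul_add] at f8
  rw [add_mul] at f1 f6
  obtain ⟨T, hT⟩ : ∃ T, p + T + m.choose 3 + (m * D + i * D) = 1 + (m + i).choose 3 + m * D :=
    ⟨1 + (m + i).choose 3 + m * D - (p + m.choose 3 + (m * D + i * D)), by omega⟩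
  refine ⟨m, T, i / 100, f2, by omega, by omega, PICKc.fin h4 (by omega) ?_, by rw [add_mul, hT]⟩
  simp only [Nat.succ_eq_add_one, Nat.reduceAdd] at f6
  omega

end Pool.Agent.P.MP_390d44_co.Fb
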