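import Pool.Agent.P.MP_390d44_co.Fb.Iface

/-! Step PLA. -/

namespace Pool.Agent.P.MP_390d44_co.Fb

open Finset Pool.Agent.P.MP_390d44_co

namespace PLAc

theorem pad (h : S_PLO) {m m' D : ℕ} (hm : m ≤ m') (H : PL m D) : PL m' D := by
  induction hm with
  | refl => exact H
  | step _ ih => exact h.2 _ _ ih

theorem two (h : S_PLL) {m D : ℕ} (H : PL m D) (a : ℕ) : PL (m + 3 * a) (D + 2 * a) := by
  induction a with
  | zero => exact H
  | succ a ih => exact h _ _ 3 (by omega) ih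

theorem lin (h0 : S_PLO) (h : S_PLL) {m D r : ℕ} (H : PL m D) (h1 : r ≠ 1) (h3 : r ≠ 3) :
    PL (m + 2 * r) (D + r) := by
  obtain ⟨a, rfl | rfl⟩ : ∃ a, r = 2 * a ∨ r = 5 + 2 * a := by
    rcases Nat.even_or_odd' r with ⟨a, e | e⟩
    · exact ⟨a, Or.inl e⟩
    · exact ⟨a - 2, Or.inr (by omega)⟩
  · exact pad h0 (by omega) (two h H a)
  · rw [← add_assoc]
    exact pad h0 (by omega) (two h (h m D 4 (by omega) H) a)

theorem greedy {r : ℕ} (hr : 4 ≤ r) : ∃ a c s, 1 ≤ a ∧ (a + 1).choose 2 = c + 1 ∧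
    2 * (c + 1) = a * a + a ∧ r = c + s ∧ 4 ≤ s ∧ s ≤ a + 4 := by
  induction hr with
  | refl => exact ⟨1, 0, 4, le_rfl, rfl, rfl, rfl, le_rfl, by omega⟩
  | step _ ih =>
    obtain ⟨a, c, s, h1, h2, h3, h4, h5, h6⟩ := ih
    rcases h6.lt_or_eq with h | h
    · exact ⟨a, c, s + 1, h1, h2, h3, by omega, by omega, h⟩
    · refine ⟨a + 1, c + a + 1, 4, by omega, ?_, by linarith, by omega, le_rfl, by omega⟩
      rw [Nat.choose_succ_succ' (a + 1) 1, Nat.choose_one_right, h2]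
      omega

end PLAc

open PLAc in
theorem p_PLA (hPLO : S_PLO) (hPLL : S_PLL) :
    S_PLA := by
  intro D h1 h3
  rcases lt_or_ge D 4 with h | h
  · refine ⟨9, by omega, by omega, fun m hm => ?_⟩
    have := lin hPLO hPLL hPLO.1 h1 h3
    rw [zero_add D] at this
    exact pad hPLO (by omega) this
  obtain ⟨a, c, s, a1, a2, a3, a4, a5, a6⟩ := greedy h
  obtain ⟨b, e, t, b1, b2, b3, b4, b5, b6⟩ := greedy a5
  have hu : a ≤ Nat.sqrt (2 * D) := Nat.le_sqrt.2 (by omega)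
  refine ⟨3 * b + 11, by omega, ?_, fun m hm => ?_⟩
  · have : b * b ≤ 2 * Nat.sqrt (2 * D) + 2 := by omega
    zify at this ⊢
    nlinarith [sq_nonneg (3 * (b : ℤ) - 11)]
  · have := lin hPLO hPLL (hPLL _ _ (b + 1) (by omega) (hPLL _ _ (a + 1) (by omega) hPLO.1))
      (r := t) (by omega) (by omega)
    rw [a2, b2, show 0 + (c + 1 - 1) + (e + 1 - 1) + t = D by omega] at this
    exact pad hPLO (by omega) this

end Pool.Agent.P.MP_390d44_co.Fb
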