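import Pool.Agent.P.MP_390d44_co.Fb.Iface

/-! Step PLL. -/

namespace Pool.Agent.P.MP_390d44_co.Fb

open Finset Pool.Agent.P.MP_390d44_co

namespace PLLc

/-- the invariant: a planar set with a line carrying exactly `t` points. -/
def Inv (m D t : ℕ) : Prop :=
  ∃ (X : Finset Sub) (c g : Sub), rk c = 3 ∧ IsPts X ∧ (∀ x ∈ X, x ≤ c) ∧ X.card = m + t ∧
    g ∈ lines X ∧ g ≤ c ∧ (pts X g).card = t ∧
    (lines X).card + D + t.choose 2 = (m + t).choose 2 + 1

lemma base {m D : ℕ} (h : PL m D) : Inv m D 2 := by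
  obtain ⟨X, c, hc, hX, hXc, hm, hD⟩ := h
  obtain ⟨x1, x1c, a1, -⟩ := gen3 hX hc.ge
  have hX1 := hX.ins a1.pt
  obtain ⟨x2, x2c, a2, -⟩ := gen3 hX1 hc.ge
  have hX2 := hX1.ins a2.pt
  have hne : x2 ≠ x1 := a2.ne (mem_insert_self _ _)
  have c1 : (insert x1 X).card = m + 1 := by rw [card_insert_of_notMem a1.nm, hm]
  refine ⟨insert x2 (insert x1 X), c, x2 ⊔ x1, hc, hX2, ?_, ?_, ?_, sup_le x2c x1c, ?_, ?_⟩
  · intro x hx
    rcases mem_insert.1 hx with rfl | hx
    · exact x2c
    rcases mem_insert.1 hx with rfl | hx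
    · exact x1c
    · exact hXc x hx
  · rw [card_insert_of_notMem a2.nm, c1]
  · exact sup_mem_lines hX2 (mem_insert_self _ _)
      (mem_insert_of_mem (mem_insert_self _ _)) hne
  · rw [pts_new hX1 a2 (mem_insert_self _ _), card_pair hne]
  · have e1 := card_lines_ins hX a1
    have e2 := card_lines_ins hX1 a2
    have e3 := ch2 m
    have e4 := ch2 (m + 1)
    have e5 : (2 : ℕ).choose 2 = 1 := rfl
    have e6 : m + 2 = m + 1 + 1 := rfl
    rw [e6]
    omega

lemma step (hONL : S_ONL) {m D t : ℕ} (h : Inv m D t) : Inv m D (t + 1) := by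
  obtain ⟨X, c, g, hc, hX, hXc, hm, hg, hgc, ht, hD⟩ := h
  have rg := rk_line hg
  obtain ⟨x, x1, xg, hx⟩ := generic (W := g) (by omega) (X ∪ (lines X).erase g) fun U hU => by
    rcases mem_union.1 hU with hU | hU
    · exact not_le_of_rk (by rw [hX U hU]; omega)
    · obtain ⟨u1, u2⟩ := mem_erase.1 hU
      exact fun e => u1 (eq_of_rk e (by rw [rk_line u2, rg])).symm
  have xn : x ∉ X := fun e => hx x (mem_union_left _ e) le_rfl
  have e1 := hONL X x g hX x1 xn hg xg fun l hl e => by_contra fun hne =>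
    hx l (mem_union_right _ (mem_erase.2 ⟨hne, hl⟩)) e
  refine ⟨insert x X, c, g, hc, hX.ins x1, ?_, ?_, lines_mono (subset_insert _ _) hg, hgc, ?_, ?_⟩
  · intro y hy
    rcases mem_insert.1 hy with rfl | hy
    · exact xg.trans hgc
    · exact hXc y hy
  · rw [card_insert_of_notMem xn, hm]; rfl
  · rw [pts_ins_of_le xg, card_insert_of_notMem fun e => xn (mem_pts.1 e).1, ht]
  · have e3 := ch2 t
    have e4 := ch2 (m + t)
    have e6 : m + (t + 1) = m + t + 1 := rfl
    rw [e6]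
    omega

end PLLc

theorem p_PLL (hONL : S_ONL) :
    S_PLL := by
  intro m D t ht h
  have key : PLLc.Inv m D t := by
    induction t, ht using Nat.le_induction with
    | base => exact PLLc.base h
    | succ t _ ih => exact PLLc.step hONL ih
  obtain ⟨X, c, g, hc, hX, hXc, hm, -, -, -, hD⟩ := key
  have : 0 < t.choose 2 := Nat.choose_pos ht
  exact ⟨X, c, hc, hX, hXc, hm, by omega⟩

end Pool.Agent.P.MP_390d44_co.Fb
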