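import Pool.Agent.P.MP_390d44_co.Fb.Iface

/-! Step PLO. -/

namespace Pool.Agent.P.MP_390d44_co.Fb

open Finset Pool.Agent.P.MP_390d44_co

namespace PLOc

lemma c2 (n : ℕ) : (n + 1).choose 2 = n.choose 2 + n := by
  rw [Nat.choose_succ_succ' n 1, Nat.choose_one_right, add_comm]

end PLOc

theorem p_PLO :
    S_PLO := by
  refine ⟨?_, ?_⟩
  · obtain ⟨x, x1, -⟩ := generic (W := ⊤) (by rw [rk_top]; omega) ∅ (by simp)
    obtain ⟨H, h, -⟩ := exists_plane_avoid x1
    exact ⟨∅, H, h, fun x hx => by simp at hx, fun x hx => by simp at hx, rfl, by simp [lines]⟩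
  · rintro m D ⟨X, c, hc, hX, hXc, hm, hl⟩
    obtain ⟨x, xc, h, -⟩ := gen3 hX hc.ge
    refine ⟨insert x X, c, hc, hX.ins h.pt, fun y hy => ?_, ?_, ?_⟩
    · rcases mem_insert.1 hy with rfl | hy
      · exact xc
      · exact hXc y hy
    · rw [card_insert_of_notMem h.nm, hm]
    · rw [card_lines_ins hX h, PLOc.c2, hm]; omega

end Pool.Agent.P.MP_390d44_co.Fb
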