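import Pool.Agent.P.MP_390d44_co.Fb.Iface

/-! Step REP. -/

namespace Pool.Agent.P.MP_390d44_co.Fb

open Finset Pool.Agent.P.MP_390d44_co

namespace REPc

/-- a loss of `T` planes with `j` new points -/
def Rp (j T : ℕ) : Prop := ∀ (n D : ℕ) (E : ℤ), St3 n D E → St3 (n + j) D (E - T)

theorem add {j j' T T' : ℕ} (h : Rp j T) (h' : Rp j' T') : Rp (j + j') (T + T') :=
  fun n D E a => by
    have := h' _ _ _ (h n D E a)
    rwa [add_assoc, sub_sub, ← Nat.cast_add] at this

theorem mul {j T : ℕ} (h : Rp j T) (a : ℕ) : Rp (a * j) (a * T) := by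
  induction a with
  | zero => intro n D E a; simpa using a
  | succ a ih => rw [add_one_mul, add_one_mul]; exact add ih h

theorem pad (hGEN : S_GEN) {j j' T : ℕ} (h : Rp j T) (hj : j ≤ j') : Rp j' T := by
  induction j', hj using Nat.le_induction with
  | base => exact h
  | succ k _ ih => exact fun n D E a => hGEN _ _ _ (ih n D E a)

theorem blk (hBLK : S_BLK) {M T : ℕ} (hM : 3 ≤ M) (h : T + 1 = M.choose 3) : Rp M T :=
  fun n D E a => by
    have := hBLK n D M E hM a
    rwa [← h, Nat.cast_add, Nat.cast_one, add_sub_cancel_right] at this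

theorem lin (hGEN : S_GEN) (hBLK : S_BLK) {j T : ℕ} (hT : 36 ≤ T) (hj : 4 * T ≤ 3 * j) :
    Rp j T := by
  have := add (mul (blk hBLK (M := 4) (T := 3) (by omega) (by decide)) ((T - 19 * (T % 3)) / 3))
    (mul (blk hBLK (M := 6) (T := 19) (by omega) (by decide)) (T % 3))
  rw [show (T - 19 * (T % 3)) / 3 * 3 + T % 3 * 19 = T by omega] at this
  exact pad hGEN this (by omega)

theorem pick {T : ℕ} (hT : 36 ≤ T) :
    ∃ M, 3 ≤ M ∧ M.choose 3 + 35 ≤ T ∧ T < M.choose 3 + M.choose 2 + 35 := by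
  induction T, hT using Nat.le_induction with
  | base => exact ⟨3, le_rfl, by decide, by decide⟩
  | succ T _ ih =>
    obtain ⟨M, h1, h2, h3⟩ := ih
    by_cases h : T + 1 < M.choose 3 + M.choose 2 + 35
    · exact ⟨M, h1, by omega, h⟩
    · exact ⟨M + 1, by omega, by rw [ch3]; omega, by rw [ch3, ch2]; omega⟩

end REPc

theorem p_REP (hGEN : S_GEN) (hBLK : S_BLK) :
    S_REP := by
  intro u
  induction u using Nat.strong_induction_on with
  | _ u ih =>
    intro T hT hu
    by_cases h8 : u ≤ 8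
    · refine REPc.lin hGEN hBLK hT ?_
      have : u * u ≤ 8 * 8 := Nat.mul_le_mul h8 h8
      nlinarith
    obtain ⟨M, h1, h2, h3⟩ := REPc.pick hT
    have hM : M ≤ 2 * u + 1 := by
      by_contra h
      have a1 := c3 M
      have a2 : (2 * u + 2 : ℤ) ≤ M := by omega
      have a3 : (M.choose 3 : ℤ) + 35 ≤ (u : ℤ) ^ 3 := by exact_mod_cast h2.trans hu
      have a4 : (2 * u : ℤ) * (2 * u) * (2 * u) ≤ M * (M - 1) * (M - 2) :=
        mul_le_mul (mul_le_mul (by omega) (by omega) (by omega) (by omega)) (by omega) (by omega)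
          (mul_nonneg (by omega) (by omega))
      have a5 : (0 : ℤ) ≤ (u : ℤ) ^ 3 := by positivity
      nlinarith
    have h4 : M.choose 2 ≤ 2 * u ^ 2 + u := by
      have a1 := c2 M
      have a4 : (M : ℤ) * (M - 1) ≤ (2 * u + 1) * (2 * u) := by
        gcongr <;> omega
      zify
      nlinarith
    obtain ⟨w, hw⟩ : ∃ w, w = u - (u / 50 + 1) := ⟨_, rfl⟩
    have h5 : M.choose 2 + 35 ≤ w ^ 3 := by
      have a1 : 8 ≤ w := by omega
      have a2 : 8 * u ≤ 10 * w := by omega
      have a3 := Nat.mul_le_mul (Nat.mul_le_mul a2 a2) a1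
      have a4 : 9 * u ≤ u * u := Nat.mul_le_mul_right u (by omega)
      have a5 : 9 ≤ u := by omega
      nlinarith
    have h0 : 0 < M.choose 3 := Nat.choose_pos h1
    have := REPc.add (REPc.blk hBLK (T := M.choose 3 - 1) h1 (by omega))
      (ih w (by omega) (T + 1 - M.choose 3) (by omega) (by omega))
    rw [show M.choose 3 - 1 + (T + 1 - M.choose 3) = T by omega] at this
    exact REPc.pad hGEN this (by omega)

end Pool.Agent.P.MP_390d44_co.Fb
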