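import Pool.Agent.P.MP_390d44_co.Fb.Iface

/-! Step SP. -/

namespace Pool.Agent.P.MP_390d44_co.Fb

open Finset Pool.Agent.P.MP_390d44_co

namespace SPc

lemma cube (a : ℕ) (ha : 2 ≤ a) : ((a : ℝ) - 2) ^ 3 ≤ 6 * (a.choose 3 : ℕ) := by
  have h : 6 * ((a.choose 3 : ℕ) : ℝ) = a * (a - 1) * (a - 2) := by exact_mod_cast c3 a
  have a2 : (2 : ℝ) ≤ a := by exact_mod_cast ha
  rw [h]
  have : 0 ≤ ((a : ℝ) - 2) * (3 * a - 4) := mul_nonneg (by linarith) (by linarith)
  nlinarith

end SPc

theorem p_SP (hLONG : S_LONG) :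
    S_SP := by
  rintro n l p D ⟨X, hX, rfl, rfl, rfl⟩ hD hs
  have D0 : (0 : ℝ) ≤ D := by positivity
  set s := Real.sqrt (2 * D) with hs'
  have s0 : 0 ≤ s := Real.sqrt_nonneg _
  have s2 : s ^ 2 = 2 * D := Real.sq_sqrt (by positivity)
  by_cases hn : 2 ≤ X.card
  · obtain ⟨a, ha, b, hb, hab⟩ := one_lt_card.1 hn
    obtain ⟨L, hL, hm⟩ := exists_max_image (lines X) (fun g => (pts X g).card)
      ⟨_, sup_mem_lines hX ha hb hab⟩
    have hc := card_pts_off X L
    have h2 := two_le_pts hX hL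
    have hb := erdos_beck hX hn (k := (off X L).card) fun g hg => by have := hm g hg; omega
    have h3 : 2 * (off X L).card ≤ (pts X L).card := by
      by_contra h
      have : X.card ≤ 3 * (off X L).card := by omega
      nlinarith
    have h4 := hLONG X L D hX hL h3 hD
    have h5 := SPc.cube _ h2
    have h6 : ((planes X).card : ℝ) + ((pts X L).card.choose 3 : ℕ) + (off X L).card * D
        ≤ (X.card.choose 3 : ℕ) := by exact_mod_cast h4
    have h7 : ((pts X L).card : ℝ) + (off X L).card = X.card := by exact_mod_cast hc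
    have a2 : (2 : ℝ) ≤ (pts X L).card := by exact_mod_cast h2
    unfold FF
    rw [← hs', ← h7]
    generalize ((pts X L).card : ℝ) = A at *
    have h8 : 0 ≤ (A - 2 - s) ^ 2 * (A - 2 + 2 * s) := mul_nonneg (sq_nonneg _) (by linarith)
    have h9 : (D : ℝ) = s ^ 2 / 2 := by linarith
    rw [h9] at h6 ⊢
    nlinarith
  · have h0 : X.card.choose 2 = 0 := Nat.choose_eq_zero_of_lt (by omega)
    have h1 : X.card.choose 3 = 0 := Nat.choose_eq_zero_of_lt (by omega)
    obtain rfl : D = 0 := by omega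
    have h2 : lines X = ∅ := card_eq_zero.1 (by omega)
    have h3 : planes X = ∅ := by simp [planes, h2]
    simp [FF, h1, h3]

end Pool.Agent.P.MP_390d44_co.Fb
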