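import Pool.Agent.P.MP_390d44_co.Fb.TGEN
import Pool.Agent.P.MP_390d44_co.Fb.TBLK
import Pool.Agent.P.MP_390d44_co.Fb.TREP
import Pool.Agent.P.MP_390d44_co.Fb.TPLO
import Pool.Agent.P.MP_390d44_co.Fb.TONL
import Pool.Agent.P.MP_390d44_co.Fb.TPLL
import Pool.Agent.P.MP_390d44_co.Fb.TPLA
import Pool.Agent.P.MP_390d44_co.Fb.TBASE
import Pool.Agent.P.MP_390d44_co.Fb.TKEY
import Pool.Agent.P.MP_390d44_co.Fb.TPICK
import Pool.Agent.P.MP_390d44_co.Fb.TINN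
import Pool.Agent.P.MP_390d44_co.Fb.TDEL
import Pool.Agent.P.MP_390d44_co.Fb.TKK
import Pool.Agent.P.MP_390d44_co.Fb.TCTH
import Pool.Agent.P.MP_390d44_co.Fb.TDD
import Pool.Agent.P.MP_390d44_co.Fb.TLL
import Pool.Agent.P.MP_390d44_co.Fb.TLONG
import Pool.Agent.P.MP_390d44_co.Fb.TSP
import Pool.Agent.P.MP_390d44_co.Fb.TMXU
import Pool.Agent.P.MP_390d44_co.Fb.TCOL
import Pool.Agent.P.MP_390d44_co.Fb.TMXL
import Pool.Agent.P.MP_390d44_co.Fb.TAFF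

/-! Assembly of the steps. -/

namespace Pool.Agent.P.MP_390d44_co.Fb

theorem inn : S_INN :=
  p_INN p_GEN (p_REP p_GEN p_BLK) (p_PLA p_PLO (p_PLL p_ONL)) p_BASE (p_PICK p_KEY)

theorem long : S_LONG := p_LONG p_LL (p_CTH p_DEL)

theorem kk : S_KK := p_KK p_DEL

theorem sp : S_SP := p_SP long

theorem mxu : S_MXU := p_MXU long p_DD

theorem mxl : S_MXL := p_MXL p_GEN p_COL

end Pool.Agent.P.MP_390d44_co.Fb
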