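import Pool.Agent.P.MP_390d44_co.Fb.If2

/-! Step ADD. -/

namespace Pool.Agent.P.MP_390d44_co.Fb

open Finset Pool.Agent.P.MP_390d44_co

namespace ADDc

lemma lines_le (x : Sub) (Z : Finset Sub) (hx : rk x = 1) :
    (lines (insert x Z)).card ≤ (lines Z).card + Z.card := by
  have h : lines (insert x Z) ⊆ lines Z ∪ Z.image (x ⊔ ·) := by
    intro l hl
    obtain ⟨r, a, ha, b, hb, e⟩ := mem_lines'.1 hl
    simp only [mem_union, mem_image]
    rcases mem_insert.1 ha with ha | ha <;> rcases mem_insert.1 hb with hb | hb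
    · rw [ha, hb, sup_idem] at e
      rw [← e] at r
      omega
    · exact Or.inr ⟨b, hb, by rw [← ha, e]⟩
    · exact Or.inr ⟨a, ha, by rw [← hb, sup_comm, e]⟩
    · exact Or.inl (mem_lines'.2 ⟨r, a, ha, b, hb, e⟩)
  have h1 := card_le_card h
  have h2 := card_union_le (lines Z) (Z.image (x ⊔ ·))
  have h3 : (Z.image (x ⊔ ·)).card ≤ Z.card := card_image_le
  omega

lemma main (Y B : Finset Sub) : Disjoint Y B → IsPts (Y ∪ B) →
    (lines (Y ∪ B)).card ≤ (lines Y).card + B.card * Y.card + B.card.choose 2 ∧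
    (planes (Y ∪ B)).card ≤ (planes Y).card + B.card * (lines Y).card +
      B.card.choose 2 * Y.card + B.card.choose 3 := by
  induction B using Finset.induction_on with
  | empty => intro _ _; simp
  | insert x B hxB ih =>
    intro hd hP
    rw [disjoint_insert_right] at hd
    rw [union_insert] at hP ⊢
    have hZ : IsPts (Y ∪ B) := hP.mono (subset_insert _ _)
    have hx : rk x = 1 := hP x (mem_insert_self _ _)
    have hn : x ∉ Y ∪ B := by simp [hd.1, hxB]
    obtain ⟨h1, h2⟩ := ih hd.2 hZ
    obtain ⟨o, q, -, -, h3, -, h4⟩ := p_DEL (Y ∪ B) x hZ hx hn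
    have h5 := lines_le x (Y ∪ B) hx
    rw [card_union_of_disjoint hd.2] at h5
    rw [card_insert_of_notMem hxB, ch2, ch3, add_mul, add_mul, add_mul, one_mul, one_mul]
    constructor <;> omega

end ADDc

theorem p_ADD :
    S_ADD := by
  intro X B hX hB
  have h := ADDc.main (X \ B) B sdiff_disjoint (by rwa [sdiff_union_of_subset hB])
  rwa [sdiff_union_of_subset hB] at h

end Pool.Agent.P.MP_390d44_co.Fb
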