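import Pool.Agent.P.MP_390d44_co.Fb.If2

/-! Step BOUT. -/

namespace Pool.Agent.P.MP_390d44_co.Fb

open Finset Pool.Agent.P.MP_390d44_co

namespace BOUTc

lemma q1 (k : ℕ) : (k : ℤ) ^ 2 ≤ k ^ 3 + k := by
  rcases Nat.eq_zero_or_pos k with rfl | h
  · simp
  · have : (1 : ℤ) ≤ k := by exact_mod_cast h
    nlinarith [mul_nonneg (sq_nonneg (k : ℤ)) (sub_nonneg.2 this)]

lemma q2 (k : ℕ) : 4 * (k : ℤ) ≤ k ^ 3 + 3 * k ^ 2 := by
  rcases Nat.eq_zero_or_pos k with rfl | h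
  · simp
  · have : (1 : ℤ) ≤ k := by exact_mod_cast h
    have h2 : (k : ℤ) ≤ k ^ 2 := by nlinarith
    nlinarith [mul_nonneg (sq_nonneg (k : ℤ)) (sub_nonneg.2 this)]

lemma up (m k l l0 p p0 : ℕ) (h1 : p ≤ p0 + k * l0 + k.choose 2 * m + k.choose 3) (h2 : p0 ≤ m)
    (h3 : l0 + k * m ≤ l + 2 * k + k.choose 2) :
    (p : ℤ) ≤ UU (m + k) l k + (m + k : ℕ) + 2 * k ^ 3 := by
  have a := c2 k; have b := c3 k
  have d := c2 (k + 1); have e := c3 (k + 2)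
  have q := q1 k
  zify at h1 h2 h3
  have h4 := mul_le_mul_of_nonneg_left h3 (Int.natCast_nonneg k)
  simp only [UU]
  push_cast at d e ⊢
  have a1 : (k : ℤ) * (2 * (k.choose 2 : ℕ)) = k * (k * (k - 1)) := by rw [a]
  have a2 : (m : ℤ) * (2 * (k.choose 2 : ℕ)) = m * (k * (k - 1)) := by rw [a]
  have d1 : ((m : ℤ) + k) * (2 * ((k + 1).choose 2 : ℕ)) =
      (m + k) * ((k + 1) * (k + 1 - 1)) := by rw [d]
  linarith

lemma lo (m k l l0 p y : ℕ) (h1 : k * y ≤ p + k.choose 2 * (m + k)) (h2 : l0 ≤ y + m + 1)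
    (h3 : l ≤ l0 + k * m + k.choose 2) :
    UU (m + k) l k - (k : ℤ) ^ 2 * (m + k : ℕ) ≤ p := by
  have a := c2 k
  have d := c2 (k + 1); have e := c3 (k + 2)
  have q := q2 k
  zify at h1 h2 h3
  have h4 := mul_le_mul_of_nonneg_left h3 (Int.natCast_nonneg k)
  have h5 := mul_le_mul_of_nonneg_left h2 (Int.natCast_nonneg k)
  simp only [UU]
  push_cast at d e ⊢
  have a1 : (k : ℤ) * (2 * (k.choose 2 : ℕ)) = k * (k * (k - 1)) := by rw [a]
  have a2 : (m : ℤ) * (2 * (k.choose 2 : ℕ)) = m * (k * (k - 1)) := by rw [a]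
  have d1 : ((m : ℤ) + k) * (2 * ((k + 1).choose 2 : ℕ)) =
      (m + k) * ((k + 1) * (k + 1 - 1)) := by rw [d]
  linarith

end BOUTc

theorem p_BOUT (hUNI : S_UNI) (hADD : S_ADD) (hNEWL : S_NEWL) :
    S_BOUT := by
  intro X B hX hB hN
  have hn : X.card = (X \ B).card + B.card := (card_sdiff_add_card_eq_card hB).symm
  obtain ⟨a1, a2⟩ := hADD X B hX hB
  have a3 := hNEWL X B hX hB fun b hb => (hN.2 b hb).1
  have a4 := hUNI X B ((lines (X \ B)).card - (X \ B).card - 1) hX hB fun b hb => by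
    have := (hN.2 b hb).2
    omega
  rw [hn] at a4 ⊢
  exact ⟨BOUTc.lo _ _ _ (lines (X \ B)).card _ _ a4 (by omega) a1,
    BOUTc.up _ _ _ _ _ _ a2 hN.1 a3⟩

end Pool.Agent.P.MP_390d44_co.Fb
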