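import Pool.Agent.P.MP_390d44_co.Fb.If2

/-! Step CLA. -/

namespace Pool.Agent.P.MP_390d44_co.Fb

open Finset Pool.Agent.P.MP_390d44_co

namespace CLAc

variable {Y : Finset Sub} {L M l p : Sub}

lemma one (hY : IsPts Y) (hM : rk M = 2) (h : ∀ y ∈ Y, y ≤ M) : (lines Y).card ≤ 1 := by
  refine (card_le_card (t := {M}) fun l hl => ?_).trans (card_singleton _).le
  exact mem_singleton.2 (eq_of_rk (line_le_of_pts hl fun x hx _ => h x hx) (by rw [rk_line hl, hM]))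

lemma cl (hY : IsPts Y) (hL : rk L = 2) (hM : rk M = 2) (h : ∀ y ∈ Y, y ≤ L ∨ y ≤ M)
    (hl : l ∈ lines Y) : l = L ∨ l = M ∨ ∃ a ∈ pts Y L, ∃ b ∈ pts Y M, a ⊔ b = l := by
  obtain ⟨r, a, ha, b, hb, e, h1, h2⟩ := (mem_lines hY).1 hl
  rcases h a ha with k | k <;> rcases h b hb with k' | k'
  · exact Or.inl (lines_eq r hL (hY a ha) (hY b hb) e h1 h2 k k')
  · exact Or.inr (Or.inr ⟨a, mem_pts.2 ⟨ha, k⟩, b, mem_pts.2 ⟨hb, k'⟩,
      line_eq r (hY a ha) (hY b hb) e h1 h2⟩)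
  · exact Or.inr (Or.inr ⟨b, mem_pts.2 ⟨hb, k'⟩, a, mem_pts.2 ⟨ha, k⟩,
      line_eq r (hY b hb) (hY a ha) e.symm h2 h1⟩)
  · exact Or.inr (Or.inl (lines_eq r hM (hY a ha) (hY b hb) e h1 h2 k k'))

lemma pl (hY : IsPts Y) (hL : rk L = 2) (hM : rk M = 2) (h : ∀ y ∈ Y, y ≤ L ∨ y ≤ M)
    (hp : p ∈ planes Y) : L ≤ p ∨ M ≤ p := by
  obtain ⟨-, a, ha, l, hl, e, h1, h2⟩ := (mem_planes hY).1 hp
  rcases cl hY hL hM h hl with rfl | rfl | ⟨x, hx, y, hy, rfl⟩
  · exact Or.inl h2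
  · exact Or.inr h2
  rw [mem_pts] at hx hy
  rcases h a ha with k | k
  · exact Or.inl (line_le hL (hY a ha) (hY x hx.1) (fun e' => e (e' ▸ le_sup_left)) k hx.2 h1
      (le_sup_left.trans h2))
  · exact Or.inr (line_le hM (hY a ha) (hY y hy.1) (fun e' => e (e' ▸ le_sup_right)) k hy.2 h1
      (le_sup_right.trans h2))

lemma few (hY : IsPts Y) (hL : rk L = 2) (hM : rk M = 2) (hLM : L ⊓ M = ⊥) {b T : Sub}
    (hb : rk b = 1) (hT : T ≤ b ⊔ M) : (pts (pts Y T) L).card ≤ 1 := by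
  have h4 : ¬ L ≤ b ⊔ M := fun e => by
    have h1 := rk_sup_inf L M
    have h2 := rk_mono (sup_le e le_sup_right : L ⊔ M ≤ b ⊔ M)
    have h3 := rk_sup_le b M
    rw [hLM, rk_bot] at h1
    omega
  refine card_le_one.2 fun x hx y hy => ?_
  simp only [mem_pts] at hx hy
  exact pt_unique hL h4 (hY x hx.1.1) (hY y hy.1.1) hx.2 hy.2 (hx.1.2.trans hT) (hy.1.2.trans hT)

end CLAc

theorem p_CLA :
    S_CLA := by
  intro Y L M hY hL hM hLM h
  have nb : ∀ y ∈ Y, y ≤ L → ¬ y ≤ M := fun y hy h1 h2 => by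
    have := rk_mono (le_inf h1 h2)
    rw [hLM, rk_bot, hY y hy] at this
    omega
  refine ⟨?_, ?_, ?_, ?_, fun b hb b1 b2 => ?_⟩
  · refine (card_le_card fun p hp => ?_).trans
      (card_image_le (s := Y) (f := fun y => if y ≤ L then y ⊔ M else y ⊔ L))
    rcases CLAc.pl hY hL hM h hp with k | k
    · obtain ⟨x, hx, x1, x2⟩ := exists_off hp hL.le
      exact mem_image.2 ⟨x, hx, by rw [if_neg x2, plane_eq (rk_plane hp) (hY x hx) hL x2 x1 k]⟩
    · obtain ⟨x, hx, x1, x2⟩ := exists_off hp hM.le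
      exact mem_image.2 ⟨x, hx, by
        rw [if_pos ((h x hx).resolve_right x2), plane_eq (rk_plane hp) (hY x hx) hM x2 x1 k]⟩
  · have h1 : lines Y ⊆ insert L (insert M (image₂ (· ⊔ ·) (pts Y L) (pts Y M))) := fun l hl => by
      simpa only [mem_insert, mem_image₂] using CLAc.cl hY hL hM h hl
    have h2 := card_le_card h1
    have h3 := card_insert_le L (insert M (image₂ (· ⊔ ·) (pts Y L) (pts Y M)))
    have h4 := card_insert_le M (image₂ (· ⊔ ·) (pts Y L) (pts Y M))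
    have h5 := card_image₂_le (fun a b : Sub => a ⊔ b) (pts Y L) (pts Y M)
    omega
  · rw [← card_pts_off Y L]
    congr 2
    ext y
    rw [mem_pts, mem_off]
    exact and_congr_right fun hy => ⟨fun k k' => nb y hy k' k, (h y hy).resolve_left⟩
  · rintro (k | k) <;> rw [card_eq_zero, eq_empty_iff_forall_notMem] at k
    · exact CLAc.one hY hM fun y hy => (h y hy).resolve_left fun e => k y (mem_pts.2 ⟨hy, e⟩)
    · exact CLAc.one hY hL fun y hy => (h y hy).resolve_right fun e => k y (mem_pts.2 ⟨hy, e⟩)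
  · refine ⟨off Y ((b ⊔ L) ⊓ (b ⊔ M)), off_sub, ?_, fun x hx y hy e => ?_⟩
    · have h1 := card_pts_off Y ((b ⊔ L) ⊓ (b ⊔ M))
      have h2 := CLAc.few hY hL hM hLM hb (inf_le_right : (b ⊔ L) ⊓ (b ⊔ M) ≤ _)
      have h3 := CLAc.few hY hM hL (inf_comm L M ▸ hLM) hb (inf_le_left : (b ⊔ L) ⊓ (b ⊔ M) ≤ _)
      have h4 := card_le_card (show pts Y ((b ⊔ L) ⊓ (b ⊔ M)) ⊆
          pts (pts Y ((b ⊔ L) ⊓ (b ⊔ M))) L ∪ pts (pts Y ((b ⊔ L) ⊓ (b ⊔ M))) M from fun y hy => by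
        rw [mem_union, mem_pts, mem_pts (W := M)]
        exact (h y (mem_pts.1 hy).1).imp (fun k => ⟨hy, k⟩) fun k => ⟨hy, k⟩)
      have h5 := card_union_le (pts (pts Y ((b ⊔ L) ⊓ (b ⊔ M))) L)
        (pts (pts Y ((b ⊔ L) ⊓ (b ⊔ M))) M)
      omega
    · obtain ⟨hx, x1⟩ := mem_off.1 hx
      by_contra hne
      have ne : ∀ z ∈ Y, b ≠ z := fun z hz e' => (h z hz).elim (e' ▸ b1) (e' ▸ b2)
      have r := rk_pp hb (hY x hx) (ne x hx)
      have e1 : b ≤ y ⊔ x := (line_eq r (hY y hy) (hY x hx) hne e le_sup_right).symm ▸ le_sup_left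
      have e2 : x ≤ b ⊔ y := (line_eq r hb (hY y hy) (ne y hy) le_sup_left e).symm ▸ le_sup_right
      rcases h x hx with k | k <;> rcases h y hy with k' | k'
      · exact b1 (e1.trans (sup_le k' k))
      · exact x1 (le_inf (k.trans le_sup_right) (e2.trans (sup_le_sup_left k' _)))
      · exact x1 (le_inf (e2.trans (sup_le_sup_left k' _)) (k.trans le_sup_right))
      · exact b2 (e1.trans (sup_le k' k))

end Pool.Agent.P.MP_390d44_co.Fb
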