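import Pool.Agent.P.MP_390d44_co.Fb.If2

/-! Step CLL. -/

namespace Pool.Agent.P.MP_390d44_co.Fb

open Finset Pool.Agent.P.MP_390d44_co

namespace CLLc

variable {Y : Finset Sub} {L M b x y : Sub}

lemma one (hY : IsPts Y) (hb : rk b = 1) (hL : rk L = 2) (hM : rk M = 2) (h : M ⊓ L = ⊥)
    (bM : ¬ b ≤ M) : (pts Y L).card ≤ (off (pts Y L) (b ⊔ M)).card + 1 := by
  have h1 := card_pts_off (pts Y L) (b ⊔ M)
  have h2 : (pts (pts Y L) (b ⊔ M)).card ≤ 1 := card_le_one.2 fun u hu v hv => by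
    obtain ⟨u1, u2⟩ := mem_pts.1 hu
    obtain ⟨v1, v2⟩ := mem_pts.1 hv
    exact pt_unique hL (skew_not_le hL hM h (rk_pl hb hM bM) le_sup_right) (hY u (pts_sub u1))
      (hY v (pts_sub v1)) (mem_pts.1 u1).2 (mem_pts.1 v1).2 u2 v2
  omega

lemma two (hb : rk b = 1) (hx : rk x = 1) (hy : rk y = 1) (hL : rk L = 2) (bL : ¬ b ≤ L)
    (xL : x ≤ L) (h : ¬ y ≤ b ⊔ L) : b ≠ x ∧ ¬ y ≤ b ⊔ x ∧ ¬ L ≤ y ⊔ (b ⊔ x) := by
  have h1 : b ≠ x := fun e => bL (e ▸ xL)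
  have h2 : ¬ y ≤ b ⊔ x := fun e => h (e.trans (sup_le_sup_left xL b))
  exact ⟨h1, h2, fun e => h (plane_eq (rk_pl hy (rk_pp hb hx h1) h2) hb hL bL
    (le_sup_left.trans le_sup_right) e ▸ le_sup_left)⟩

end CLLc

open CLLc in
theorem p_CLL (hCLA : S_CLA) :
    S_CLL := by
  intro X L M hX hL hM h
  set Y := X \ off (off X L) M with hYd
  have sub : Y ⊆ X := sdiff_subset
  have hY := hX.mono sub
  obtain ⟨c1, c2, c3, c4, c5⟩ := hCLA Y L M hY hL hM h fun y hy => by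
    obtain ⟨y1, y2⟩ := mem_sdiff.1 hy
    by_contra e
    exact y2 (mem_off.2 ⟨mem_off.2 ⟨y1, fun a => e (.inl a)⟩, fun a => e (.inr a)⟩)
  refine ⟨c1, fun b hb => ?_⟩
  obtain ⟨b0, bM⟩ := mem_off.1 hb
  obtain ⟨bX, bL⟩ := mem_off.1 b0
  have rb := hX b bX
  refine ⟨c5 b rb bL bM, ?_⟩
  change (lines Y).card ≤ (pth X b).card + Y.card + 1
  have a1 := one hY rb hL hM (inf_comm L M ▸ h) bM
  have a2 := one hY rb hM hL h bL
  have key : ∀ q ∈ off (pts Y L) (b ⊔ M) ×ˢ off (pts Y M) (b ⊔ L), q.1 ∈ X ∧ q.2 ∈ X ∧ q.1 ≤ L ∧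
      q.2 ≤ M ∧ b ≠ q.1 ∧ ¬ q.2 ≤ b ⊔ q.1 ∧ ¬ L ≤ q.2 ⊔ (b ⊔ q.1) ∧ ¬ M ≤ q.2 ⊔ (b ⊔ q.1) := by
    rintro ⟨x, y⟩ hq
    simp only [mem_product, mem_off, mem_pts] at hq
    obtain ⟨⟨⟨x1, x2⟩, x3⟩, ⟨y1, y2⟩, y3⟩ := hq
    obtain ⟨t1, t2, t3⟩ := two rb (hY x x1) (hY y y1) hL bL x2 y3
    have t4 := (two rb (hY y y1) (hY x x1) hM bM y2 x3).2.2
    rw [show x ⊔ (b ⊔ y) = y ⊔ (b ⊔ x) by ac_rfl] at t4
    exact ⟨sub x1, sub y1, x2, y2, t1, t2, t3, t4⟩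
  have a3 : (off (pts Y L) (b ⊔ M) ×ˢ off (pts Y M) (b ⊔ L)).card ≤ (pth X b).card := by
    refine card_le_card_of_injOn (fun q => q.2 ⊔ (b ⊔ q.1)) (fun q hq => ?_) fun q hq r hr e => ?_
    · obtain ⟨k1, k2, -, -, k5, k6, -⟩ := key q hq
      exact mem_coe.2 (mem_filter.2 ⟨sup_mem_planes hX k2 (sup_mem_lines hX bX k1 k5) k6,
        le_sup_left.trans le_sup_right⟩)
    · obtain ⟨k1, k2, k3, k4, -, -, k7, k8⟩ := key q hq
      obtain ⟨l1, l2, l3, l4, -⟩ := key r hr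
      have e' : q.2 ⊔ (b ⊔ q.1) = r.2 ⊔ (b ⊔ r.1) := e
      exact Prod.ext (pt_unique hL k7 (hX _ k1) (hX _ l1) k3 l3 (le_sup_right.trans le_sup_right)
        (e' ▸ le_sup_right.trans le_sup_right))
        (pt_unique hM k8 (hX _ k2) (hX _ l2) k4 l4 le_sup_left (e' ▸ le_sup_left))
  rw [card_product] at a3
  rcases Nat.eq_zero_or_eq_succ_pred (pts Y L).card with e | e
  · have := c4 (.inl e); omega
  rcases Nat.eq_zero_or_eq_succ_pred (pts Y M).card with e' | e'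
  · have := c4 (.inr e'); omega
  generalize (pts Y L).card.pred = u at e
  generalize (pts Y M).card.pred = v at e'
  rw [e, e'] at c2 c3
  have := Nat.mul_le_mul (show u ≤ (off (pts Y L) (b ⊔ M)).card by omega)
    (show v ≤ (off (pts Y M) (b ⊔ L)).card by omega)
  simp only [Nat.succ_eq_add_one] at c2 c3
  nlinarith

end Pool.Agent.P.MP_390d44_co.Fb
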