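import Pool.Agent.P.MP_390d44_co.Fb.If2

/-! Step CNUM. -/

namespace Pool.Agent.P.MP_390d44_co.Fb

open Finset Pool.Agent.P.MP_390d44_co

namespace CNUMc

lemma exists_cube (m : ℕ) (hm : 1 ≤ m) : ∃ y : ℕ, y ^ 3 < m ∧ m ≤ (y + 1) ^ 3 := by
  have h : ∃ v : ℕ, m ≤ v ^ 3 := ⟨m, Nat.le_self_pow (by norm_num) m⟩
  have h1 := Nat.find_spec h
  have h2 : Nat.find h ≠ 0 := by
    intro h0
    rw [h0] at h1
    omega
  obtain ⟨y, hy⟩ := Nat.exists_eq_succ_of_ne_zero h2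
  have h3 := Nat.find_min h (m := y) (by omega)
  rw [hy] at h1
  exact ⟨y, by omega, h1⟩

lemma le3 {a b : ℝ} (hb : 0 ≤ b) (h : a ^ 3 ≤ b ^ 3) : a ≤ b :=
  le_of_pow_le_pow_left₀ (by norm_num) hb h

lemma le2 {a b : ℝ} (hb : 0 ≤ b) (h : a ^ 2 ≤ b ^ 2) : a ≤ b :=
  le_of_pow_le_pow_left₀ (by norm_num) hb h

lemma last {t n l x y K k : ℝ} (ht : 2700 ≤ t) (hn : t ^ 6 = n) (hl : n * x ^ 2 = l)
    (hx : 1 ≤ x) (hy : t ^ 2 ≤ y) (hK1 : x + y ≤ K) (hK2 : K ≤ x + 1 + y)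
    (hK3 : K ≤ 0.71 * t ^ 3) (hk0 : 0 ≤ k) (hk : k ≤ 1600 * t ^ 4) :
    l + 5 * n + 2 * K ^ 3 ≤ (n - k) * (K ^ 2 - K) := by
  have t0 : 0 < t := by linarith
  have n0 : 0 < n := by rw [← hn]; positivity
  have y0 : 0 ≤ y := le_trans (by positivity) hy
  have K1 : 1 ≤ K := by linarith
  have h1 : (x + y) ^ 2 ≤ K ^ 2 := pow_le_pow_left₀ (by linarith) hK1 2
  have h2 : y * K ≤ y * (2 * x + y) := mul_le_mul_of_nonneg_left (by linarith) y0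
  have h3 : x ^ 2 + y * K ≤ K ^ 2 := by nlinarith
  have h4 : l + n * y * K ≤ n * K ^ 2 := by
    have := mul_le_mul_of_nonneg_left h3 n0.le
    nlinarith
  have h5 : k * K ≤ 1136 * t ^ 7 := by
    have := mul_le_mul hk hK3 (by linarith) (by positivity)
    nlinarith
  have h6 : K ^ 2 ≤ n := by
    have h : K ^ 2 ≤ (t ^ 3) ^ 2 :=
      pow_le_pow_left₀ (by linarith) (by have : 0 < t ^ 3 := by positivity
                                         linarith) 2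
    rw [← hn]
    calc K ^ 2 ≤ (t ^ 3) ^ 2 := h
      _ = t ^ 6 := by ring
  have h7 : 2700 * t ^ 7 ≤ n * y := by
    calc 2700 * t ^ 7 ≤ t * t ^ 7 := mul_le_mul_of_nonneg_right ht (by positivity)
      _ = t ^ 6 * t ^ 2 := by ring
      _ ≤ n * y := by rw [hn]; exact mul_le_mul_of_nonneg_left hy n0.le
  have h8 : n ≤ t ^ 7 := by
    calc n = t ^ 6 * 1 := by rw [hn, mul_one]
      _ ≤ t ^ 6 * t := mul_le_mul_of_nonneg_left (by linarith) (by positivity)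
      _ = t ^ 7 := by ring
  have h9 : n + k * K + 2 * K ^ 2 + 5 * n ≤ n * y := by linarith
  have h10 := mul_le_mul_of_nonneg_right h9 (by linarith : 0 ≤ K)
  have h11 : n ≤ n * K := le_mul_of_one_le_right n0.le K1
  have h12 : 0 ≤ k * K := mul_nonneg hk0 (by linarith)
  nlinarith

lemma UU_ge (n l k : ℕ) : 2 * (k : ℤ) * l - (k + 1) * k * n ≤ 2 * UU n l k := by
  have a4 := c2 (k + 1)
  have a5 : (0 : ℤ) ≤ ((k + 2).choose 3 : ℕ) := Nat.cast_nonneg _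
  have a6 : 2 * (((k + 1).choose 2 : ℕ) : ℤ) * n = (k + 1) * k * n := by
    rw [a4]
    push_cast
    ring
  rw [UU]
  linarith

end CNUMc

open CNUMc in
theorem p_CNUM :
    S_CNUM := by
  intro n l p u h1 h2 h3 h4 h5 h6
  have e1 : 2 * (l : ℝ) ≤ (n : ℝ) ^ 2 := by
    have a1 := c2 n
    have a2 : (l : ℤ) ≤ (n.choose 2 : ℕ) := by exact_mod_cast h1
    have a3 : 2 * (l : ℤ) ≤ (n : ℤ) ^ 2 := by nlinarith
    exact_mod_cast a3
  have n1 : (1 : ℝ) ≤ n := by exact_mod_cast h2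
  have n0 : (0 : ℝ) < n := by linarith
  have l0 : (0 : ℝ) ≤ l := Nat.cast_nonneg l
  have e3 : 10 ^ 20 * (n : ℝ) ^ 3 ≤ (l : ℝ) ^ 2 := by exact_mod_cast h3
  have e4 : 4 * 10 ^ 20 ≤ (n : ℝ) := by
    have a1 : (2 * (l : ℝ)) ^ 2 ≤ ((n : ℝ) ^ 2) ^ 2 := pow_le_pow_left₀ (by positivity) e1 2
    have a2 : 4 * 10 ^ 20 * (n : ℝ) ^ 3 ≤ n * (n : ℝ) ^ 3 := by nlinarith
    exact le_of_mul_le_mul_right a2 (by positivity)
  obtain ⟨t, t0, ht6⟩ : ∃ t : ℝ, 0 ≤ t ∧ t ^ 6 = n :=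
    ⟨(n : ℝ) ^ ((6 : ℕ) : ℝ)⁻¹, by positivity, Real.rpow_inv_natCast_pow n0.le (by norm_num)⟩
  have ht : 2700 ≤ t := le_of_pow_le_pow_left₀ (n := 6) (by norm_num) t0 (by rw [ht6]; linarith)
  have t2 : 2700 * 2700 ≤ t ^ 2 := by nlinarith
  have t3 : 2700 * t ^ 2 ≤ t ^ 3 := by nlinarith
  have t4 : 2700 * t ^ 3 ≤ t ^ 4 := by nlinarith
  have hs : Real.sqrt n = t ^ 3 := by
    rw [← ht6, show t ^ 6 = (t ^ 3) ^ 2 by ring, Real.sqrt_sq (by positivity)]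
  have e5 : 12 * (n : ℝ) * t ^ 3 ≤ l := by
    refine le2 l0 ?_
    have a1 : (12 * (n : ℝ) * t ^ 3) ^ 2 = 144 * (n : ℝ) ^ 3 := by
      rw [show (12 * (n : ℝ) * t ^ 3) ^ 2 = 144 * (n : ℝ) ^ 2 * t ^ 6 by ring, ht6]; ring
    have a2 : 0 ≤ (n : ℝ) ^ 3 := by positivity
    rw [a1]
    linarith
  have e6 : (n : ℝ) ≤ l := by nlinarith
  have l1 : 1 ≤ l := by exact_mod_cast n1.trans e6
  obtain ⟨y, hy1, hy2⟩ := exists_cube (2 * n) (by omega)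
  obtain ⟨d, hd1, hd2⟩ := exists_cube l l1
  have hyu : y + 1 ≤ u := by
    have : y < u := lt_of_pow_lt_pow_left₀ 3 (Nat.zero_le u) (lt_of_lt_of_le hy1 h4)
    omega
  have ry1 : (y : ℝ) ^ 3 < 2 * n := by exact_mod_cast hy1
  have ry2 : 2 * (n : ℝ) ≤ ((y : ℝ) + 1) ^ 3 := by exact_mod_cast hy2
  have rd1 : (d : ℝ) ^ 3 < l := by exact_mod_cast hd1
  have rd2 : (l : ℝ) ≤ ((d : ℝ) + 1) ^ 3 := by exact_mod_cast hd2
  have ya : t ^ 2 ≤ y := by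
    have a1 : 1.25 * t ^ 2 ≤ (y : ℝ) + 1 := by
      refine le3 (by positivity) ?_
      rw [show (1.25 * t ^ 2) ^ 3 = 1.953125 * t ^ 6 by ring, ht6]
      linarith
    linarith
  have yb : (y : ℝ) + 1 ≤ 1.3 * t ^ 2 := by
    have a1 : (y : ℝ) ≤ 1.26 * t ^ 2 := by
      refine le3 (by positivity) ?_
      rw [show (1.26 * t ^ 2) ^ 3 = 2.000376 * t ^ 6 by ring, ht6]
      linarith
    linarith
  set x := Real.sqrt ((l : ℝ) / n) with hx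
  have x2 : (n : ℝ) * x ^ 2 = l := by
    rw [hx, Real.sq_sqrt (by positivity)]
    field_simp
  have x0 : 0 ≤ x := Real.sqrt_nonneg _
  have xa : 1 ≤ x := by
    refine le2 x0 (le_of_mul_le_mul_left ?_ n0)
    rw [x2]
    linarith
  have xb : x ≤ 0.7072 * t ^ 3 := by
    refine le2 (by positivity) (le_of_mul_le_mul_left ?_ n0)
    rw [x2, show (0.7072 * t ^ 3) ^ 2 = 0.50013184 * t ^ 6 by ring, ht6]
    nlinarith
  have Ka : x + y ≤ ((⌈x⌉₊ + y : ℕ) : ℝ) := by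
    have := Nat.le_ceil x
    push_cast
    linarith
  have Kb : ((⌈x⌉₊ + y : ℕ) : ℝ) ≤ x + 1 + y := by
    have := (Nat.ceil_lt_add_one x0).le
    push_cast
    linarith
  generalize ⌈x⌉₊ + y = K at Ka Kb
  have Kc : (K : ℝ) ≤ 0.71 * t ^ 3 := by linarith
  have K0 : (0 : ℝ) ≤ K := Nat.cast_nonneg K
  have d0 : (0 : ℝ) ≤ d := Nat.cast_nonneg d
  have da : (d : ℝ) + 1 ≤ 0.8 * t ^ 4 := by
    have a1 : (d : ℝ) ≤ 0.794 * t ^ 4 := by
      refine le3 (by positivity) ?_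
      rw [show (0.794 * t ^ 4) ^ 3 = 0.500566184 * (t ^ 6) ^ 2 by ring, ht6]
      nlinarith
    linarith
  have db : 4 * 10 ^ 6 * (n : ℝ) ≤ ((d : ℝ) + 1) ^ 2 := by
    refine le3 (by positivity) ?_
    have a1 : (l : ℝ) ^ 2 ≤ (((d : ℝ) + 1) ^ 3) ^ 2 := pow_le_pow_left₀ l0 rd2 2
    have a2 : 0 ≤ (n : ℝ) ^ 3 := by positivity
    calc (4 * 10 ^ 6 * (n : ℝ)) ^ 3 = 64 * 10 ^ 18 * (n : ℝ) ^ 3 := by ring
      _ ≤ (l : ℝ) ^ 2 := by linarith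
      _ ≤ _ := a1
      _ = _ := by ring
  have dc : 5 ≤ (d : ℝ) + 1 := le2 (by positivity) (by linarith)
  have dd : 12000 * ((d : ℝ) + 1) * n ≤ l := by
    have a1 : (0.8 * ((d : ℝ) + 1)) ^ 3 ≤ (d : ℝ) ^ 3 :=
      pow_le_pow_left₀ (by positivity) (by linarith) 3
    have a2 := mul_le_mul_of_nonneg_left db (by positivity : 0 ≤ (d : ℝ) + 1)
    have a3 : 0 ≤ ((d : ℝ) + 1) * n := by positivity
    have a4 : (0.8 * ((d : ℝ) + 1)) ^ 3 = 0.512 * (((d : ℝ) + 1) * ((d : ℝ) + 1) ^ 2) := by ring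
    linarith
  refine ⟨K, y + 1, 2000 * (d + 1), ?_, hy2, ?_, ?_, ?_, ?_, ?_, ?_⟩
  · have : (1 : ℝ) ≤ K := by linarith [Nat.cast_nonneg (α := ℝ) y]
    exact_mod_cast this
  · have a1 : (t ^ 2) ^ 2 ≤ ((y : ℝ) + 1) ^ 2 := pow_le_pow_left₀ (by positivity) (by linarith) 2
    have a2 : 256 * (K : ℝ) + 6000 ≤ ((y : ℝ) + 1) ^ 2 := by
      have a3 : (t ^ 2) ^ 2 = t ^ 4 := by ring
      linarith
    exact_mod_cast a2
  · have a1 : ((K : ℝ) + 2) ^ 2 ≤ (0.72 * t ^ 3) ^ 2 :=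
      pow_le_pow_left₀ (by positivity) (by linarith) 2
    rw [show (0.72 * t ^ 3) ^ 2 = 0.5184 * t ^ 6 by ring, ht6] at a1
    have a2 : 3 * ((K : ℝ) + 2) ^ 2 ≤ 2 * n := by linarith
    exact_mod_cast a2
  · rw [hs]
    push_cast
    linarith
  · have a1 : (y : ℝ) + 1 ≤ u := by exact_mod_cast hyu
    have a2 : (l : ℝ) * (K + 101 * (y + 1)) ≤ l * (x + 102 * u) :=
      mul_le_mul_of_nonneg_left (by linarith) l0
    have a3 : ((K : ℝ) + 101 * (y + 1)) * l ≤ p := by linarith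
    exact_mod_cast a3
  · have a1 : p < 1000 * (d + 1) * l := by
      refine lt_of_pow_lt_pow_left₀ 3 (Nat.zero_le _) (h6.trans_le ?_)
      calc 10 ^ 9 * l ^ 4 = 10 ^ 9 * l ^ 3 * l := by ring
        _ ≤ 10 ^ 9 * l ^ 3 * (d + 1) ^ 3 := Nat.mul_le_mul_left _ hd2
        _ = _ := by ring
    have a2 : (p : ℤ) < 1000 * (d + 1) * l := by exact_mod_cast a1
    have a3 : 12000 * ((d : ℤ) + 1) * n ≤ l := by exact_mod_cast dd
    have a4 := UU_ge n l (2000 * (d + 1))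
    generalize UU n l (2000 * (d + 1)) = U at a4 ⊢
    push_cast at a4
    have a7 := mul_le_mul_of_nonneg_left a3 (by positivity : (0 : ℤ) ≤ 1000 * (d + 1))
    have a8 : (0 : ℤ) ≤ (d : ℤ) * n := by positivity
    have a9 : (0 : ℤ) ≤ (d : ℤ) * d * n := by positivity
    have a10 : (0 : ℤ) ≤ (n : ℤ) := by positivity
    linarith
  · have a1 := last (k := 2000 * ((d : ℝ) + 1)) ht ht6 x2 xa ya Ka Kb Kc (by positivity)
      (by linarith)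
    exact_mod_cast a1

end Pool.Agent.P.MP_390d44_co.Fb
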