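import Pool.Agent.P.MP_390d44_co.Fb.If2

/-! Step CON. -/

namespace Pool.Agent.P.MP_390d44_co.Fb

open Finset Pool.Agent.P.MP_390d44_co

namespace CONc

/-- the point of the conic with parameter `i`. -/
noncomputable def bv (i : ℕ) : V := ![1, (i : ℝ), (i : ℝ) ^ 2, 0]

/-- the point at infinity of slope `a`. -/
noncomputable def qv (a : ℕ) : V := ![0, 1, (a : ℝ), 0]

noncomputable def kp (j : Fin 4) : Sub := LinearMap.ker (LinearMap.proj j : V →ₗ[ℝ] ℝ)

lemma mem_kp (j : Fin 4) (v : V) : v ∈ kp j ↔ v j = 0 := by simp [kp]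

lemma rk_kp (j : Fin 4) : rk (kp j) = 3 := by
  have h3 := (LinearMap.proj j : V →ₗ[ℝ] ℝ).finrank_range_add_finrank_ker
  have h4 : LinearMap.range (LinearMap.proj j : V →ₗ[ℝ] ℝ) = ⊤ :=
    LinearMap.range_eq_top.2 fun x => ⟨fun _ => x, rfl⟩
  have h5 : Module.finrank ℝ V = 4 := by simp
  rw [h4, finrank_top, Module.finrank_self, h5] at h3
  have : rk (kp j) = Module.finrank ℝ (LinearMap.ker (LinearMap.proj j : V →ₗ[ℝ] ℝ)) := rfl
  omega

lemma rk_span {v : V} (h : v ≠ 0) : rk (Submodule.span ℝ {v}) = 1 := finrank_span_singleton h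

lemma bv_ne (i : ℕ) : bv i ≠ 0 := fun e => by simpa [bv] using congrFun e 0

lemma qv_ne (a : ℕ) : qv a ≠ 0 := fun e => by simpa [qv] using congrFun e 1

lemma b_inj : Function.Injective fun i => Submodule.span ℝ {bv i} := by
  intro i j e
  have h : bv i ∈ Submodule.span ℝ {bv j} := by
    simp only at e
    rw [← e]; exact Submodule.mem_span_singleton_self _
  obtain ⟨x, hx⟩ := Submodule.mem_span_singleton.1 h
  have h0 := congrFun hx 0
  have h1 := congrFun hx 1
  simp [bv] at h0 h1
  rw [h0, one_mul] at h1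
  exact_mod_cast h1.symm

lemma q_inj : Function.Injective fun i => Submodule.span ℝ {qv i} := by
  intro i j e
  have h : qv i ∈ Submodule.span ℝ {qv j} := by
    simp only at e
    rw [← e]; exact Submodule.mem_span_singleton_self _
  obtain ⟨x, hx⟩ := Submodule.mem_span_singleton.1 h
  have h0 := congrFun hx 1
  have h1 := congrFun hx 2
  simp [qv] at h0 h1
  rw [h0, one_mul] at h1
  exact_mod_cast h1.symm

lemma le_pair (v a b : V) : Submodule.span ℝ {v} ≤ Submodule.span ℝ {a} ⊔ Submodule.span ℝ {b} ↔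
    ∃ x y : ℝ, x • a + y • b = v := by
  rw [Submodule.span_singleton_le_iff_mem, ← Submodule.span_insert, Submodule.mem_span_pair]

end CONc

open CONc in
theorem p_CON :
    S_CON := by
  intro K t hKt
  refine ⟨(range K).image fun i => Submodule.span ℝ {bv i},
    (range t).image fun i => Submodule.span ℝ {qv i}, kp 0, kp 3,
    ⟨rk_kp 0, rk_kp 3, ?_, ?_, ?_, ?_, ?_, ?_, ?_⟩, ?_, ?_⟩
  · intro e
    have h : bv 0 ∈ kp 3 := by rw [mem_kp]; simp [bv]
    rw [← e, mem_kp] at h
    simp [bv] at h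
  · intro x hx
    obtain ⟨i, -, rfl⟩ := mem_image.1 hx
    exact rk_span (bv_ne i)
  · intro x hx
    obtain ⟨i, -, rfl⟩ := mem_image.1 hx
    exact rk_span (qv_ne i)
  · intro x hx
    obtain ⟨i, -, rfl⟩ := mem_image.1 hx
    rw [Submodule.span_singleton_le_iff_mem, Submodule.span_singleton_le_iff_mem, mem_kp, mem_kp]
    simp [bv]
  · intro x hx
    obtain ⟨i, -, rfl⟩ := mem_image.1 hx
    rw [Submodule.span_singleton_le_iff_mem, Submodule.span_singleton_le_iff_mem, mem_kp, mem_kp]
    simp [qv]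
  · intro b hb b' hb' hne
    obtain ⟨i, hi, rfl⟩ := mem_image.1 hb
    obtain ⟨j, hj, rfl⟩ := mem_image.1 hb'
    have hij : (j : ℝ) - i ≠ 0 := fun e => hne (by
      have : i = j := by exact_mod_cast (sub_eq_zero.1 e).symm
      rw [this])
    rw [mem_range] at hi hj
    refine ⟨_, mem_image_of_mem _ (mem_range.2 (by omega : i + j < t)), (le_pair _ _ _).2
      ⟨-((j : ℝ) - i)⁻¹, ((j : ℝ) - i)⁻¹, ?_⟩⟩
    funext k
    fin_cases k
    · simp [bv, qv]
    · simp [bv, qv]; field_simp; ring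
    · simp [bv, qv]; field_simp; ring
    · simp [bv, qv]
  · intro b hb b' hb' x hx hne hle
    obtain ⟨i, -, rfl⟩ := mem_image.1 hb
    obtain ⟨j, -, rfl⟩ := mem_image.1 hb'
    obtain ⟨k, -, rfl⟩ := mem_image.1 hx
    obtain ⟨x, y, h⟩ := (le_pair _ _ _).1 hle
    have h0 := congrFun h 0
    have h1 := congrFun h 1
    have h2 := congrFun h 2
    simp [bv] at h0 h1 h2
    have : ((k : ℝ) - i) * ((k : ℝ) - j) = 0 := by
      linear_combination (-1 : ℝ) * h2 + ((i : ℝ) + j) * h1 - (i : ℝ) * j * h0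
    rcases mul_eq_zero.1 this with e | e
    · left
      have : k = i := by exact_mod_cast sub_eq_zero.1 e
      rw [this]
    · right
      have : k = j := by exact_mod_cast sub_eq_zero.1 e
      rw [this]
  · rw [card_image_of_injective _ b_inj, card_range]
  · rw [card_image_of_injective _ q_inj, card_range]

end Pool.Agent.P.MP_390d44_co.Fb
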