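import Pool.Agent.P.MP_390d44_co.Fb.If2

/-! Step CONT. -/

namespace Pool.Agent.P.MP_390d44_co.Fb

open Finset Pool.Agent.P.MP_390d44_co

namespace CONTc

lemma step {n l i : ℕ} (h : i + 1 ≤ n) : UU n l (i + 1) ≤ UU n l i + l := by
  have a : 2 * ((i + 2).choose 2 : ℤ) + (i + 2 : ℕ) = (i + 2 : ℕ) * (i + 2 : ℕ) := by
    exact_mod_cast two_choose (i + 2)
  have b : (i : ℤ) + 1 ≤ n := by exact_mod_cast h
  have c : (0 : ℤ) ≤ i := Int.natCast_nonneg i
  rw [UU_succ]
  push_cast at a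
  nlinarith

lemma top {n l : ℕ} (i : ℕ) (h : i ≤ n) : UU n l i ≤ i * l := by
  induction i with
  | zero => simp [UU]
  | succ i ih =>
    have := step (l := l) h
    have := ih (by omega)
    push_cast
    linarith

end CONTc

theorem p_CONT (hINB : S_INB) (hCNUM : S_CNUM) :
    S_CONT := by
  intro n l p D u hD hn hl h2 hu hp hF
  have t := two_choose n
  rcases le_or_gt (10 ^ 9 * l ^ 4) (p ^ 3) with c | c
  · have : n ≠ 1 := by
      rintro rfl
      simp at hD
      omega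
    exact inn n l p D hD (by omega) (by omega) c hF
  obtain ⟨K, v, k1, a1, a2, a3, a4, a5, a6, a7, a8⟩ := hCNUM n l p u (by omega) hn hl hu hp c
  have n0 : (0 : ℝ) < n := by exact_mod_cast hn
  have hk1 : k1 ≤ n := by
    have e : (n : ℝ) * k1 ≤ n * n := by
      have : (l : ℝ) ≤ n * n := by exact_mod_cast (by omega : l ≤ n * n)
      have : (0 : ℝ) ≤ n * k1 := by positivity
      have : (0 : ℝ) ≤ n * Real.sqrt n := by positivity
      nlinarith
    exact_mod_cast le_of_mul_le_mul_left e n0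
  have ex : ∃ k, (p : ℤ) ≤ UU n l k - 5 * n := ⟨k1, a7⟩
  have b1 := Nat.find_spec ex
  have b2 : Nat.find ex ≤ k1 := Nat.find_min' ex a7
  have b3 := fun i => @Nat.find_min _ _ ex i
  generalize Nat.find ex = k at b1 b2 b3
  have b4 : K + 101 * v < k := by
    have e1 := CONTc.top (l := l) k (b2.trans hk1)
    have e2 : (p : ℤ) < ((k * l : ℕ) : ℤ) := by
      push_cast
      omega
    exact lt_of_mul_lt_mul_right (a6.trans_lt (by exact_mod_cast e2)) (Nat.zero_le l)
  obtain ⟨i, rfl⟩ : ∃ i, k = i + 1 := ⟨k - 1, by omega⟩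
  refine hINB n l p D (i + 1) K v hD a1 b4.le a2 a3 (a4.trans h2) (le_trans ?_ a5) ?_ b1
  · have : ((i + 1 : ℕ) : ℝ) ≤ k1 := by exact_mod_cast b2
    gcongr
  · have e1 := CONTc.step (l := l) (b2.trans hk1)
    have e2 := b3 i (by omega)
    have e3 : ((i + 1 : ℕ) : ℤ) ≤ k1 := by exact_mod_cast b2
    have e4 : (1 : ℤ) ≤ K := by exact_mod_cast a1
    have e5 : (0 : ℤ) ≤ (k1 - (i + 1 : ℕ)) * (K ^ 2 - K) := mul_nonneg (by linarith) (by nlinarith)
    linarith

end Pool.Agent.P.MP_390d44_co.Fb
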