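import Pool.Agent.P.MP_390d44_co.Fb.If2

/-! Step CPL. -/

namespace Pool.Agent.P.MP_390d44_co.Fb

open Finset Pool.Agent.P.MP_390d44_co

namespace CPLc

end CPLc

theorem p_CPL :
    S_CPL := by
  intro X c hX hc
  have hY : X \ off X c ⊆ X := sdiff_subset
  have hp : ∀ y ∈ X \ off X c, y ≤ c := fun y hy => by
    by_contra e
    exact (mem_sdiff.1 hy).2 (mem_off.2 ⟨hY hy, e⟩)
  generalize hZ : X \ off X c = Y at hY hp
  unfold Nice
  rw [hZ]
  refine ⟨?_, fun b hb => ?_⟩
  · rcases Y.eq_empty_or_nonempty with rfl | h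
    · simp [planes, lines]
    · exact (planes_le_one hc hp).trans (card_pos.2 h)
  obtain ⟨ha, hap⟩ := mem_off.1 hb
  refine ⟨⟨Y, Subset.rfl, by omega, fun x hx y hy e => ?_⟩, ?_⟩
  · exact pt_unique (rk_pp (hX b ha) (hX x (hY hx)) fun e => hap (e ▸ hp x hx))
      (fun e => hap (le_sup_left.trans e)) (hX y (hY hy)) (hX x (hY hx)) e le_sup_right
      (hp y hy) (hp x hx)
  have le : ∀ l ∈ lines Y, l ≤ c := fun l hl => line_le_of_pts hl fun x hx _ => hp x hx
  have : (lines Y).card ≤ (pth X b).card := by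
    refine card_le_card_of_injOn (b ⊔ ·) (fun l hl => mem_coe.2 (mem_filter.2
      ⟨sup_mem_planes hX ha (lines_mono hY hl) fun e => hap (e.trans (le l hl)), le_sup_left⟩))
      fun l hl l' hl' e => ?_
    by_contra hne
    have e : b ⊔ l = b ⊔ l' := e
    have r := rk_pl (hX b ha) (rk_line hl) fun e => hap (e.trans (le l hl))
    have := plane_eq' r (rk_line hl) (rk_line hl') hne le_sup_right (e ▸ le_sup_right)
    exact hap (le_sup_left.trans (this.symm.le.trans (sup_le (le l hl) (le l' hl'))))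
  omega

end Pool.Agent.P.MP_390d44_co.Fb
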