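import Pool.Agent.P.MP_390d44_co.Fb.If2

/-! Step FIB. -/

namespace Pool.Agent.P.MP_390d44_co.Fb

open Finset Pool.Agent.P.MP_390d44_co

namespace FIBc

end FIBc

theorem p_FIB :
    S_FIB := by
  intro B f h
  have h1 : (B.offDiag.filter fun q => f q.1 = f q.2).card =
      ∑ v ∈ B.image f, (B.filter fun a => f a = v).offDiag.card := by
    rw [card_eq_sum_card_fiberwise (f := fun q => f q.1) (t := B.image f) fun q hq =>
      mem_coe.2 (mem_image_of_mem f (mem_offDiag.1 (mem_filter.1 (mem_coe.1 hq)).1).1)]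
    refine sum_congr rfl fun v _ => congrArg card (ext fun q => ?_)
    simp only [mem_filter, mem_offDiag]
    exact ⟨fun ⟨⟨⟨a, b, c⟩, d⟩, e⟩ => ⟨⟨a, e⟩, ⟨b, d ▸ e⟩, c⟩,
      fun ⟨⟨a, e⟩, ⟨b, d⟩, c⟩ => ⟨⟨⟨a, b, c⟩, e.trans d.symm⟩, e⟩⟩
  rw [h1, card_eq_sum_card_image f B, card_eq_sum_ones (B.image f), mul_sum, mul_sum,
    ← sum_add_distrib]
  refine sum_congr rfl fun v hv => ?_
  obtain ⟨a, ha, e⟩ := mem_image.1 hv
  have h2 : 0 < (B.filter fun a => f a = v).card := card_pos.2 ⟨a, mem_filter.2 ⟨ha, e⟩⟩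
  have h3 : ¬ 2 < (B.filter fun a => f a = v).card := fun g => by
    obtain ⟨x, hx, y, hy, z, hz, n1, n2, n3⟩ := two_lt_card.1 g
    rw [mem_filter] at hx hy hz
    rcases h x hx.1 y hy.1 z hz.1 n1 (hx.2.trans hy.2.symm) (hz.2.trans hx.2.symm) with g | g
    exacts [n2 g.symm, n3 g.symm]
  rw [offDiag_card]
  obtain g | g : (B.filter fun a => f a = v).card = 1 ∨ (B.filter fun a => f a = v).card = 2 := by
    omega
  all_goals (rw [g]; rfl)

end Pool.Agent.P.MP_390d44_co.Fb
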