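import Pool.Agent.P.MP_390d44_co.Fb.If2

/-! Step GA. -/

namespace Pool.Agent.P.MP_390d44_co.Fb

open Finset Pool.Agent.P.MP_390d44_co

namespace GAc

lemma cone {X Y : Finset Sub} {a p : Sub} (hX : IsPts X) (hY : Y ⊆ X) (ha : a ∈ X)
    (hap : ¬ a ≤ p) (hYp : ∀ y ∈ Y, y ≤ p) : (lines Y).card ≤ (pth X a).card := by
  have le : ∀ l ∈ lines Y, l ≤ p := fun l hl => line_le_of_pts hl fun x hx _ => hYp x hx
  refine card_le_card_of_injOn (a ⊔ ·) (fun l hl => mem_filter.2 ⟨sup_mem_planes hX ha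
    (lines_mono hY hl) fun e => hap (e.trans (le l hl)), le_sup_left⟩) fun l hl l' hl' e => ?_
  by_contra hne
  have e : a ⊔ l = a ⊔ l' := e
  have r := rk_pl (hX a ha) (rk_line hl) fun e => hap (e.trans (le l hl))
  have := plane_eq' r (rk_line hl) (rk_line hl') hne le_sup_right (e ▸ le_sup_right)
  exact hap (le_sup_left.trans (this.symm.le.trans (sup_le (le l hl) (le l' hl'))))

end GAc

theorem p_GA (hPOOR : S_POOR) (hPRJ1 : S_PRJ1) :
    S_GA := by
  intro X k hX h2 h hk
  obtain ⟨a, ha, a', ha', haa⟩ := one_lt_card.1 h2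
  have hn : 2400 ≤ X.card := by
    have e1 := h _ (sup_mem_lines hX ha ha' haa)
    have e2 := two_le_pts hX (sup_mem_lines hX ha ha' haa)
    omega
  have hl : 2 * (lines X).card ≤ X.card * X.card := by
    obtain ⟨D, hD, -⟩ := p_DD X hX
    have := two_choose X.card
    omega
  by_cases hA : ∃ c, rk c = 3 ∧ X.card ≤ 2 * (pts X c).card
  · obtain ⟨c, hc, hm⟩ := hA
    refine ⟨off X c, off_sub, by have := hk c hc; omega, fun b hb => ?_⟩
    have sub : pts X c ⊆ X := pts_sub
    have h1 := lines_quad (hX.mono sub) (by omega) fun l hl => by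
      have := h l (lines_mono sub hl)
      have : (pts (pts X c) l).card ≤ (pts X l).card :=
        card_le_card (filter_subset_filter _ sub)
      omega
    have h3 := GAc.cone hX sub (mem_filter.1 hb).1 (mem_filter.1 hb).2 fun y hy => (mem_pts.1 hy).2
    have h4 := Nat.mul_le_mul hm hm
    nlinarith
  push Not at hA
  obtain ⟨G, hG, hc, hb⟩ := hPOOR X hX (by omega) fun l hl => by have := h l hl; omega
  obtain ⟨H, hH, -⟩ := exists_plane_avoid (hX a ha)
  refine ⟨G, hG, ((hk H hH).trans (card_le_card off_sub)).trans hc, fun b hbG => ?_⟩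
  obtain ⟨Z, hZ, hbZ, h7, hW⟩ := hb b hbG
  have r1 := hW Z subset_rfl
  have r2 : 2 ≤ (ray b Z).card := by
    by_contra hr
    obtain ⟨z, hz⟩ : Z.Nonempty := card_pos.1 (by omega)
    have hne : b ≠ z := fun e => hbZ (e ▸ hz)
    have e1 := h _ (sup_mem_lines hX (hG hbG) (hZ hz) hne)
    have e2 : Z.card ≤ (pts X (b ⊔ z)).card := card_le_card fun y hy => mem_pts.2 ⟨hZ hy, by
      have : b ⊔ y = b ⊔ z := card_le_one.1 (by omega : (ray b Z).card ≤ 1) _
        (mem_image_of_mem _ hy) _ (mem_image_of_mem _ hz)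
      rw [← this]; exact le_sup_right⟩
    omega
  have h5 := hPRJ1 X Z b (X.card / 300000 + 1) hX (hG hbG) hZ hbZ r2 fun c hc _ => by
    have e1 := hA c hc
    have e2 := card_pts_off Z c
    have e3 : (pts Z c).card ≤ (pts X c).card := card_le_card (filter_subset_filter _ hZ)
    have e4 := hW (off Z c) off_sub
    omega
  have e1 : X.card ≤ 300000 * (X.card / 300000 + 1) := by omega
  have e2 : 7 * X.card ≤ 600000 * (ray b Z).card := by omega
  have e3 := Nat.mul_le_mul e1 e2
  nlinarith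

end Pool.Agent.P.MP_390d44_co.Fb
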