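import Pool.Agent.P.MP_390d44_co.Fb.If2

/-! Step GAP. -/

namespace Pool.Agent.P.MP_390d44_co.Fb

open Finset Pool.Agent.P.MP_390d44_co

namespace GAPc

lemma mono {n l a b : ℕ} (h : a ≤ b) (hb : 3 * b * n ≤ l) :
    UU n l a - a ^ 2 * n ≤ UU n l b - b ^ 2 * n := by
  induction b, h using Nat.le_induction with
  | base => exact le_rfl
  | succ b h ih =>
    have h1 := ih (le_trans (Nat.mul_le_mul_right _ (by omega)) hb)
    have h2 : 3 * ((b : ℤ) + 1) * n ≤ l := by exact_mod_cast hb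
    have h3 : (0 : ℤ) ≤ ((b + 2).choose 2 : ℕ) := Int.natCast_nonneg _
    have h4 : (0 : ℤ) ≤ n := Int.natCast_nonneg _
    rw [UU_succ]
    push_cast at h3 ⊢
    linarith

lemma top {n l j : ℕ} (h : j ≤ n) (hn : 1 ≤ n) : UU n l j ≤ j * l := by
  have a := c2 (j + 1)
  have b := c3 (j + 2)
  have h1 : (j : ℤ) ≤ n := by exact_mod_cast h
  have h2 : (1 : ℤ) ≤ n := by exact_mod_cast hn
  have h3 : (0 : ℤ) ≤ ((j + 1).choose 2 : ℕ) := Int.natCast_nonneg _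
  have h4 : 3 * (((j + 2).choose 3 : ℕ) : ℤ) = ((j + 1).choose 2 : ℕ) * (j + 2) := by
    push_cast at a b ⊢
    have : (2 : ℤ) ≠ 0 := by norm_num
    apply mul_left_cancel₀ this
    linear_combination b - (j + 2) * a
  have h5 := mul_le_mul_of_nonneg_left (show (j : ℤ) + 2 ≤ 3 * n by linarith) h3
  simp only [UU]
  linarith

lemma arith {n l p j k : ℕ} (hn : 1 ≤ n) (hl : l ≤ n.choose 2) (h : 10 ^ 51 * (j + 1) * n ≤ l)
    (hk : k * l ≤ 10 ^ 50 * p) (h1 : UU n l k - k ^ 2 * n ≤ p)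
    (h2 : (p : ℤ) ≤ UU n l k + n + 2 * k ^ 3) :
    (p : ℤ) ≤ UU n l j + n + 2 * j ^ 3 ∨ UU n l (j + 1) - (j + 1) ^ 2 * n ≤ p := by
  rw [or_iff_not_imp_right]
  intro hp
  push Not at hp
  have e1 : n.choose 2 ≤ n * n := by
    have := two_choose n
    omega
  have e2 : j + 1 ≤ n := by
    have : 10 ^ 51 * (j + 1) ≤ n := Nat.le_of_mul_le_mul_right (h.trans (hl.trans e1)) hn
    omega
  have e3 := top (l := l) e2 hn
  have e4 : p ≤ (j + 1) * l := by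
    have : (0 : ℤ) ≤ ((j : ℤ) + 1) ^ 2 * n := by positivity
    have : (p : ℤ) ≤ ((j + 1 : ℕ) : ℤ) * l := by linarith
    exact_mod_cast this
  have e5 : 0 < l := lt_of_lt_of_le (by positivity) h
  have e6 : k ≤ 10 ^ 50 * (j + 1) := by
    refine Nat.le_of_mul_le_mul_right (hk.trans ?_) e5
    rw [mul_assoc]
    exact Nat.mul_le_mul_left _ e4
  rcases le_or_gt k j with hkj | hkj
  · have e7 := mono (n := n) (l := l) hkj (le_trans (Nat.mul_le_mul_right _ (by omega)) h)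
    have e8 : (k : ℤ) ≤ j := by exact_mod_cast hkj
    have e9 : (k : ℤ) ^ 3 ≤ j ^ 3 := pow_le_pow_left₀ (Int.natCast_nonneg _) e8 3
    have e10 : (k : ℤ) ^ 2 * n ≤ j ^ 2 * n := mul_le_mul_of_nonneg_right
      (pow_le_pow_left₀ (Int.natCast_nonneg _) e8 2) (Int.natCast_nonneg _)
    linarith
  · have e7 := mono (n := n) (l := l) (a := j + 1) hkj
      (le_trans (Nat.mul_le_mul_right _ (by omega)) h)
    push_cast at e7
    linarith

end GAPc

theorem p_GAP (hLUND : S_LUND) (hBOUT : S_BOUT) (hCPL : S_CPL) (hCLL : S_CLL) :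
    S_GAP := by
  rintro n l p j ⟨X, hX, rfl, rfl, rfl⟩ hn h
  obtain ⟨B, hB, hk⟩ := hLUND X hX
  obtain ⟨D, hD, -⟩ := p_DD X hX
  have hN : B ⊆ X ∧ Nice X B := by
    rcases hB with ⟨c, hc, rfl⟩ | ⟨L, M, hL, hM, hLM, rfl⟩
    · exact ⟨off_sub, hCPL X c hX hc⟩
    · exact ⟨off_sub.trans off_sub, hCLL X L M hX hL hM hLM⟩
  obtain ⟨h1, h2⟩ := hBOUT X B hX hN.1 hN.2
  exact GAPc.arith hn (by omega) h hk h1 h2

end Pool.Agent.P.MP_390d44_co.Fb
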