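import Pool.Agent.P.MP_390d44_co.Fb.If2

/-! Step GB. -/

namespace Pool.Agent.P.MP_390d44_co.Fb

open Finset Pool.Agent.P.MP_390d44_co

namespace GBc

lemma cnt {X : Finset Sub} {L : Sub} (hX : IsPts X) (hL : rk L = 2) :
    (lines X).card ≤ (off X L).card * X.card + 1 := by
  classical
  have h : lines X ⊆ insert L (image₂ (· ⊔ ·) (off X L) X) := by
    intro g hg
    obtain ⟨r, a, ha, b, hb, e, h1, h2⟩ := (mem_lines hX).1 hg
    by_cases k1 : a ≤ L
    · by_cases k2 : b ≤ L
      · exact mem_insert.2 (Or.inl (lines_eq r hL (hX a ha) (hX b hb) e h1 h2 k1 k2))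
      · exact mem_insert_of_mem (mem_image₂.2 ⟨b, mem_off.2 ⟨hb, k2⟩, a, ha,
          line_eq r (hX b hb) (hX a ha) e.symm h2 h1⟩)
    · exact mem_insert_of_mem (mem_image₂.2 ⟨a, mem_off.2 ⟨ha, k1⟩, b, hb,
        line_eq r (hX a ha) (hX b hb) e h1 h2⟩)
  exact (card_le_card h).trans ((card_insert_le _ _).trans
    (Nat.add_le_add_right (card_image₂_le _ _ _) 1))

end GBc

theorem p_GB (hRHO : S_RHO) (hPRJ2 : S_PRJ2) :
    S_GB := by
  intro X L k hX hL ha hk
  have rL : rk L = 2 := ((mem_lines hX).1 hL).1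
  obtain ⟨G, hG, h3, hb⟩ := hRHO X L k hX rL hk
  refine ⟨G, hG.trans off_sub, h3, fun b hbG => ?_⟩
  have hb1 := hb b hbG
  obtain ⟨bX, bL⟩ := mem_off.1 (hG hbG)
  have hN : 1 ≤ (off X L).card := card_pos.2 ⟨b, hG hbG⟩
  have hNn : (off X L).card ≤ X.card := card_le_card off_sub
  have h2 := hPRJ2 X b L (min (pts X L).card (ray b (off X (b ⊔ L))).card) hX bX rL bL
    (min_le_left _ _) (min_le_right _ _)
  have hc := GBc.cnt hX rL
  have hz : (off X L).card ≤ 100000 * min (pts X L).card (ray b (off X (b ⊔ L))).card := by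
    rcases le_total (pts X L).card (ray b (off X (b ⊔ L))).card with h | h
    · rw [min_eq_left h]; omega
    · rw [min_eq_right h]; omega
  generalize min (pts X L).card (ray b (off X (b ⊔ L))).card = z at h2 hz
  have h5 : (off X L).card * X.card ≤ (100000 * z) * (1200 * (pts X L).card) :=
    Nat.mul_le_mul hz ha.le
  have h6 : 1 * 1 ≤ (off X L).card * X.card := Nat.mul_le_mul hN (by omega)
  have h7 : (100000 * z) * (1200 * (pts X L).card) = 120000000 * ((pts X L).card * z) := by ring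
  omega

end Pool.Agent.P.MP_390d44_co.Fb
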