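import Pool.Agent.P.MP_390d44_co.Fb.If2

/-! Step GLP. -/

namespace Pool.Agent.P.MP_390d44_co.Fb

open Finset Pool.Agent.P.MP_390d44_co

namespace GLPc

variable {B Q Y : Finset Sub} {c s : Sub}

lemma cut (hC : Con B Q c s) (hM : Mk Q c s Y) {b g : Sub} (hb : b ∈ B) (hg : g ∈ lines Y) :
    ¬ b ≤ g ∧ rk (b ⊔ g) = 3 ∧ c ⊓ (b ⊔ g) = g := by
  have h1 : g ≤ c := line_le_of_pts hg fun x hx _ => hM.inc x hx
  have h2 : ¬ b ≤ g := fun e => (hC.inB b hb).2 (e.trans h1)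
  have h3 := rk_pl (hC.pB b hb) (rk_line hg) h2
  have h4 := rk_lt (inf_le_right : c ⊓ (b ⊔ g) ≤ b ⊔ g) fun e =>
    (hC.inB b hb).2 (le_sup_left.trans (e.trans inf_le_left))
  exact ⟨h2, h3, (eq_of_rk (le_inf h1 le_sup_right) (by rw [rk_line hg]; omega)).symm⟩

lemma two (hC : Con B Q c s) (hM : Mk Q c s Y) (hQ : 2 ≤ Q.card) {P b : Sub}
    (hP : P ∈ planes (B ∪ Y)) (hb : b ∈ B) (hbP : b ≤ P) :
    ∃ y ∈ Y, ∃ y' ∈ Y, y ≠ y' ∧ y ≤ P ∧ y' ≤ P := by
  have hQY : Q ⊆ Y := hM.tr ▸ pts_sub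
  by_cases h : ∃ b' ∈ B, b' ≤ P ∧ b ≠ b'
  · obtain ⟨b', hb', h1, h2⟩ := h
    obtain ⟨q, hq, h3⟩ := hC.chord b hb b' hb' h2
    have h4 := rk_pp (hC.pB b hb) (hC.pB b' hb') h2
    obtain ⟨x, hx, h5, h6⟩ := exists_off hP h4.le
    rcases mem_union.1 hx with hx | hx
    · obtain rfl := planes_eq (rk_plane hP) hC.rs (hC.pB x hx) h4 h6 h5 (sup_le hbP h1)
        (hC.inB x hx).1 (sup_le (hC.inB b hb).1 (hC.inB b' hb').1)
      obtain ⟨y, hy, y', hy', e⟩ := one_lt_card.1 hQ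
      exact ⟨y, hQY hy, y', hQY hy', e, (hC.inQ y hy).2, (hC.inQ y' hy').2⟩
    · exact ⟨q, hQY hq, x, hx, fun e => h6 (e ▸ h3), h3.trans (sup_le hbP h1), h5⟩
  · push Not at h
    have h1 := hC.pB b hb
    obtain ⟨x, hx, h2, h3⟩ := exists_off hP (l := b) (by omega)
    have hx' := (mem_union.1 hx).resolve_left fun e => h3 (h x e h2).ge
    have h4 := rk_sup_le b x
    have h5 := hM.ip x hx'
    obtain ⟨y, hy, h6, h7⟩ := exists_off hP (l := b ⊔ x) (by omega)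
    exact ⟨x, hx', y, (mem_union.1 hy).resolve_left fun e => h7 ((h y e h6).ge.trans le_sup_left),
      fun e => h7 (e ▸ le_sup_right), h2, h6⟩

lemma pair (hC : Con B Q c s) (hM : Mk Q c s Y) (h0 : rk (c ⊓ s) = 2) {b b' : Sub} (hb : b ∈ B)
    (hb' : b' ∈ B) (e : b ≠ b') :
    (((lines Y).erase (c ⊓ s)).filter fun g => b ⊔ g = b' ⊔ g).card = (off Y s).card := by
  obtain ⟨q, hq, h1⟩ := hC.chord b hb b' hb' e
  have hqY : q ∈ Y := (hM.tr ▸ pts_sub : Q ⊆ Y) hq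
  have rq := hC.pQ q hq
  have h2 : b ⊔ q = b ⊔ b' := line_eq (rk_pp (hC.pB b hb) (hC.pB b' hb') e) (hC.pB b hb) rq
    (fun e => (hC.inB b hb).2 (e ▸ (hC.inQ q hq).1)) le_sup_left h1
  rw [← card_image_of_injOn (f := (q ⊔ ·))
    fun y hy y' hy' e => (hM.gn q hq y hy y' hy' (le_sup_right.trans (Eq.ge e))).symm]
  congr 1
  ext g
  simp only [mem_filter, mem_erase, mem_image, mem_off]
  constructor
  · rintro ⟨⟨h3, hg⟩, h4⟩
    have h5 : q ≤ g := (cut hC hM hb hg).2.2 ▸ le_inf (hC.inQ q hq).1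
      (h1.trans (sup_le le_sup_left (h4 ▸ le_sup_left)))
    obtain ⟨y, hy, h6, h7⟩ := exists_ne hM.ip hg q
    have h8 := line_eq (rk_line hg) rq (hM.ip y hy) h7.symm h5 h6
    refine ⟨y, ⟨hy, fun h9 => h3 (eq_of_rk ?_ (by rw [h0, rk_line hg]))⟩, h8⟩
    rw [← h8]
    exact sup_le (le_inf (hC.inQ q hq).1 (hC.inQ q hq).2) (le_inf (hM.inc y hy) h9)
  · rintro ⟨y, ⟨hy, h3⟩, rfl⟩
    have hg := sup_mem_lines hM.ip hqY hy fun e => h3 (e ▸ (hC.inQ q hq).2)
    refine ⟨⟨fun e => h3 (le_sup_right.trans (e.le.trans inf_le_right)), hg⟩,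
      (eq_of_rk (sup_le ?_ le_sup_right) ?_).symm⟩
    · exact (le_sup_right.trans h2.ge).trans (sup_le_sup_left le_sup_left _)
    · rw [(cut hC hM hb hg).2.1, (cut hC hM hb' hg).2.1]

end GLPc

open GLPc in
theorem p_GLP (hFIB : S_FIB) :
    S_GLP := by
  intro B Q Y c s hC hM hB hQ hY
  have hQY : Q ⊆ Y := hM.tr ▸ pts_sub
  have hX : IsPts (B ∪ Y) := fun x hx => (mem_union.1 hx).elim (hC.pB x) (hM.ip x)
  have h0 : rk (c ⊓ s) = 2 := by
    have h1 := rk_sup_inf c s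
    have h2 := rk_le_four (c ⊔ s)
    have h3 := rk_lt (inf_le_left : c ⊓ s ≤ c) fun e =>
      hC.ne (eq_of_rk (e.trans inf_le_right) (by rw [hC.rc, hC.rs]))
    rw [hC.rc] at h3
    rw [hC.rc, hC.rs] at h1
    omega
  have g0 : c ⊓ s ∈ lines Y := by
    obtain ⟨y, hy, y', hy', e⟩ := one_lt_card.1 hQ
    exact (mem_lines hM.ip).2 ⟨h0, y, hQY hy, y', hQY hy', e,
      le_inf (hC.inQ y hy).1 (hC.inQ y hy).2, le_inf (hC.inQ y' hy').1 (hC.inQ y' hy').2⟩
  have hP : planes (B ∪ Y) = insert c ((lines Y).biUnion fun g => B.image (· ⊔ g)) := by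
    ext P
    simp only [mem_insert, mem_biUnion, mem_image]
    constructor
    · intro hP
      refine or_iff_not_imp_left.2 fun h => ?_
      obtain ⟨b, hb, hbP⟩ : ∃ b ∈ B, b ≤ P := by
        by_contra hn
        refine h (eq_of_rk (plane_le_of_pts hP fun x hx e => hM.inc x ?_)
          (by rw [hC.rc, rk_plane hP]))
        exact (mem_union.1 hx).resolve_left fun hb => hn ⟨x, hb, e⟩
      obtain ⟨y, hy, y', hy', e, h1, h2⟩ := two hC hM hQ hP hb hbP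
      have hg := sup_mem_lines hM.ip hy hy' e
      exact ⟨_, hg, b, hb, plane_eq (rk_plane hP) (hC.pB b hb) (rk_line hg) (cut hC hM hb hg).1 hbP
        (sup_le h1 h2)⟩
    · rintro (rfl | ⟨g, hg, b, hb, rfl⟩)
      · have h1 := card_pts_off Y s
        rw [hM.tr] at h1
        obtain ⟨y, hy⟩ := card_pos.1 (show 0 < (off Y s).card by omega)
        obtain ⟨hy, h2⟩ := mem_off.1 hy
        exact (mem_planes hX).2 ⟨hC.rc, y, mem_union_right _ hy, _,
          lines_mono subset_union_right g0, fun e => h2 (e.trans inf_le_right), hM.inc y hy,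
          inf_le_left⟩
      · exact sup_mem_planes hX (mem_union_left _ hb) (lines_mono subset_union_right hg)
          (cut hC hM hb hg).1
  have h1 : (B.image (· ⊔ (c ⊓ s))).card = 1 := by
    obtain ⟨b, hb⟩ := card_pos.1 hB
    have : ∀ b ∈ B, b ⊔ (c ⊓ s) = s := fun b hb =>
      plane_eq hC.rs (hC.pB b hb) h0 (cut hC hM hb g0).1 (hC.inB b hb).1 inf_le_right
    refine card_eq_one.2 ⟨s, eq_singleton_iff_unique_mem.2 ⟨mem_image.2 ⟨b, hb, this b hb⟩, ?_⟩⟩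
    intro x hx
    obtain ⟨b, hb, rfl⟩ := mem_image.1 hx
    exact this b hb
  have h2 := sum_congr rfl fun g (hg : g ∈ (lines Y).erase (c ⊓ s)) =>
    hFIB B (· ⊔ g) fun a ha b hb x hx e e1 e2 => by
      by_contra hn
      obtain ⟨h3, hg⟩ := mem_erase.1 hg
      obtain ⟨-, h4, h5⟩ := cut hC hM ha hg
      refine h3 ?_
      rw [← h5, planes_eq h4 hC.rs (hC.pB x hx) (rk_pp (hC.pB a ha) (hC.pB b hb) e)
        (fun e3 => hn (hC.arc a ha b hb x hx e e3)) (le_sup_left.trans (Eq.le e2))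
        (sup_le le_sup_left (le_sup_left.trans (Eq.ge e1))) (hC.inB x hx).1
        (sup_le (hC.inB a ha).1 (hC.inB b hb).1)]
  have h3 : ∑ g ∈ (lines Y).erase (c ⊓ s), (B.offDiag.filter fun q => q.1 ⊔ g = q.2 ⊔ g).card =
      2 * B.card.choose 2 * (off Y s).card := by
    simp only [card_filter]
    rw [sum_comm, two_choose', Nat.mul_sub_one, ← offDiag_card, ← smul_eq_mul, ← sum_const]
    refine sum_congr rfl fun q hq => ?_
    obtain ⟨a, b, e⟩ := mem_offDiag.1 hq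
    rw [← pair hC hM h0 a b e, card_filter]
  rw [sum_add_distrib, ← mul_sum, h3, sum_const, smul_eq_mul] at h2
  rw [hP, card_insert_of_notMem, card_biUnion, ← add_sum_erase _ _ g0, h1,
    ← card_erase_add_one g0]
  · nlinarith
  · intro g hg g' hg' e
    refine disjoint_left.2 fun P h h' => e ?_
    obtain ⟨b, hb, rfl⟩ := mem_image.1 h
    obtain ⟨b', hb', e'⟩ := mem_image.1 h'
    rw [← (cut hC hM hb hg).2.2, ← e', (cut hC hM hb' hg').2.2]
  · intro h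
    obtain ⟨g, -, h⟩ := mem_biUnion.1 h
    obtain ⟨b, hb, e⟩ := mem_image.1 h
    exact (hC.inB b hb).2 (le_sup_left.trans e.le)

end Pool.Agent.P.MP_390d44_co.Fb
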