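import Pool.Agent.P.MP_390d44_co.Fb.If2

/-! Step GLUE. -/

namespace Pool.Agent.P.MP_390d44_co.Fb

open Finset Pool.Agent.P.MP_390d44_co

theorem p_GLUE (hCON : S_CON) (hMPO : S_MPO) (hMPL : S_MPL) (hPLB : S_PLB) (hGLL : S_GLL) (hGLP : S_GLP) :
    S_GLUE := by
  intro K t r x m hK ht hr hx hm
  obtain ⟨B, Q, c, s, C, rfl, rfl⟩ := hCON K t ht
  have q2 : 2 ≤ Q.card := by omega
  obtain ⟨h0, h1⟩ := hMPO Q c s C.rc C.rs C.ne C.pQ C.inQ q2
  have x0 : 0 < x := Nat.pos_of_ne_zero fun e => by rw [e] at hx; omega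
  obtain ⟨a, rfl⟩ := Nat.exists_eq_add_of_le (show Q.card ≤ m by omega)
  obtain ⟨Y, M, hY, hl⟩ := hPLB (MP Q c s) h1 (hMPL Q c s C.rc C.rs C.ne q2) r x a _ _ hr hx
    (by omega) h0
  have e1 := hGLL B Q Y c s C M
  have e2 := hGLP B Q Y c s C M hK q2 (by omega)
  have e3 := card_pts_off Y s
  rw [M.tr] at e3
  have e4 : (off Y s).card = a := by omega
  have e5 : B.card * (B.card - 1) = 2 * B.card.choose 2 := by
    have := c2 B.card
    zify [hK]
    linarith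
  rw [e4] at e2
  rw [hY] at e1
  rw [e5]
  generalize Q.card.choose 2 - 1 + r = D at hl ⊢
  refine ⟨B ∪ Y, isPts_union C.pB M.ip, ?_, ?_, ?_⟩
  · rw [card_union_of_disjoint (disjoint_left.2 fun b hb h => (C.inB b hb).2 (M.inc b h)), hY,
      add_comm]
  · rw [add2 (Q.card + a), mul_comm (Q.card + a)]
    omega
  · rw [add3 (Q.card + a), ← hl, phi]
    zify at e2
    push_cast
    linear_combination e2

end Pool.Agent.P.MP_390d44_co.Fb
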