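import Pool.Agent.P.MP_390d44_co.Fb.If2

/-! Step INB. -/

namespace Pool.Agent.P.MP_390d44_co.Fb

open Finset Pool.Agent.P.MP_390d44_co

namespace INBc

end INBc

theorem p_INB (hGLUE : S_GLUE) (hMED : S_MED) (hPKB : S_PKB) (hNUM : S_NUM) :
    S_INB := by
  intro n l p D k K u hl hK hk hu1 hu2 hD hr lo hi
  have hn : 1 ≤ n := by
    rcases Nat.eq_zero_or_pos n with rfl | h
    · have : 0 < (K + 2) ^ 2 := by positivity
      simp only [Nat.choose_zero_succ] at hl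
      omega
    · exact h
  obtain ⟨⟨x, hx1, hx2⟩, h2, h3⟩ := hNUM n l D k K u hl hn hk hu1 hu2 hr
  obtain ⟨m, rfl⟩ : ∃ m, n = m + k := ⟨n - k, by omega⟩
  have hu : 1 ≤ u := by
    rcases Nat.eq_zero_or_pos u with rfl | h
    · simp at hu2
    · exact h
  have eU := UU_eq hl
  have hk' : (35 : ℤ) ≤ k := by exact_mod_cast (by omega : 35 ≤ k)
  obtain ⟨J, r, j1, j2, r1, r2, a1, a2⟩ := hPKB m K (UU (m + k) l k - p) hK
    (by push_cast at hi; linarith [Int.natCast_nonneg m])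
    (by push_cast at lo; linarith)
  obtain ⟨J, rfl⟩ : ∃ J', J = J' + 1 := ⟨J - 1, by omega⟩
  have ct : (2 * K + 2).choose 2 = 2 * K ^ 2 + 3 * K + 1 := by
    have := c2 (2 * K + 2)
    push_cast at this
    have e : (((2 * K + 2).choose 2 : ℕ) : ℤ) = 2 * K ^ 2 + 3 * K + 1 := by linarith
    exact_mod_cast e
  have hJ : (J + 1) * J + K ≤ K ^ 2 := by
    obtain ⟨K', rfl⟩ : ∃ K', K = K' + 1 := ⟨K - 1, by omega⟩
    have : (J + 1) * J ≤ (K' + 1) * K' := Nat.mul_le_mul j2 (by omega)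
    nlinarith
  obtain ⟨s, hs⟩ : ∃ s, D = 2 * K ^ 2 + 3 * K + s + (J + 1) * J + r :=
    ⟨D - (2 * K ^ 2 + 3 * K + (J + 1) * J + r), by
      have : (K + 2) ^ 2 = K ^ 2 + 4 * K + 4 := by ring
      omega⟩
  have s4 : 4 ≤ s := by
    have : (K + 2) ^ 2 = K ^ 2 + 4 * K + 4 := by ring
    omega
  have hsq : Nat.sqrt (2 * s) ≤ Nat.sqrt (2 * D) := Nat.sqrt_le_sqrt (by omega)
  have g := hGLUE (J + 1) (2 * K + 2) s x m j1 (by omega) s4 (by omega) (by omega)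
  rw [ct, Nat.add_sub_cancel, Nat.add_sub_cancel] at g
  obtain ⟨E', e1, e2, g2⟩ := hMED _ _ r (Nat.sqrt (2 * r) + 20) (u / 2) _ r1 (by nlinarith)
    (by have := h2 r r2; omega) g
  rw [← hs] at g2
  have hs' : (D : ℤ) = 2 * K ^ 2 + 3 * K + s + (J + 1) * J + r := by exact_mod_cast hs
  have h3' : (36 : ℤ) + (m + k) + ((u / 2 : ℕ) : ℤ) ^ 3 ≤ (u : ℤ) ^ 3 := by exact_mod_cast h3
  have key : (m : ℤ) * ((2 * K ^ 2 + 3 * K + s : ℕ) : ℤ) - (m.choose 3 : ℕ) + phi (J + 1) (2 * K + 2) -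
      (p + (m + k) * D - ((m + k).choose 3 : ℕ)) =
      UU (m + k) l k - p - m * (((J + 1 : ℕ) : ℤ) * (((J + 1 : ℕ) : ℤ) - 1) + r) +
        phi (J + 1) (2 * K + 2) := by
    rw [eU]
    push_cast
    linear_combination (-(m : ℤ)) * hs'
  obtain ⟨T, hT⟩ : ∃ T : ℕ, (T : ℤ) = E' - (p + (m + k) * D - ((m + k).choose 3 : ℕ)) :=
    ⟨_, Int.toNat_of_nonneg (by linarith)⟩
  have t1 : 36 ≤ T := by
    have : (36 : ℤ) ≤ T := by linarith
    exact_mod_cast this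
  have t2 : T ≤ u ^ 3 := by
    have : (T : ℤ) ≤ (u : ℤ) ^ 3 := by linarith
    exact_mod_cast this
  have g3 := p_REP p_GEN p_BLK u T t1 t2 _ D _ g2
  have g4 := INNc.pad p_GEN D _ _ g3 (m + k - (m + (J + 1) + u / 2 + 100 * u))
  rw [show m + (J + 1) + u / 2 + 100 * u + (m + k - (m + (J + 1) + u / 2 + 100 * u)) = m + k by
    omega] at g4
  obtain ⟨X, hX, hc, hlines, hplanes⟩ := g4
  refine ⟨X, hX, hc, by omega, ?_⟩
  have : ((planes X).card : ℤ) = p := by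
    push_cast at hplanes
    linarith
  exact_mod_cast this

end Pool.Agent.P.MP_390d44_co.Fb
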