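import Pool.Agent.P.MP_390d44_co.Fb.If2

/-! Step LB. -/

namespace Pool.Agent.P.MP_390d44_co.Fb

open Finset Pool.Agent.P.MP_390d44_co

namespace LBc

/-- the invariant: `Y` together with `t` generic points of a generic line `g`. -/
def Inv (Y : Finset Sub) (t : ℕ) : Prop :=
  ∃ (X : Finset Sub) (g : Sub), IsPts X ∧ g ∈ lines X ∧ off X g = Y ∧ (pts X g).card = t ∧
    (lines X).card = (lines Y).card + t * Y.card + 1 ∧ (∀ l ∈ lines Y, l ⊓ g = ⊥) ∧
    (∀ p ∈ planes Y, ¬ g ≤ p) ∧ ∀ x ∈ pts X g, ∀ p ∈ planes Y, ¬ x ≤ p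

lemma gen4 {X : Finset Sub} (hX : IsPts X) : ∃ x, Av x X ∧ ∀ p ∈ planes X, ¬ x ≤ p := by
  obtain ⟨x, -, hx, h⟩ := gen3 (c := ⊤) hX (by rw [rk_top]; omega)
  exact ⟨x, hx, fun p hp e => not_le_of_rk (by rw [rk_top, rk_plane hp]; omega) (h p hp e)⟩

lemma base {Y : Finset Sub} (hY : IsPts Y) : Inv Y 2 := by
  obtain ⟨x1, a1, b1⟩ := gen4 hY
  have hX1 := hY.ins a1.pt
  obtain ⟨x2, a2, b2⟩ := gen4 hX1
  have hX2 := hX1.ins a2.pt
  have hne : x2 ≠ x1 := a2.ne (mem_insert_self _ _)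
  have c1 : (insert x1 Y).card = Y.card + 1 := card_insert_of_notMem a1.nm
  have hp := pts_new hX1 a2 (mem_insert_self x1 Y)
  refine ⟨insert x2 (insert x1 Y), x2 ⊔ x1, hX2, ?_, ?_, ?_, ?_, ?_, ?_, ?_⟩
  · exact sup_mem_lines hX2 (mem_insert_self _ _)
      (mem_insert_of_mem (mem_insert_self _ _)) hne
  · rw [off_ins_of_le le_sup_left, off_ins_of_le le_sup_right]
    exact off_self fun y hy e => a1.ne hy
      (a2.eq hX1 (mem_insert_self _ _) (mem_insert_of_mem hy) e)
  · rw [hp, card_pair hne]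
  · have e1 := card_lines_ins hY a1
    have e2 := card_lines_ins hX1 a2
    omega
  · intro l hl
    have p1 := ins_plane hY a1 hl
    have r1 := pt_sup a2.pt (b2 _ p1)
    have r2 := rk_sup_inf l (x2 ⊔ x1)
    rw [rk_plane p1, ← sup_assoc, sup_comm] at r1
    rw [r1, rk_line hl, rk_pp a2.pt a1.pt hne] at r2
    exact rk_zero.1 (by omega)
  · exact fun p hp e => b1 p hp (le_sup_right.trans e)
  · intro x hx p h
    rw [hp, mem_insert, mem_singleton] at hx
    rcases hx with rfl | rfl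
    · exact b2 p (planes_mono (subset_insert _ _) h)
    · exact b1 p h

lemma step {Y : Finset Sub} {t : ℕ} (h : Inv Y t) : Inv Y (t + 1) := by
  obtain ⟨X, g, hX, hg, hY, ht, hl, hs, hp, hq⟩ := h
  have rg := rk_line hg
  obtain ⟨x, x1, xg, hx⟩ := generic (W := g) (by omega) (X ∪ (lines X).erase g ∪ planes Y)
    fun U hU => by
      rcases mem_union.1 hU with hU | hU
      · rcases mem_union.1 hU with hU | hU
        · exact not_le_of_rk (by rw [hX U hU]; omega)
        · obtain ⟨u1, u2⟩ := mem_erase.1 hU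
          exact fun e => u1 (eq_of_rk e (by rw [rk_line u2, rg])).symm
      · exact hp U hU
  have xn : x ∉ X := fun e => hx x (mem_union_left _ (mem_union_left _ e)) le_rfl
  have e1 := p_ONL X x g hX x1 xn hg xg fun l hl e => by_contra fun hne =>
    hx l (mem_union_left _ (mem_union_right _ (mem_erase.2 ⟨hne, hl⟩))) e
  refine ⟨insert x X, g, hX.ins x1, lines_mono (subset_insert _ _) hg, ?_, ?_, ?_, hs, hp, ?_⟩
  · rw [off_ins_of_le xg, hY]
  · rw [pts_ins_of_le xg, card_insert_of_notMem fun e => xn (mem_pts.1 e).1, ht]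
  · have e2 := card_pts_off X g
    rw [hY] at e2
    rw [add_mul, one_mul]
    omega
  · intro y hy p h
    rw [pts_ins_of_le xg] at hy
    rcases mem_insert.1 hy with rfl | hy
    · exact hx p (mem_union_right _ h)
    · exact hq y hy p h

lemma fin {Y : Finset Sub} {t : ℕ} (h : Inv Y t) : ∃ X : Finset Sub, IsPts X ∧
    X.card = Y.card + t ∧ (lines X).card = (lines Y).card + t * Y.card + 1 ∧
    (planes X).card = Y.card + t * (lines Y).card + (planes Y).card := by
  obtain ⟨X, g, hX, hg, hY, ht, hl, hs, hp, hq⟩ := h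
  have rg := rk_line hg
  have hZ : IsPts Y := hY ▸ hX.mono off_sub
  have hoff : ∀ y ∈ Y, ¬ y ≤ g := fun y hy => (mem_off.1 (hY.symm ▸ hy : y ∈ off X g)).2
  have e2 := card_pts_off X g
  have f := long_formula hX hg
  rw [hY] at e2 f
  have f1 : ww (pts X g) Y g = ∅ := filter_eq_empty_iff.2 fun q hq' e =>
    hq _ (mem_product.1 hq').1 _ e le_sup_left
  have f2 : skew Y g = lines Y := by
    ext l
    exact ⟨fun h => (mem_skew.1 h).1, fun h => mem_skew.2 ⟨h, hs l h⟩⟩
  have f3 : pz Y g = planes Y := filter_true_of_mem hp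
  have f4 : (cls Y g).card = Y.card := card_image_of_injOn fun a ha b hb e => by_contra fun hne => by
    have e : a ⊔ g = b ⊔ g := e
    have h1 := sup_mem_lines hZ ha hb hne
    exact skew_not_le rg (rk_line h1) (hs _ h1) (rk_pl (hZ a ha) rg (hoff a ha))
      (sup_le le_sup_left (e ▸ le_sup_left)) le_sup_right
  rw [f1, f2, f3, f4, ht, card_empty, add_zero] at f
  exact ⟨X, hX, by omega, hl, f⟩

end LBc

theorem p_LB :
    S_LB := by
  rintro n D t E ht ⟨Y, hY, rfl, hl, hp⟩
  have key : LBc.Inv Y t := by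
    induction t, ht using Nat.le_induction with
    | base => exact LBc.base hY
    | succ t _ ih => exact LBc.step ih
  obtain ⟨X, hX, h1, h2, h3⟩ := LBc.fin key
  obtain ⟨u, hu⟩ : ∃ u, t.choose 2 = u + 1 :=
    Nat.exists_eq_succ_of_ne_zero (Nat.choose_pos ht).ne'
  refine ⟨X, hX, h1, ?_, ?_⟩
  · rw [add2, h2, mul_comm t]; omega
  · rw [h3, add3, ← hl, hu, Nat.add_sub_cancel]
    push_cast
    linear_combination hp

end Pool.Agent.P.MP_390d44_co.Fb
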