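import Pool.Agent.P.MP_390d44_co.Fb.If2

/-! Step LUND. -/

namespace Pool.Agent.P.MP_390d44_co.Fb

open Finset Pool.Agent.P.MP_390d44_co

namespace LUNDc

lemma plane_over {g : Sub} (hg : rk g = 2) : ∃ c, rk c = 3 ∧ g ≤ c := by
  obtain ⟨x, x1, -, hx⟩ := generic (W := ⊤) (by rw [rk_top]; omega) {g} fun U hU => by
    rw [mem_singleton.1 hU]
    exact not_le_of_rk (by rw [rk_top, hg]; omega)
  exact ⟨x ⊔ g, rk_pl x1 hg (hx g (mem_singleton_self _)), le_sup_right⟩

lemma num {n l p k g y j : ℕ} (hn : 1 ≤ n) (h1 : n * k ≤ 4500000000 * l) (h2 : k ≤ 3 * g)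
    (hy : l ≤ 10 ^ 20 * y) (hj : j = min g (y / n + 1))
    (hu : j * y ≤ p + j.choose 2 * n) : k * l ≤ 10 ^ 50 * p := by
  have a1 : j ≤ y / n + 1 := hj ▸ min_le_right _ _
  have a2 : y / n * n ≤ y := Nat.div_mul_le_self y n
  have a3 := two_choose' j
  have a4 : (j - 1) * n ≤ y := le_trans (Nat.mul_le_mul_right n (Nat.sub_le_of_le_add a1)) a2
  have a5 : 2 * (j.choose 2 * n) ≤ j * y := by
    calc 2 * (j.choose 2 * n) = j * ((j - 1) * n) := by rw [← mul_assoc, a3, mul_assoc]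
      _ ≤ j * y := Nat.mul_le_mul_left j a4
  have a6 : j * y ≤ 2 * p := by omega
  have a7 : k ≤ 450000000000000000000000000000 * j := by
    rcases le_total g (y / n + 1) with h | h
    · rw [min_eq_left h] at hj; omega
    · rw [min_eq_right h] at hj
      have b1 : y < n * j := by
        rw [hj]; exact Nat.lt_mul_div_succ y (by omega)
      have b2 : n * k ≤ n * (450000000000000000000000000000 * j) := by
        have : n * (450000000000000000000000000000 * j)
            = 450000000000000000000000000000 * (n * j) := by ring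
        omega
      exact Nat.le_of_mul_le_mul_left b2 (by omega)
  calc k * l ≤ (450000000000000000000000000000 * j) * (10 ^ 20 * y) := Nat.mul_le_mul a7 hy
    _ = 45 * 10 ^ 48 * (j * y) := by ring
    _ ≤ 45 * 10 ^ 48 * (2 * p) := Nat.mul_le_mul_left _ a6
    _ ≤ 10 ^ 50 * p := by omega

end LUNDc

open LUNDc in
theorem p_LUND (hUNI : S_UNI) (hGA : S_GA) (hGB : S_GB) :
    S_LUND := by
  classical
  intro X hX
  obtain ⟨c0, hc0⟩ := exists_plane
  have hex : ∃ k, ∃ B, Cov X B ∧ B.card = k := ⟨_, off X c0, Or.inl ⟨c0, hc0, rfl⟩, rfl⟩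
  obtain ⟨B0, hB0, hk⟩ := Nat.find_spec hex
  have hmin : ∀ B, Cov X B → B0.card ≤ B.card := fun B hB => by
    rw [hk]; exact Nat.find_min' hex ⟨B, hB, rfl⟩
  refine ⟨B0, hB0, ?_⟩
  rcases (lines X).eq_empty_or_nonempty with h0 | ⟨g0, hg0⟩
  · rw [h0]; simp
  obtain ⟨-, a, ha, b, hb, hab, -⟩ := (mem_lines hX).1 hg0
  have hn : 2 ≤ X.card := one_lt_card.2 ⟨a, ha, b, hb, hab⟩
  have hpl : ∀ c, rk c = 3 → B0.card ≤ (off X c).card := fun c hc =>
    hmin _ (Or.inl ⟨c, hc, rfl⟩)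
  have hEB : X.card * B0.card ≤ 4500000000 * (lines X).card := by
    refine erdos_beck hX hn fun g hg => ?_
    obtain ⟨c, hc, hgc⟩ := plane_over ((mem_lines hX).1 hg).1
    have h1 := hpl c hc
    have h2 : (off X c).card ≤ (off X g).card := card_le_card fun x hx => by
      simp only [off, mem_filter] at hx ⊢
      exact ⟨hx.1, fun e => hx.2 (e.trans hgc)⟩
    have h3 := card_pts_off X g
    omega
  have hG : ∃ G ⊆ X, B0.card ≤ 3 * G.card ∧
      ∀ b ∈ G, (lines X).card ≤ 10 ^ 20 * (pth X b).card := by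
    by_cases h : ∀ g ∈ lines X, 1200 * (pts X g).card ≤ X.card
    · exact hGA X _ hX hn h hpl
    · push Not at h
      obtain ⟨L, hL, h⟩ := h
      exact hGB X L _ hX hL h hmin
  obtain ⟨G, hGX, hG1, hG2⟩ := hG
  obtain ⟨y, hy⟩ : ∃ y, y = ((lines X).card + (10 ^ 20 - 1)) / 10 ^ 20 := ⟨_, rfl⟩
  obtain ⟨B, hBG, hBc⟩ := exists_subset_card_eq
    (min_le_left G.card (y / X.card + 1))
  refine num (y := y) (j := B.card) (by omega) hEB hG1 (by omega) hBc ?_
  refine hUNI X B y hX (hBG.trans hGX) fun b hb => ?_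
  have := hG2 b (hBG hb)
  omega

end Pool.Agent.P.MP_390d44_co.Fb
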