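import Pool.Agent.P.MP_390d44_co.Fb.If2

/-! Step MED. -/

namespace Pool.Agent.P.MP_390d44_co.Fb

open Finset Pool.Agent.P.MP_390d44_co

namespace MEDc

lemma blk (t : ℕ) (ht : 2 ≤ t) : 0 ≤ (t : ℤ) * ((t.choose 2 : ℕ) - 1) - (t.choose 3 : ℕ) ∧
    (t : ℤ) * ((t.choose 2 : ℕ) - 1) - (t.choose 3 : ℕ) ≤ t ^ 3 := by
  have a := c2 t
  have b := c3 t
  have h : (2 : ℤ) ≤ t := by exact_mod_cast ht
  have e : 6 * ((t : ℤ) * ((t.choose 2 : ℕ) - 1) - (t.choose 3 : ℕ)) = 2 * t * (t ^ 2 - 4) := by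
    linear_combination 3 * t * a - b
  have h1 : (0 : ℤ) ≤ t * (t ^ 2 - 4) := mul_nonneg (by omega) (by nlinarith)
  have h2 : (0 : ℤ) ≤ t ^ 3 := by positivity
  constructor <;> nlinarith

end MEDc

theorem p_MED (hLB : S_LB) (hPLB : S_PLB) :
    S_MED := by
  intro n D r x a E hr hx ha h
  have key := hPLB (fun a r => ∃ E', E ≤ E' ∧ E' ≤ E + (a : ℤ) ^ 3 ∧ St3 (n + a) (D + r) E')
    ?_ ?_ r x a 0 0 hr hx ha ⟨E, le_rfl, by simp, h⟩
  · simpa using key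
  · rintro m s ⟨E', h1, h2, h3⟩
    refine ⟨E', h1, h2.trans ?_, p_GEN _ _ _ h3⟩
    push_cast
    gcongr
    omega
  · rintro m s t ht ⟨E', h1, h2, h3⟩
    obtain ⟨b1, b2⟩ := MEDc.blk t ht
    refine ⟨_, ?_, ?_, by simpa only [add_assoc] using hLB _ _ t _ ht h3⟩
    · linarith
    · have hm : (0 : ℤ) ≤ m := by positivity
      have ht' : (0 : ℤ) ≤ t := by positivity
      have : (0 : ℤ) ≤ m * t * (m + t) := by positivity
      push_cast
      nlinarith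

end Pool.Agent.P.MP_390d44_co.Fb
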