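import Pool.Agent.P.MP_390d44_co.Fb.If2

/-! Step MPL. -/

namespace Pool.Agent.P.MP_390d44_co.Fb

open Finset Pool.Agent.P.MP_390d44_co

namespace MPLc

/-- inserting a point whose lines of `Y` carry no point of `Q` keeps the marking. -/
lemma ins {Q Y : Finset Sub} {c s x : Sub} (hc : rk c = 3) (hs : rk s = 3) (hne : c ≠ s)
    (h2 : 2 ≤ Q.card) (h : Mk Q c s Y) (x1 : rk x = 1) (xc : x ≤ c) (xn : x ∉ Y)
    (hx : ∀ l ∈ lines Y, x ≤ l → ∀ q ∈ Q, ¬ q ≤ l) : Mk Q c s (insert x Y) := by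
  have hQ : ∀ q ∈ Q, q ∈ Y ∧ q ≤ s := fun q hq => mem_pts.1 (h.tr ▸ hq)
  have xs : ¬ x ≤ s := fun e => by
    obtain ⟨a, ha, b, hb, ab⟩ := one_lt_card.1 h2
    have hl := sup_mem_lines h.ip (hQ a ha).1 (hQ b hb).1 ab
    exact hx _ hl ((le_inf xc e).trans (le_of_planes hc hs hne (rk_line hl)
      (sup_le (h.inc a (hQ a ha).1) (h.inc b (hQ b hb).1)) (sup_le (hQ a ha).2 (hQ b hb).2)))
      a ha le_sup_left
  refine ⟨h.ip.ins x1, ?_, by rw [pts_ins_of_not xs, h.tr], ?_⟩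
  · intro y hy
    rcases mem_insert.1 hy with rfl | hy
    · exact xc
    · exact h.inc y hy
  · intro q hq y hy y' hy' e
    rw [off_ins_of_not xs] at hy hy'
    obtain ⟨qY, qs⟩ := hQ q hq
    have key : ∀ z ∈ off Y s, q ≠ z ∧ ¬ x ≤ q ⊔ z := fun z hz => by
      have n : q ≠ z := fun e => (mem_off.1 hz).2 (e ▸ qs)
      exact ⟨n, fun e => hx _ (sup_mem_lines h.ip qY (mem_off.1 hz).1 n) e q hq le_sup_left⟩
    rcases mem_insert.1 hy with hy | hy <;> rcases mem_insert.1 hy' with hy' | hy'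
    · rw [hy, hy']
    · exfalso
      rw [hy] at e
      have qx : q ≠ x := fun e => xn (e ▸ qY)
      refine (key y' hy').2 ?_
      rw [line_eq (rk_pp (h.ip q qY) x1 qx) (h.ip q qY) (h.ip y' (mem_off.1 hy').1) (key y' hy').1
        le_sup_left e]
      exact le_sup_right
    · rw [hy'] at e
      exact absurd e (key y hy).2
    · exact h.gn q hq y hy y' hy' e

/-- the invariant: a marked set with a line missing `Q` and carrying exactly `t` points. -/
def Inv (Q : Finset Sub) (c s : Sub) (m D t : ℕ) : Prop :=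
  ∃ (X : Finset Sub) (g : Sub), Mk Q c s X ∧ X.card = m + t ∧
    g ∈ lines X ∧ g ≤ c ∧ (pts X g).card = t ∧ (∀ q ∈ Q, ¬ q ≤ g) ∧
    (lines X).card + D + t.choose 2 = (m + t).choose 2 + 1

lemma base {Q : Finset Sub} {c s : Sub} (hc : rk c = 3) (hs : rk s = 3) (hne' : c ≠ s)
    (h2 : 2 ≤ Q.card) {m D : ℕ} (h : MP Q c s m D) : Inv Q c s m D 2 := by
  obtain ⟨X, hM, hm, hD⟩ := h
  have hX := hM.ip
  obtain ⟨x1, x1c, a1, -⟩ := gen3 hX hc.ge
  have hX1 := hX.ins a1.pt
  obtain ⟨x2, x2c, a2, -⟩ := gen3 hX1 hc.ge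
  have hX2 := hX1.ins a2.pt
  have hne : x2 ≠ x1 := a2.ne (mem_insert_self _ _)
  have c1 : (insert x1 X).card = m + 1 := by rw [card_insert_of_notMem a1.nm, hm]
  have M1 := ins hc hs hne' h2 hM a1.pt x1c a1.nm fun l hl e => absurd e (a1.nl l hl)
  have M2 := ins hc hs hne' h2 M1 a2.pt x2c a2.nm fun l hl e => absurd e (a2.nl l hl)
  have hp := pts_new hX1 a2 (mem_insert_self _ _)
  refine ⟨insert x2 (insert x1 X), x2 ⊔ x1, M2, ?_, ?_, sup_le x2c x1c, ?_, ?_, ?_⟩
  · rw [card_insert_of_notMem a2.nm, c1]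
  · exact sup_mem_lines hX2 (mem_insert_self _ _)
      (mem_insert_of_mem (mem_insert_self _ _)) hne
  · rw [hp, card_pair hne]
  · intro q hq e
    have qX : q ∈ X := (mem_pts.1 (hM.tr ▸ hq : q ∈ pts X s)).1
    have : q ∈ pts (insert x2 (insert x1 X)) (x2 ⊔ x1) :=
      mem_pts.2 ⟨mem_insert_of_mem (mem_insert_of_mem qX), e⟩
    rw [hp, mem_insert, mem_singleton] at this
    rcases this with e' | e'
    · exact a2.nm (e' ▸ mem_insert_of_mem qX)
    · exact a1.nm (e' ▸ qX)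
  · have e1 := card_lines_ins hX a1
    have e2 := card_lines_ins hX1 a2
    have e3 := ch2 m
    have e4 := ch2 (m + 1)
    have e5 : (2 : ℕ).choose 2 = 1 := rfl
    have e6 : m + 2 = m + 1 + 1 := rfl
    rw [e6]
    omega

lemma step {Q : Finset Sub} {c s : Sub} (hc : rk c = 3) (hs : rk s = 3) (hne' : c ≠ s)
    (h2 : 2 ≤ Q.card) {m D t : ℕ} (h : Inv Q c s m D t) : Inv Q c s m D (t + 1) := by
  obtain ⟨X, g, hM, hm, hg, hgc, ht, hq, hD⟩ := h
  have hX := hM.ip
  have rg := rk_line hg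
  obtain ⟨x, x1, xg, hx⟩ := generic (W := g) (by omega) (X ∪ (lines X).erase g) fun U hU => by
    rcases mem_union.1 hU with hU | hU
    · exact not_le_of_rk (by rw [hX U hU]; omega)
    · obtain ⟨u1, u2⟩ := mem_erase.1 hU
      exact fun e => u1 (eq_of_rk e (by rw [rk_line u2, rg])).symm
  have xn : x ∉ X := fun e => hx x (mem_union_left _ e) le_rfl
  have only : ∀ l ∈ lines X, x ≤ l → l = g := fun l hl e => by_contra fun hne =>
    hx l (mem_union_right _ (mem_erase.2 ⟨hne, hl⟩)) e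
  have e1 := p_ONL X x g hX x1 xn hg xg only
  have M1 := ins hc hs hne' h2 hM x1 (xg.trans hgc) xn fun l hl e => by
    rw [only l hl e]; exact hq
  refine ⟨insert x X, g, M1, ?_, lines_mono (subset_insert _ _) hg, hgc, ?_, hq, ?_⟩
  · rw [card_insert_of_notMem xn, hm]; rfl
  · rw [pts_ins_of_le xg, card_insert_of_notMem fun e => xn (mem_pts.1 e).1, ht]
  · have e3 := ch2 t
    have e4 := ch2 (m + t)
    have e6 : m + (t + 1) = m + t + 1 := rfl
    rw [e6]
    omega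

end MPLc

theorem p_MPL :
    S_MPL := by
  intro Q c s hc hs hne h2 m D t ht h
  have key : MPLc.Inv Q c s m D t := by
    induction t, ht using Nat.le_induction with
    | base => exact MPLc.base hc hs hne h2 h
    | succ t _ ih => exact MPLc.step hc hs hne h2 ih
  obtain ⟨X, g, hM, hm, -, -, -, -, hD⟩ := key
  have : 0 < t.choose 2 := Nat.choose_pos ht
  exact ⟨X, hM, hm, by omega⟩

end Pool.Agent.P.MP_390d44_co.Fb
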