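import Pool.Agent.P.MP_390d44_co.Fb.If2

/-! Step MPO. -/

namespace Pool.Agent.P.MP_390d44_co.Fb

open Finset Pool.Agent.P.MP_390d44_co

namespace MPOc

lemma rk_inf {c s : Sub} (hc : rk c = 3) (hs : rk s = 3) (h : c ≠ s) : rk (c ⊓ s) = 2 := by
  have h1 := rk_sup_inf c s
  have h2 := rk_le_four (c ⊔ s)
  have h3 := rk_lt (inf_le_left : c ⊓ s ≤ c) fun e =>
    h (eq_of_rk (e.trans inf_le_right) (by omega))
  omega

lemma inf_mem {Q : Finset Sub} {c s : Sub} (hc : rk c = 3) (hs : rk s = 3) (h : c ≠ s)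
    (hQ : IsPts Q) (hq : ∀ q ∈ Q, q ≤ c ∧ q ≤ s) (h2 : 2 ≤ Q.card) : c ⊓ s ∈ lines Q := by
  refine mem_lines_of_card hQ (rk_inf hc hs h) (h2.trans (card_le_card fun q e => ?_))
  exact mem_pts.2 ⟨e, le_inf (hq q e).1 (hq q e).2⟩

end MPOc

theorem p_MPO :
    S_MPO := by
  intro Q c s hc hs hne hQ hq h2
  have hg := MPOc.inf_mem hc hs hne hQ hq h2
  refine ⟨⟨Q, ⟨hQ, fun y e => (hq y e).1, ?_, ?_⟩, rfl, ?_⟩, ?_⟩
  · exact filter_true_of_mem fun q e => (hq q e).2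
  · intro q _ y hy
    exact absurd (hq y (mem_off.1 hy).1).2 (mem_off.1 hy).2
  · have e : lines Q = {c ⊓ s} := by
      refine eq_singleton_iff_unique_mem.2 ⟨hg, fun l hl => ?_⟩
      exact eq_of_rk (line_le_of_pts hl fun x hx _ => le_inf (hq x hx).1 (hq x hx).2)
        (by rw [rk_line hl, rk_line hg])
    have := Nat.choose_pos h2
    rw [e, card_singleton]
    omega
  · rintro m D ⟨Y, hY, rfl, hD⟩
    obtain ⟨x, xc, hx, -⟩ := gen3 hY.ip hc.ge
    have hQY : Q ⊆ Y := hY.tr ▸ pts_sub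
    have xs : ¬ x ≤ s := fun e => hx.nl _ (lines_mono hQY hg) (le_inf xc e)
    refine ⟨insert x Y, ⟨hY.ip.ins hx.pt, ?_, ?_, ?_⟩, card_insert_of_notMem hx.nm, ?_⟩
    · intro y hy
      rcases mem_insert.1 hy with rfl | hy
      · exact xc
      · exact hY.inc y hy
    · rw [pts_ins_of_not xs, hY.tr]
    · intro q hqQ y hy y' hy' e
      rw [off_ins_of_not xs] at hy hy'
      rw [mem_insert] at hy hy'
      rcases hy with rfl | hy <;> rcases hy' with rfl | hy'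
      · rfl
      · have := hx.eq hY.ip (hQY hqQ) (mem_off.1 hy').1 (by rwa [sup_comm])
        exact absurd (this ▸ (hq q hqQ).2) (mem_off.1 hy').2
      · refine absurd e (hx.nl _ (sup_mem_lines hY.ip (hQY hqQ) (mem_off.1 hy).1 fun e' => ?_))
        exact (mem_off.1 hy).2 (e' ▸ (hq q hqQ).2)
      · exact hY.gn q hqQ y hy y' hy' e
    · rw [card_lines_ins hY.ip hx, ch2]
      omega

end Pool.Agent.P.MP_390d44_co.Fb
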