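import Pool.Agent.P.MP_390d44_co.Fb.If2

/-! Step NEWL. -/

namespace Pool.Agent.P.MP_390d44_co.Fb

open Finset Pool.Agent.P.MP_390d44_co

namespace NEWLc

end NEWLc

theorem p_NEWL (hBON : S_BON) :
    S_NEWL := by
  intro X B hX hB hL
  choose! S hS hc hone using hL
  have hY : IsPts (X \ B) := hX.mono sdiff_subset
  have hne : ∀ b ∈ B, ∀ x ∈ S b, b ≠ x := fun b hb x hx e =>
    (mem_sdiff.1 (hS b hb hx)).2 (e ▸ hb)
  have hrk : ∀ b ∈ B, ∀ x ∈ S b, rk (b ⊔ x) = 2 := fun b hb x hx =>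
    rk_pp (hX b (hB hb)) (hY x (hS b hb hx)) (hne b hb x hx)
  have key := hBON B (lines X \ lines (X \ B)) (fun b => (S b).image (b ⊔ ·))
    ((X \ B).card - 2) 1 (fun b hb => ⟨?_, ?_⟩) (fun b hb b' hb' hbb => ?_)
  · have h1 := card_sdiff_add_card_eq_card (lines_mono (sdiff_subset : X \ B ⊆ X))
    have h2 : B.card * (X \ B).card ≤ B.card * ((X \ B).card - 2) + 2 * B.card := by
      rw [mul_comm 2, ← mul_add]
      exact Nat.mul_le_mul_left _ (by omega)
    omega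
  · intro l hl
    obtain ⟨x, hx, rfl⟩ := mem_image.1 hl
    refine mem_sdiff.2 ⟨sup_mem_lines hX (hB hb) (sdiff_subset (hS b hb hx)) (hne b hb x hx),
      fun h => ?_⟩
    obtain ⟨-, y, hy, z, hz, e, h1, h2⟩ := (mem_lines hY).1 h
    exact e ((hone b hb x hx y hy h1).trans (hone b hb x hx z hz h2).symm)
  · rw [card_image_of_injOn]
    · have := hc b hb
      omega
    · intro x hx y hy e
      have e : b ⊔ x = b ⊔ y := e
      exact (hone b hb x hx y (hS b hb hy) (e ▸ le_sup_right)).symm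
  · refine card_le_one.2 fun l hl l' hl' => ?_
    obtain ⟨x, hx, e1⟩ := mem_image.1 (mem_inter.1 hl).1
    obtain ⟨y, hy, e2⟩ := mem_image.1 (mem_inter.1 hl).2
    obtain ⟨x', hx', e3⟩ := mem_image.1 (mem_inter.1 hl').1
    obtain ⟨y', hy', e4⟩ := mem_image.1 (mem_inter.1 hl').2
    exact lines_eq (e1 ▸ hrk b hb x hx) (e3 ▸ hrk b hb x' hx') (hX b (hB hb)) (hX b' (hB hb')) hbb
      (e1 ▸ le_sup_left) (e2 ▸ le_sup_left) (e3 ▸ le_sup_left) (e4 ▸ le_sup_left)

end Pool.Agent.P.MP_390d44_co.Fb
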