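import Pool.Agent.P.MP_390d44_co.Fb.If2

/-! Step NUM. -/

namespace Pool.Agent.P.MP_390d44_co.Fb

open Finset Pool.Agent.P.MP_390d44_co

theorem p_NUM :
    S_NUM := by
  intro n l D k K u h hn hk hu3 hu2 hl
  have hu : 77 ≤ u := by
    by_contra hc
    have : u ^ 2 ≤ 76 ^ 2 := Nat.pow_le_pow_left (by omega) 2
    omega
  refine ⟨⟨⌈6 * Real.sqrt n⌉₊ + 20, ?_⟩, fun r hr => ?_, ?_⟩
  · have e : 2 * D + n + 2 * l = n * n := by have := two_choose n; omega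
    have e' : (2 : ℝ) * D + n + 2 * l = n * n := by exact_mod_cast e
    have hs : ((Nat.sqrt (2 * D) : ℕ) : ℝ) ^ 2 ≤ 2 * D := by exact_mod_cast Nat.sqrt_le' (2 * D)
    set s := Nat.sqrt (2 * D)
    have n1 : (1 : ℝ) ≤ n := by exact_mod_cast hn
    have q0 := Real.sqrt_nonneg (n : ℝ)
    have q2 : Real.sqrt n ^ 2 = n := Real.sq_sqrt (by linarith)
    have k0 : (0 : ℝ) ≤ k := Nat.cast_nonneg _
    have D0 : (0 : ℝ) ≤ D := Nat.cast_nonneg _
    obtain ⟨y, hy⟩ : ∃ y : ℝ, y = 3 * k + 6 * Real.sqrt n := ⟨_, rfl⟩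
    rw [← hy] at hl
    have y0 : 0 ≤ y := by linarith
    have y1 : y ≤ n := by nlinarith
    have h1 : (s : ℝ) ≤ n - y := le_of_sq_le_sq (by nlinarith [sq_nonneg y]) (by linarith)
    have c1 := Nat.le_ceil (6 * Real.sqrt n)
    have c2 := Nat.ceil_lt_add_one (show 0 ≤ 6 * Real.sqrt n by linarith)
    set c := ⌈6 * Real.sqrt n⌉₊
    have hk' : (K : ℝ) + 101 * u ≤ k := by exact_mod_cast hk
    have hu' : (77 : ℝ) ≤ u := by exact_mod_cast hu
    constructor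
    · have : (36 : ℝ) * s + 400 ≤ ((c : ℝ) + 20) ^ 2 := by nlinarith
      exact_mod_cast this
    · have : (2 : ℝ) * K + 2 + s + (c + 20) + k ≤ n := by linarith
      exact_mod_cast this
  · have h1 := Nat.sqrt_le' (2 * r)
    set s := Nat.sqrt (2 * r)
    have h2 : 4 * s + 40 ≤ u := by
      by_contra hc
      have h3 : u ^ 2 ≤ (4 * s + 40) ^ 2 := Nat.pow_le_pow_left (by omega) 2
      have h4 : ∀ z : ℤ, (4 * z + 40) ^ 2 ≤ 64 * z ^ 2 + 5400 := fun z => by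
        have := sq_nonneg (3 * z - 10)
        have e1 : (3 * z - 10) ^ 2 = 9 * z ^ 2 - 60 * z + 100 := by ring
        have e2 : (4 * z + 40) ^ 2 = 16 * z ^ 2 + 320 * z + 1600 := by ring
        omega
      have h5 : (4 * s + 40) ^ 2 ≤ 64 * s ^ 2 + 5400 := by exact_mod_cast h4 s
      omega
    omega
  · have h1 : (2 * (u / 2)) ^ 3 ≤ u ^ 3 := Nat.pow_le_pow_left (by omega) 3
    have h2 : 77 ^ 3 ≤ u ^ 3 := Nat.pow_le_pow_left hu 3
    rw [mul_pow] at h1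
    omega

end Pool.Agent.P.MP_390d44_co.Fb
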