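import Pool.Agent.P.MP_390d44_co.Fb.If2

/-! Step PKB. -/

namespace Pool.Agent.P.MP_390d44_co.Fb

open Finset Pool.Agent.P.MP_390d44_co

namespace PKBc

lemma phi_mono (J t : ℕ) (h : 1 ≤ J) : phi J t ≤ phi (J + 1) t := by
  simp only [phi]
  rw [ch2, ch3]
  push_cast
  have h1 : (1 : ℤ) ≤ J := by exact_mod_cast h
  have h2 : (0 : ℤ) ≤ J.choose 2 := Nat.cast_nonneg _
  have h3 : (0 : ℤ) ≤ t := Nat.cast_nonneg _
  nlinarith

lemma phi_le (K : ℕ) : phi K (2 * K + 2) ≤ 2 * K ^ 3 + 2 := by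
  simp only [phi]
  push_cast
  have h1 : (0 : ℤ) ≤ K := Nat.cast_nonneg _
  have h2 : (0 : ℤ) ≤ K.choose 3 := Nat.cast_nonneg _
  have h3 : (K.choose 2 : ℤ) * (2 * K + 2 + 2 * K) = K * (K - 1) * (2 * K + 1) := by
    linear_combination (2 * K + 1) * c2 K
  nlinarith

lemma pick (g : ℕ → ℤ) (m : ℤ) (h1 : 0 ≤ g 1) (hs : ∀ J, 1 ≤ J → g J ≤ g (J + 1) + 2 * J * m)
    (n : ℕ) (hn : 1 ≤ n) : (∃ J, 1 ≤ J ∧ J ≤ n ∧ 0 ≤ g J ∧ g J ≤ 2 * J * m) ∨ 0 ≤ g n := by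
  induction n, hn using Nat.le_induction with
  | base => exact Or.inr h1
  | succ n hn ih =>
    rcases ih with ⟨J, a, b, c⟩ | h
    · exact Or.inl ⟨J, a, by omega, c⟩
    · by_cases h' : 0 ≤ g (n + 1)
      · exact Or.inr h'
      · exact Or.inl ⟨n, hn, by omega, h, by have := hs n hn; omega⟩

end PKBc

open PKBc in
theorem p_PKB :
    S_PKB := by
  intro m K A hK h1 h2
  have K1 : (1 : ℤ) ≤ K := by exact_mod_cast hK
  have m0 : (0 : ℤ) < m := by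
    rcases Nat.eq_zero_or_pos m with rfl | h
    · have : (0 : ℤ) ≤ K ^ 3 := by positivity
      simp only [Nat.cast_zero, mul_zero, zero_mul] at h1 h2
      omega
    · exact_mod_cast h
  obtain ⟨J, a, b, c, d⟩ : ∃ J : ℕ, 1 ≤ J ∧ J ≤ K ∧
      0 ≤ A - m * (J * (J - 1) + 4) + phi J (2 * K + 2) - 36 ∧
      A - m * (J * (J - 1) + 4) + phi J (2 * K + 2) - 36 ≤ 2 * J * m := by
    rcases pick (fun J => A - m * (J * (J - 1) + 4) + phi J (2 * K + 2) - 36) m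
      (by simp [phi]; linarith) (fun J hJ => by
        have := phi_mono J (2 * K + 2) hJ
        push_cast
        linarith) K hK with h | h
    · exact h
    · refine ⟨K, hK, le_rfl, h, ?_⟩
      have := phi_le K
      have : (0 : ℤ) ≤ 2 * K * m := by positivity
      linarith
  obtain ⟨g, hg⟩ : ∃ g, g = A - m * (J * (J - 1) + 4) + phi J (2 * K + 2) - 36 := ⟨_, rfl⟩
  rw [← hg] at c d
  have e1 := Int.emod_add_mul_ediv g m
  have e2 := Int.emod_nonneg g m0.ne'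
  have e3 := Int.emod_lt_of_pos g m0
  have e4 : 0 ≤ g / m := Int.ediv_nonneg c m0.le
  have e5 : g / m ≤ 2 * J := Int.ediv_le_of_le_mul m0 d
  obtain ⟨q, hq⟩ := Int.eq_ofNat_of_zero_le e4
  rw [hq] at e1 e5
  refine ⟨J, 4 + q, a, b, by omega, by omega, ?_, ?_⟩ <;> push_cast <;> linarith

end Pool.Agent.P.MP_390d44_co.Fb
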