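import Pool.Agent.P.MP_390d44_co.Fb.If2

/-! Step PLB. -/

namespace Pool.Agent.P.MP_390d44_co.Fb

open Finset Pool.Agent.P.MP_390d44_co

namespace PLBc

variable {P : ℕ → ℕ → Prop}

theorem pad (h : ∀ m D, P m D → P (m + 1) D) {m m' D : ℕ} (hm : m ≤ m') (H : P m D) :
    P m' D := by
  induction hm with
  | refl => exact H
  | step _ ih => exact h _ _ ih

theorem two (h : ∀ m D t, 2 ≤ t → P m D → P (m + t) (D + (t.choose 2 - 1))) {m D : ℕ}
    (H : P m D) (a : ℕ) : P (m + 3 * a) (D + 2 * a) := by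
  induction a with
  | zero => exact H
  | succ a ih => exact h _ _ 3 (by omega) ih

theorem lin (h0 : ∀ m D, P m D → P (m + 1) D)
    (h : ∀ m D t, 2 ≤ t → P m D → P (m + t) (D + (t.choose 2 - 1))) {m D r : ℕ} (H : P m D)
    (h4 : 4 ≤ r) : P (m + 2 * r) (D + r) := by
  obtain ⟨a, rfl | rfl⟩ : ∃ a, r = 2 * a ∨ r = 5 + 2 * a := by
    rcases Nat.even_or_odd' r with ⟨a, e | e⟩
    · exact ⟨a, Or.inl e⟩
    · exact ⟨a - 2, Or.inr (by omega)⟩
  · exact pad h0 (by omega) (two h H a)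
  · rw [← add_assoc]
    exact pad h0 (by omega) (two h (h m D 4 (by omega) H) a)

end PLBc

open PLBc in
theorem p_PLB :
    S_PLB := by
  intro P h0 h r x a' m D hr hx ha H
  obtain ⟨a, c, s, a1, a2, a3, a4, a5, a6⟩ := PLAc.greedy hr
  obtain ⟨b, e, t, b1, b2, b3, b4, b5, b6⟩ := PLAc.greedy a5
  have hu : a ≤ Nat.sqrt (2 * r) := Nat.le_sqrt.2 (by omega)
  have hw : 3 * b + 11 ≤ x := by
    have h1 : b * b ≤ 2 * Nat.sqrt (2 * r) + 2 := by omega
    have h2 : (3 * b + 11) ^ 2 ≤ x ^ 2 := by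
      refine le_trans ?_ hx
      zify at h1 ⊢
      nlinarith [sq_nonneg (3 * (b : ℤ) - 11)]
    exact (Nat.pow_le_pow_iff_left (by omega)).1 h2
  have := lin h0 h (h _ _ (b + 1) (by omega) (h _ _ (a + 1) (by omega) H)) b5
  rw [a2, b2, show D + (c + 1 - 1) + (e + 1 - 1) + t = D + r by omega] at this
  exact pad h0 (by omega) this

end Pool.Agent.P.MP_390d44_co.Fb
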