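import Pool.Agent.P.MP_390d44_co.Fb.If2

/-! Step PRJ1. -/

namespace Pool.Agent.P.MP_390d44_co.Fb

open Finset Pool.Agent.P.MP_390d44_co

theorem p_PRJ1 :
    S_PRJ1 := by
  intro X Y b κ hX hb hY hbY h2 hk
  obtain ⟨H, hH, hbH⟩ := exists_plane_avoid (hX b hb)
  have ne : ∀ x ∈ Y, b ≠ x := fun x hx e => hbY (e ▸ hx)
  have sp : ∀ x ∈ Y, b ⊔ pr b H x = b ⊔ x := fun x hx =>
    sup_pr (hX b hb) hH hbH (hX x (hY hx)) (ne x hx)
  have cd : ∀ W ⊆ Y, (W.image (pr b H)).card = (ray b W).card := fun W hW => by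
    refine le_antisymm ?_ ?_
    · have : W.image (pr b H) = (ray b W).image (· ⊓ H) := by
        rw [ray, image_image]; rfl
      rw [this]; exact card_image_le
    · have : ray b W = (W.image (pr b H)).image (b ⊔ ·) := by
        rw [ray, image_image]
        exact image_congr fun x hx => (sp x (hW hx)).symm
      rw [this]; exact card_image_le
  have hP : IsPts (Y.image (pr b H)) := fun u hu => by
    obtain ⟨x, hx, rfl⟩ := mem_image.1 hu
    exact pr_rk (hX b hb) hH hbH (hX x (hY hx)) (ne x hx)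
  have e := cd Y subset_rfl
  have h3 := erdos_beck hP (by omega) (k := κ) fun l hl => by
    have h4 := hk _ (rk_plane (pr_plane hX hb hH hbH hY hbY hl)) le_sup_left
    have h5 := card_pts_off (Y.image (pr b H)) l
    have h6 : ((off Y (b ⊔ l)).image (pr b H)).card ≤ (off (Y.image (pr b H)) l).card :=
      card_le_card fun u hu => by
        obtain ⟨x, hx, rfl⟩ := mem_image.1 hu
        obtain ⟨x1, x2⟩ := mem_off.1 hx
        exact mem_off.2 ⟨mem_image_of_mem _ x1, fun h => x2
          (le_sup_right.trans ((sp x x1).symm.le.trans (sup_le_sup_left h b)))⟩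
    rw [cd _ off_sub] at h6
    omega
  rw [e] at h3
  exact h3.trans (Nat.mul_le_mul_left _ (pr_lines_le hX hb hH hbH hY hbY))

end Pool.Agent.P.MP_390d44_co.Fb
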