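import Pool.Agent.P.MP_390d44_co.Fb.If2

/-! Step PRJ2. -/

namespace Pool.Agent.P.MP_390d44_co.Fb

open Finset Pool.Agent.P.MP_390d44_co

theorem p_PRJ2 :
    S_PRJ2 := by
  intro X b L z hX hb hL hbL h1 h2
  have rb := hX b hb
  obtain ⟨H, hH, bH⟩ := exists_plane_avoid rb
  have hY : IsPts ((X.erase b).image (pr b H)) := fun u hu => by
    obtain ⟨x, hx, rfl⟩ := mem_image.1 hu
    exact pr_rk rb hH bH (hX x (mem_of_mem_erase hx)) (ne_of_mem_erase hx).symm
  have r1 : rk (pr b H L) = 2 := by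
    have := rk_sup_inf (b ⊔ L) H
    have := rk_pl rb hL hbL
    have := rk_le_four (b ⊔ L ⊔ H)
    have := rk_lt (le_sup_right : H ≤ b ⊔ L ⊔ H) fun e =>
      bH ((le_sup_left.trans le_sup_left).trans e)
    unfold pr
    omega
  have n1 : ∀ x ∈ pts X L, b ≠ x := fun x hx e => hbL (e ▸ (mem_pts.1 hx).2)
  have n2 : ∀ x ∈ off X (b ⊔ L), b ≠ x := fun x hx e => (mem_off.1 hx).2 (e ▸ le_sup_left)
  have c1 : (pts X L).card ≤ (pts ((X.erase b).image (pr b H)) (pr b H L)).card := by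
    refine card_le_card_of_injOn (pr b H) (fun x hx => mem_pts.2 ⟨mem_image_of_mem _
      (mem_erase.2 ⟨(n1 x hx).symm, pts_sub hx⟩),
      inf_le_inf_right _ (sup_le_sup_left (mem_pts.1 hx).2 _)⟩) fun x hx y hy e => ?_
    have rx := hX x (pts_sub hx)
    have ry := hX y (pts_sub hy)
    have e' : b ⊔ x = b ⊔ y := by
      rw [← sup_pr rb hH bH rx (n1 x hx), e, sup_pr rb hH bH ry (n1 y hy)]
    exact pt_unique (rk_pp rb rx (n1 x hx)) (fun h => hbL (le_sup_left.trans h)) rx ry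
      le_sup_right (e' ▸ le_sup_right) (mem_pts.1 hx).2 (mem_pts.1 hy).2
  have c2 : (ray b (off X (b ⊔ L))).card ≤ ((off X (b ⊔ L)).image (pr b H)).card := by
    refine le_trans (le_of_eq ?_) (card_image_le (f := (b ⊔ ·)))
    rw [image_image, ray]
    exact congrArg card (image_congr fun x hx =>
      (sup_pr rb hH bH (hX x (off_sub hx)) (n2 x hx)).symm)
  obtain ⟨Z, hZ, rfl⟩ := exists_subset_card_eq (h2.trans c2)
  have c3 := lines_long hY r1 (Z := Z) (hZ.trans (image_subset_image fun x hx =>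
    mem_erase.2 ⟨(n2 x hx).symm, off_sub hx⟩)) fun u hu e => by
      obtain ⟨x, hx, rfl⟩ := mem_image.1 (hZ hu)
      refine (mem_off.1 hx).2 (le_sup_right.trans (?_ : b ⊔ x ≤ _))
      rw [← sup_pr rb hH bH (hX x (off_sub hx)) (n2 x hx)]
      exact sup_le le_sup_left (e.trans inf_le_left)
  have c4 := pr_lines_le hX hb hH bH (erase_subset b X) (notMem_erase b X)
  have c5 := two_choose Z.card
  have c6 := Nat.mul_le_mul_right Z.card c1
  have c7 := Nat.mul_le_mul_right Z.card h1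
  unfold pth
  omega

end Pool.Agent.P.MP_390d44_co.Fb
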