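import Pool.Agent.P.MP_390d44_co.Fb.If2

/-! Step RHO. -/

namespace Pool.Agent.P.MP_390d44_co.Fb

open Finset Pool.Agent.P.MP_390d44_co

namespace RHOc

lemma ray_card {S W : Finset Sub} {b c : Sub} (hS : IsPts S) (hb : rk b = 1) (h : S ⊆ W)
    (hc : ∀ x ∈ S, x ≤ c) (hbc : ¬ b ≤ c) : S.card ≤ (ray b W).card := by
  refine card_le_card_of_injOn (b ⊔ ·) (fun x hx => mem_coe.2 (mem_image_of_mem _ (h hx)))
    fun x hx y hy e => ?_
  have hx' : x ∈ S := hx
  have hy' : y ∈ S := hy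
  have e' : b ⊔ x = b ⊔ y := e
  have hbx : b ≠ x := fun e1 => hbc (e1 ▸ hc x hx')
  exact pt_unique (rk_pp hb (hS x hx') hbx) (fun e1 => hbc (le_sup_left.trans e1)) (hS x hx')
    (hS y hy') le_sup_right (e' ▸ le_sup_right) (hc x hx') (hc y hy')

lemma ext_plane {A : Sub} (h2 : 2 ≤ rk A) (h3 : rk A ≤ 3) : ∃ c, rk c = 3 ∧ A ≤ c := by
  rcases h3.eq_or_lt with e | e
  · exact ⟨A, e, le_rfl⟩
  · obtain ⟨x, h1, -, h4⟩ := generic (W := ⊤) (by rw [rk_top]; omega) {A} fun U hU => by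
      rw [mem_singleton.1 hU]
      exact not_le_of_rk (by rw [rk_top]; omega)
    exact ⟨x ⊔ A, rk_pl h1 (by omega) (h4 A (mem_singleton_self _)), le_sup_right⟩

end RHOc

open RHOc

theorem p_RHO (hPOOR : S_POOR) :
    S_RHO := by
  intro X L k hX hL hk
  have hY : IsPts (off X L) := hX.mono off_sub
  have sub : ∀ c, L ≤ c → off X c ⊆ off X L := fun c hc x hx =>
    mem_off.2 ⟨(mem_off.1 hx).1, fun e => (mem_off.1 hx).2 (e.trans hc)⟩
  by_cases h1 : ∃ c, rk c = 3 ∧ L ≤ c ∧ (off X L).card ≤ 600 * (pts (off X L) c).card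
  · obtain ⟨c, hc, hLc, hN⟩ := h1
    have := hk _ (Or.inl ⟨c, hc, rfl⟩)
    refine ⟨off X c, sub c hLc, by omega, fun b hb => ?_⟩
    obtain ⟨b1, b2⟩ := mem_off.1 hb
    have b3 : ¬ b ≤ L := fun e => b2 (e.trans hLc)
    have := ray_card (S := pts (off X L) c) (W := off X (b ⊔ L)) (hY.mono pts_sub) (hX b b1)
      (fun y hy => by
        obtain ⟨y1, y2⟩ := mem_pts.1 hy
        obtain ⟨y3, y4⟩ := mem_off.1 y1
        refine mem_off.2 ⟨y3, fun e => b2 ?_⟩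
        rw [planes_eq hc (rk_pl (hX b b1) hL b3) (hX y y3) hL y4 y2 hLc e le_sup_right]
        exact le_sup_left) (fun x hx => (mem_pts.1 hx).2) b2
    omega
  push Not at h1
  obtain ⟨c0, c1, c2⟩ := ext_plane hL.ge (by omega)
  have hN : 600 < (off X L).card := by
    have := h1 c0 c1 c2
    obtain ⟨z, hz⟩ := card_pos.1 (show 0 < (off X L).card by omega)
    have h2 := h1 (z ⊔ L) (rk_pl (hY z hz) hL (mem_off.1 hz).2) le_sup_right
    have h3 : 0 < (pts (off X L) (z ⊔ L)).card := card_pos.2 ⟨z, mem_pts.2 ⟨hz, le_sup_left⟩⟩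
    omega
  by_cases h2 : ∃ M ∈ lines (off X L), (off X L).card < 600 * (pts (off X L) M).card
  · obtain ⟨M, hM, hc⟩ := h2
    have rM := rk_line hM
    have sk : L ⊓ M = ⊥ := by
      by_contra e
      have a1 := rk_sup_inf L M
      have a2 : rk (L ⊓ M) ≠ 0 := fun e' => e (rk_zero.1 e')
      have a3 : rk L ≤ rk (L ⊔ M) := rk_mono le_sup_left
      obtain ⟨c, a4, a5⟩ := ext_plane (A := L ⊔ M) (by omega) (by omega)
      have a6 := h1 c a4 (le_sup_left.trans a5)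
      have a7 : (pts (off X L) M).card ≤ (pts (off X L) c).card := card_le_card fun x hx =>
        mem_pts.2 ⟨(mem_pts.1 hx).1, (mem_pts.1 hx).2.trans (le_sup_right.trans a5)⟩
      omega
    have := hk _ (Or.inr ⟨L, M, hL, rM, sk, rfl⟩)
    refine ⟨off (off X L) M, off_sub, by omega, fun b hb => ?_⟩
    obtain ⟨b1, b2⟩ := mem_off.1 hb
    have a1 : ¬ M ≤ b ⊔ L :=
      skew_not_le rM hL sk (rk_pl (hY b b1) hL (mem_off.1 b1).2) le_sup_right
    have a2 : (pts (pts (off X L) M) (b ⊔ L)).card ≤ 1 := card_le_one.2 fun x hx y hy => by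
      obtain ⟨x1, x2⟩ := mem_pts.1 hx
      obtain ⟨y1, y2⟩ := mem_pts.1 hy
      exact pt_unique rM a1 (hY x (mem_pts.1 x1).1) (hY y (mem_pts.1 y1).1) (mem_pts.1 x1).2
        (mem_pts.1 y1).2 x2 y2
    have a3 := card_pts_off (pts (off X L) M) (b ⊔ L)
    have a4 := two_le_pts hY hM
    have := ray_card (S := off (pts (off X L) M) (b ⊔ L)) (W := off X (b ⊔ L))
      ((hY.mono pts_sub).mono off_sub) (hY b b1)
      (fun y hy => mem_off.2 ⟨off_sub (pts_sub (mem_off.1 hy).1), (mem_off.1 hy).2⟩)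
      (fun x hx => (mem_pts.1 (mem_off.1 hx).1).2) b2
    omega
  push Not at h2
  obtain ⟨G, g1, g2, g3⟩ := hPOOR (off X L) hY (by omega) h2
  have a1 := hk _ (Or.inl ⟨c0, c1, rfl⟩)
  have a2 := card_le_card (sub c0 c2)
  refine ⟨G, g1, by omega, fun b hb => ?_⟩
  obtain ⟨Z, z1, -, z2, z3⟩ := g3 b hb
  have a3 := z3 (off Z (b ⊔ L)) off_sub
  have a4 := card_pts_off Z (b ⊔ L)
  have a5 := h1 (b ⊔ L) (rk_pl (hY b (g1 hb)) hL (mem_off.1 (g1 hb)).2) le_sup_right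
  have a6 : (pts Z (b ⊔ L)).card ≤ (pts (off X L) (b ⊔ L)).card := card_le_card fun x hx =>
    mem_pts.2 ⟨z1 (mem_pts.1 hx).1, (mem_pts.1 hx).2⟩
  have a7 : (ray b (off Z (b ⊔ L))).card ≤ (ray b (off X (b ⊔ L))).card :=
    card_le_card (image_subset_image fun x hx =>
      mem_off.2 ⟨off_sub (z1 (mem_off.1 hx).1), (mem_off.1 hx).2⟩)
  omega

end Pool.Agent.P.MP_390d44_co.Fb
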