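import Pool.Agent.P.MP_390d44_co.Fb.If2

/-! Step UNI. -/

namespace Pool.Agent.P.MP_390d44_co.Fb

open Finset Pool.Agent.P.MP_390d44_co

namespace UNIc

end UNIc

theorem p_UNI (hBON : S_BON) :
    S_UNI := by
  intro X B y hX hB hy
  refine hBON B (planes X) (pth X) y X.card (fun i hi => ⟨filter_subset _ _, hy i hi⟩)
    fun i hi j hj hij => le_trans (card_le_card fun p hp => ?_) (card_image_le (f := (· ⊔ (i ⊔ j))))
  obtain ⟨h1, h2⟩ := mem_inter.1 hp
  obtain ⟨h3, h4⟩ := mem_filter.1 h1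
  have h5 := (mem_filter.1 h2).2
  have r2 := rk_pp (hX i (hB hi)) (hX j (hB hj)) hij
  obtain ⟨x, hx, h6, h7⟩ := exists_off h3 r2.le
  exact mem_image.2 ⟨x, hx, plane_eq (rk_plane h3) (hX x hx) r2 h7 h6 (sup_le h4 h5)⟩

end Pool.Agent.P.MP_390d44_co.Fb
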