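import Pool.Agent.P.MP_390d44_co.Fb.TBON
import Pool.Agent.P.MP_390d44_co.Fb.TUNI
import Pool.Agent.P.MP_390d44_co.Fb.TADD
import Pool.Agent.P.MP_390d44_co.Fb.TNEWL
import Pool.Agent.P.MP_390d44_co.Fb.TCPL
import Pool.Agent.P.MP_390d44_co.Fb.TCLA
import Pool.Agent.P.MP_390d44_co.Fb.TCLL
import Pool.Agent.P.MP_390d44_co.Fb.TBOUT
import Pool.Agent.P.MP_390d44_co.Fb.TPRJ1
import Pool.Agent.P.MP_390d44_co.Fb.TPRJ2
import Pool.Agent.P.MP_390d44_co.Fb.TPOOR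
import Pool.Agent.P.MP_390d44_co.Fb.TGA
import Pool.Agent.P.MP_390d44_co.Fb.TRHO
import Pool.Agent.P.MP_390d44_co.Fb.TGB
import Pool.Agent.P.MP_390d44_co.Fb.TLUND
import Pool.Agent.P.MP_390d44_co.Fb.TGAP
import Pool.Agent.P.MP_390d44_co.Fb.TCON
import Pool.Agent.P.MP_390d44_co.Fb.TMPO
import Pool.Agent.P.MP_390d44_co.Fb.TMPL
import Pool.Agent.P.MP_390d44_co.Fb.TPLB
import Pool.Agent.P.MP_390d44_co.Fb.TFIB
import Pool.Agent.P.MP_390d44_co.Fb.TGLL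
import Pool.Agent.P.MP_390d44_co.Fb.TGLP
import Pool.Agent.P.MP_390d44_co.Fb.TGLUE
import Pool.Agent.P.MP_390d44_co.Fb.TLB
import Pool.Agent.P.MP_390d44_co.Fb.TMED
import Pool.Agent.P.MP_390d44_co.Fb.TPKB
import Pool.Agent.P.MP_390d44_co.Fb.TNUM
import Pool.Agent.P.MP_390d44_co.Fb.TINB
import Pool.Agent.P.MP_390d44_co.Fb.TCNUM
import Pool.Agent.P.MP_390d44_co.Fb.TCONT

/-! Assembly of the steps for bands and gaps. -/

namespace Pool.Agent.P.MP_390d44_co.Fb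

theorem lund : S_LUND :=
  p_LUND (p_UNI p_BON) (p_GA p_POOR p_PRJ1) (p_GB (p_RHO p_POOR) p_PRJ2)

theorem gap : S_GAP :=
  p_GAP lund (p_BOUT (p_UNI p_BON) p_ADD (p_NEWL p_BON)) p_CPL (p_CLL p_CLA)

theorem inb : S_INB :=
  p_INB (p_GLUE p_CON p_MPO p_MPL p_PLB (p_GLL p_FIB) (p_GLP p_FIB)) (p_MED p_LB p_PLB)
    p_PKB p_NUM

theorem cont : S_CONT := p_CONT inb p_CNUM

end Pool.Agent.P.MP_390d44_co.Fb
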