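import Pool.Agent.P.MP_390d44_co.Fb.Iface

/-! Step AFF. -/

namespace Pool.Agent.P.MP_390d44_co.Fb

open Finset Pool.Agent.P.MP_390d44_co

namespace AFFc

lemma span_two {a b : E3} (h : a ≠ b) :
    Module.finrank ℝ (affineSpan ℝ {a, b}).direction = 1 := by
  rw [direction_affineSpan, vectorSpan_pair]
  exact finrank_span_singleton (vsub_ne_zero.2 h)

lemma ncard_lines (C : Chart) (X : Finset E3) :
    (dLines X).ncard = (lines (X.image C.pt)).card := by
  have hX := isPts_img C X
  have e : dLines X = C.aff '' (lines (X.image C.pt)) := by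
    ext P
    constructor
    · rintro ⟨h1, a, ha, b, hb, h, a1, b1⟩
      refine ⟨_, sup_mem_lines hX (mem_image_of_mem _ ha) (mem_image_of_mem _ hb)
        fun e => h (C.pt_inj e), ?_⟩
      rw [C.aff_two]
      have hle : affineSpan ℝ {a, b} ≤ P := affineSpan_le.2 (by
        rintro _ (rfl | rfl) <;> assumption)
      exact AffineSubspace.eq_of_direction_eq_of_nonempty_of_le (Submodule.eq_of_le_of_finrank_eq
        (AffineSubspace.direction_le hle) (by rw [h1, span_two h]))
        ⟨a, mem_affineSpan ℝ (by simp)⟩ hle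
    · rintro ⟨W, hW, rfl⟩
      obtain ⟨r', v, hv, w, hw, h', v1, w1⟩ := (mem_lines hX).1 hW
      obtain ⟨a, ha, rfl⟩ := mem_image.1 hv
      obtain ⟨b, hb, rfl⟩ := mem_image.1 hw
      have nc : a ≠ b := fun e => h' (by rw [e])
      refine ⟨?_, a, ha, b, hb, nc, C.mem_aff.2 v1, C.mem_aff.2 w1⟩
      rw [← line_eq r' (C.rk_pt a) (C.rk_pt b) h' v1 w1, C.aff_two, span_two nc]
  rw [e, Set.InjOn.ncard_image, Set.ncard_coe_finset]
  intro W hW W' hW' e
  refine eq_of_rk (line_le_of_pts hW fun u hu e' => ?_) (by rw [rk_line hW, rk_line hW'])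
  obtain ⟨x, -, rfl⟩ := mem_image.1 hu
  exact C.mem_aff.1 (e ▸ C.mem_aff.2 e')

end AFFc

theorem p_AFF :
    S_AFF := by
  intro n l p
  constructor
  · rintro ⟨X, rfl, rfl, rfl⟩
    obtain ⟨C, -⟩ := exists_chart ∅ (by simp [IsPts])
    exact ⟨_, isPts_img C X, card_image_of_injective _ C.pt_inj, (AFFc.ncard_lines C X).symm,
      (ncard_planes C X).symm⟩
  · rintro ⟨Y, hY, rfl, rfl, rfl⟩
    obtain ⟨C, hC⟩ := exists_chart Y hY
    obtain ⟨X, -, rfl⟩ := subset_set_image_iff.1 (show (Y : Set Sub) ⊆ C.pt '' Set.univ from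
      fun y hy => by
        have h0 := hC y hy
        rw [le_ker (hY y hy)] at h0
        refine ⟨C.t ((C.f (rep y))⁻¹ • rep y), trivial, ?_⟩
        rw [Chart.pt, Chart.h, C.sj _ (by simp [h0]), Submodule.span_singleton_smul_eq
          (IsUnit.mk0 _ (inv_ne_zero h0))]
        exact ((exists_rep y).choose_spec (hY y hy)).symm)
    exact ⟨X, (card_image_of_injective _ C.pt_inj).symm, AFFc.ncard_lines C X, ncard_planes C X⟩

end Pool.Agent.P.MP_390d44_co.Fb
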