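import Pool.Agent.P.MP_390d44_co.Fb.If2

/-! Step BON. -/

namespace Pool.Agent.P.MP_390d44_co.Fb

open Finset Pool.Agent.P.MP_390d44_co

namespace BONc

lemma aux {α : Type*} [DecidableEq α] (F : α → Finset α) (y z : ℕ) (B : Finset α) :
    (∀ i ∈ B, y ≤ (F i).card) → (∀ i ∈ B, ∀ j ∈ B, i ≠ j → (F i ∩ F j).card ≤ z) →
      B.card * y ≤ (B.biUnion F).card + B.card.choose 2 * z := by
  induction B using Finset.induction_on with
  | empty => simp
  | insert a B ha ih =>
    intro h1 h2
    have k1 := ih (fun i hi => h1 i (mem_insert_of_mem hi))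
      fun i hi j hj => h2 i (mem_insert_of_mem hi) j (mem_insert_of_mem hj)
    have k2 := card_union_add_card_inter (F a) (B.biUnion F)
    have k3 : (F a ∩ B.biUnion F).card ≤ B.card * z := by
      rw [inter_biUnion]
      exact card_biUnion_le_card_mul _ _ _ fun i hi =>
        h2 a (mem_insert_self _ _) i (mem_insert_of_mem hi) fun e => ha (e ▸ hi)
    have k4 := h1 a (mem_insert_self _ _)
    rw [card_insert_of_notMem ha, biUnion_insert, ch2, add_mul, add_mul, one_mul]
    omega

end BONc

theorem p_BON :
    S_BON := by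
  intro B T F y z h1 h2
  refine (BONc.aux F y z B (fun i hi => (h1 i hi).2) h2).trans (Nat.add_le_add_right ?_ _)
  exact card_le_card (biUnion_subset.2 fun i hi => (h1 i hi).1)

end Pool.Agent.P.MP_390d44_co.Fb
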