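import Pool.Agent.P.MP_390d44_co.Fb.Iface

/-! Step GEN. -/

namespace Pool.Agent.P.MP_390d44_co.Fb

open Finset Pool.Agent.P.MP_390d44_co

theorem p_GEN :
    S_GEN := by
  rintro n D E ⟨X, hX, rfl, hl, hp⟩
  obtain ⟨x, -, hx, h⟩ := gen3 (c := ⊤) hX (by rw [rk_top]; omega)
  have h1 := card_lines_ins hX hx
  have h2 := card_planes_ins hX hx
  rw [filter_false_of_mem fun p hp e =>
    not_le_of_rk (by rw [rk_top, rk_plane hp]; omega) (h p hp e), sum_empty, add_zero] at h2
  have h3 : (X.card + 1).choose 2 = X.card + X.card.choose 2 := by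
    rw [Nat.choose_succ_succ, Nat.choose_one_right]
  have h4 : (X.card + 1).choose 3 = X.card.choose 2 + X.card.choose 3 := Nat.choose_succ_succ _ _
  refine ⟨insert x X, hX.ins hx.pt, card_insert_of_notMem hx.nm, by omega, ?_⟩
  rw [h2, h4, ← hl]
  push_cast
  linear_combination hp

end Pool.Agent.P.MP_390d44_co.Fb
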