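import Pool.Agent.P.MP_390d44_co.Fb.If2

/-! Step GLL. -/

namespace Pool.Agent.P.MP_390d44_co.Fb

open Finset Pool.Agent.P.MP_390d44_co

namespace GLLc

end GLLc

theorem p_GLL (hFIB : S_FIB) :
    S_GLL := by
  intro B Q Y c s C M
  have ne : ∀ b ∈ B, ∀ y ∈ Y, b ≠ y := fun b hb y hy e => (C.inB b hb).2 (e ▸ M.inc y hy)
  have r2 : ∀ b ∈ B, ∀ y ∈ Y, rk (b ⊔ y) = 2 := fun b hb y hy =>
    rk_pp (C.pB b hb) (M.ip y hy) (ne b hb y hy)
  have nc : ∀ b ∈ B, ∀ y : Sub, ¬ b ⊔ y ≤ c := fun b hb y e => (C.inB b hb).2 (le_sup_left.trans e)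
  have QY : ∀ q ∈ Q, q ∈ Y := fun q hq => (mem_pts.1 (M.tr ▸ hq)).1
  have hX : IsPts (B ∪ Y) := fun x hx => (mem_union.1 hx).elim (C.pB x) (M.ip x)
  have ch : ∀ b ∈ B, ∀ b' ∈ B, b ≠ b' → ∀ y ∈ Y, (b ⊔ y = b' ⊔ y ↔ y ≤ b ⊔ b') :=
    fun b hb b' hb' e y hy => by
      have r := rk_pp (C.pB b hb) (C.pB b' hb') e
      constructor
      · intro h
        rw [line_eq (r2 b hb y hy) (C.pB b hb) (C.pB b' hb') e le_sup_left (h ▸ le_sup_left)]
        exact le_sup_right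
      · intro h
        rw [line_eq r (C.pB b hb) (M.ip y hy) (ne b hb y hy) le_sup_left h,
          line_eq r (C.pB b' hb') (M.ip y hy) (ne b' hb' y hy) le_sup_right h]
  have h1 : lines (B ∪ Y) = lines Y ∪ Y.biUnion fun y => B.image (· ⊔ y) := by
    ext l
    simp only [mem_union, mem_biUnion, mem_image]
    constructor
    · intro hl
      obtain ⟨h, a, ha, b, hb, rfl⟩ := mem_lines'.1 hl
      rcases mem_union.1 ha with ha | ha <;> rcases mem_union.1 hb with hb | hb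
      · have e : a ≠ b := fun e => by rw [e, sup_idem, C.pB b hb] at h; omega
        obtain ⟨q, hq, e'⟩ := C.chord a ha b hb e
        exact Or.inr ⟨q, QY q hq, a, ha,
          line_eq h (C.pB a ha) (C.pQ q hq) (ne a ha q (QY q hq)) le_sup_left e'⟩
      · exact Or.inr ⟨b, hb, a, ha, rfl⟩
      · exact Or.inr ⟨a, ha, b, hb, sup_comm _ _⟩
      · exact Or.inl (mem_lines'.2 ⟨h, a, ha, b, hb, rfl⟩)
    · rintro (hl | ⟨y, hy, b, hb, rfl⟩)
      · exact lines_mono subset_union_right hl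
      · exact sup_mem_lines hX (mem_union_left _ hb) (mem_union_right _ hy) (ne b hb y hy)
  have h2 : Disjoint (lines Y) (Y.biUnion fun y => B.image (· ⊔ y)) := by
    refine disjoint_left.2 fun l hl h => ?_
    obtain ⟨y, -, h⟩ := mem_biUnion.1 h
    obtain ⟨b, hb, rfl⟩ := mem_image.1 h
    exact nc b hb y (line_le_of_pts hl fun x hx _ => M.inc x hx)
  have h3 : (Y.biUnion fun y => B.image (· ⊔ y)).card = ∑ y ∈ Y, (B.image (· ⊔ y)).card := by
    refine card_biUnion fun y hy y' hy' e => disjoint_left.2 fun l h h' => e ?_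
    obtain ⟨b, hb, rfl⟩ := mem_image.1 h
    obtain ⟨b', -, e'⟩ := mem_image.1 h'
    exact pt_unique (r2 b hb y hy) (nc b hb y) (M.ip y hy) (M.ip y' hy') le_sup_right
      (e' ▸ le_sup_right) (M.inc y hy) (M.inc y' hy')
  have h4 : ∑ y ∈ Y, (2 * (B.image (· ⊔ y)).card +
      (B.offDiag.filter fun q => q.1 ⊔ y = q.2 ⊔ y).card) = ∑ _y ∈ Y, 2 * B.card := by
    refine sum_congr rfl fun y hy => hFIB B (· ⊔ y) fun a ha b hb x hx e e1 e2 => ?_
    refine C.arc a ha b hb x hx e ?_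
    rw [line_eq (r2 a ha y hy) (C.pB a ha) (C.pB b hb) e le_sup_left (e1 ▸ le_sup_left)]
    exact e2 ▸ le_sup_left
  have h5 : ∑ y ∈ Y, (B.offDiag.filter fun q => q.1 ⊔ y = q.2 ⊔ y).card = B.offDiag.card := by
    simp only [card_filter]
    rw [sum_comm, card_eq_sum_ones]
    refine sum_congr rfl fun q hq => ?_
    obtain ⟨ha, hb, e⟩ := mem_offDiag.1 hq
    obtain ⟨z, hz, e'⟩ := C.chord _ ha _ hb e
    rw [← card_filter, card_eq_one]
    refine ⟨z, eq_singleton_iff_unique_mem.2 ⟨mem_filter.2 ⟨QY z hz,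
      (ch _ ha _ hb e z (QY z hz)).2 e'⟩, fun y hy => ?_⟩⟩
    obtain ⟨hy, h⟩ := mem_filter.1 hy
    exact pt_unique (rk_pp (C.pB _ ha) (C.pB _ hb) e) (nc _ ha _) (M.ip y hy) (C.pQ z hz)
      ((ch _ ha _ hb e y hy).1 h) e' (M.inc y hy) (C.inQ z hz).1
  rw [sum_add_distrib, h5, ← mul_sum, ← h3, sum_const, smul_eq_mul, offDiag_card] at h4
  rw [h1, card_union_of_disjoint h2]
  have h6 := two_choose B.card
  have h7 : B.card ≤ B.card * B.card := Nat.le_mul_self _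
  have h8 : Y.card * (2 * B.card) = 2 * (B.card * Y.card) := by ring
  omega

end Pool.Agent.P.MP_390d44_co.Fb
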