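import Pool.Agent.P.MP_390d44_co.Fb.Iface

/-! Step INN. -/

namespace Pool.Agent.P.MP_390d44_co.Fb

open Finset Pool.Agent.P.MP_390d44_co

namespace INNc

theorem pad (hGEN : S_GEN) (D : ℕ) (E : ℤ) (a : ℕ) (h : St3 a D E) :
    ∀ j : ℕ, St3 (a + j) D E := by
  intro j
  induction j with
  | zero => simpa using h
  | succ j ih => exact hGEN (a + j) D E ih

end INNc

theorem p_INN (hGEN : S_GEN) (hREP : S_REP) (hPLA : S_PLA) (hBASE : S_BASE) (hPICK : S_PICK) :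
    S_INN := by
  intro n l p D hl h1 h3 hp hF
  obtain ⟨w, hw3, hw, hPL⟩ := hPLA D h1 h3
  obtain ⟨m, T, u, hm, hmn, hT, hTu, heq⟩ := hPICK n l p D w hl hw3 hw hp hF
  obtain ⟨m', rfl⟩ : ∃ m', m = m' + 1 := ⟨m - 1, by omega⟩
  have hb := hBASE m' D (by omega) (hPL m' hm)
  have hr := hREP u T hT hTu _ D _ hb
  have hpad := INNc.pad hGEN D _ _ hr (n - (m' + 1 + 100 * u))
  have hn : m' + 1 + 100 * u + (n - (m' + 1 + 100 * u)) = n := by omega
  rw [hn] at hpad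
  obtain ⟨X, hX, hc, hlines, hplanes⟩ := hpad
  refine ⟨X, hX, hc, by omega, ?_⟩
  have heq' : (p : ℤ) + T + ((m' + 1).choose 3 : ℕ) + n * D
      = 1 + (n.choose 3 : ℕ) + ((m' + 1 : ℕ) : ℤ) * D := by exact_mod_cast heq
  have : ((planes X).card : ℤ) = p := by linarith
  exact_mod_cast this

end Pool.Agent.P.MP_390d44_co.Fb
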