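import Pool.Agent.P.MP_390d44_co.Fb.If2

/-! Step POOR. -/

namespace Pool.Agent.P.MP_390d44_co.Fb

open Finset Pool.Agent.P.MP_390d44_co

namespace POORc

end POORc

theorem p_POOR :
    S_POOR := by
  intro Y hY hn h
  have h1 := card_poor hY hn h
  obtain ⟨Z, hZ⟩ : ∃ Z : Sub → Finset Sub, ∀ b,
      Z b = Y.filter fun x => b ≠ x ∧ (pts Y (b ⊔ x)).card ≤ 60000 := ⟨_, fun _ => rfl⟩
  have hZY : ∀ b, Z b ⊆ Y := fun b => hZ b ▸ filter_subset _ _
  have c1 : ∀ a, ((poor Y).filter fun q => q.1 = a).card ≤ (Z a).card := by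
    intro a
    rw [hZ]
    refine card_le_card_of_injOn Prod.snd (fun q hq => ?_) fun q hq q' hq' e => ?_
    · obtain ⟨h1, rfl⟩ := mem_filter.1 hq
      obtain ⟨h2, h3⟩ := mem_filter.1 h1
      exact mem_filter.2 ⟨(mem_offDiag.1 h2).2.1, (mem_offDiag.1 h2).2.2, h3⟩
    · exact Prod.ext ((mem_filter.1 hq).2.trans (mem_filter.1 hq').2.symm) e
  refine ⟨Y.filter fun b => 7 * Y.card ≤ 10 * (Z b).card, filter_subset _ _, ?_, fun b hb =>
    ⟨Z b, hZY b, fun e => ?_, (mem_filter.1 hb).2, fun W hW => ?_⟩⟩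
  · rw [card_eq_sum_card_fiberwise (s := poor Y) (f := Prod.fst) (t := Y)
      (fun q hq => (mem_offDiag.1 (mem_filter.1 hq).1).1), mul_sum] at h1
    have h2 : ∑ b ∈ Y, 10 * ((poor Y).filter fun q => q.1 = b).card ≤
        ∑ b ∈ Y, (7 * Y.card + if 7 * Y.card ≤ 10 * (Z b).card then 3 * Y.card else 0) := by
      refine sum_le_sum fun b _ => ?_
      have := c1 b
      have := card_le_card (hZY b)
      split_ifs <;> omega
    rw [sum_add_distrib, ← sum_filter, sum_const, sum_const, smul_eq_mul, smul_eq_mul] at h2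
    refine Nat.le_of_mul_le_mul_left (c := Y.card) ?_ (by omega)
    nlinarith
  · rw [hZ] at e
    exact (mem_filter.1 e).2.1 rfl
  · refine card_le_mul_card_image W 60000 fun l hl => ?_
    obtain ⟨x, hx, rfl⟩ := mem_image.1 hl
    have hx' := hW hx
    rw [hZ] at hx'
    refine le_trans (card_le_card fun y hy => ?_) (mem_filter.1 hx').2.2
    obtain ⟨hy1, hy2⟩ := mem_filter.1 hy
    exact mem_pts.2 ⟨hZY b (hW hy1), hy2 ▸ le_sup_right⟩

end Pool.Agent.P.MP_390d44_co.Fb
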